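import Pool.Agent.R864.CSH.Stm

/-!
Piece B of MP_5bcb58_co (exterior algebra on lists).
-/

set_option maxHeartbeats 400000

namespace Pool.Agent.R715.CSHB

open Finset Pool.Agent.R864.CSH

variable {n : ℕ}

theorem muAux_nil (u : Fin n → ℤ) (f : LF n) : muAux u [] f = 0 := rfl

theorem muAux_cons (u : Fin n → ℤ) (v : Fin n) (l : List (Fin n)) (f : LF n) :
    muAux u (v :: l) f = u v * f l - muAux u l (fun t => f (v :: t)) := rfl

theorem muAux_add (u : Fin n → ℤ) (l : List (Fin n)) :
    ∀ f g : LF n, muAux u l (fun t => f t + g t) = muAux u l f + muAux u l g := by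
  induction l with
  | nil => intro f g; simp [muAux_nil]
  | cons v l ih =>
    intro f g
    rw [muAux_cons, muAux_cons, muAux_cons, ih (fun t => f (v :: t)) (fun t => g (v :: t))]
    ring

theorem muAux_zero (u : Fin n → ℤ) (l : List (Fin n)) :
    ∀ f : LF n, (∀ t, t.length + 1 = l.length → f t = 0) → muAux u l f = 0 := by
  induction l with
  | nil => intro f _; rfl
  | cons v l ih =>
    intro f hf
    rw [muAux_cons, hf l rfl, ih (fun t => f (v :: t)) (fun t ht => hf (v :: t) (by simpa using ht))]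
    ring

theorem muAux_neg (u : Fin n → ℤ) (l : List (Fin n)) (f : LF n) :
    muAux u l (fun t => - f t) = - muAux u l f := by
  have h := muAux_add u l (fun t => - f t) f
  have h0 : muAux u l (fun t => - f t + f t) = 0 :=
    muAux_zero u l _ (fun t _ => by simp)
  rw [h0] at h
  linarith

theorem alt_cons {f : LF n} (hf : Alt f) (c : Fin n) : Alt (fun t => f (c :: t)) := by
  intro p a b r
  exact hf (c :: p) a b r

theorem alt_swap {f : LF n} (hf : Alt f) (a b : Fin n) (r : List (Fin n)) :
    f (a :: b :: r) = - f (b :: a :: r) := hf [] a b r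

theorem alt_diag {f : LF n} (hf : Alt f) (a : Fin n) (r : List (Fin n)) :
    f (a :: a :: r) = 0 := by
  have := alt_swap hf a a r
  linarith

theorem alt_mu (u : Fin n → ℤ) (p : List (Fin n)) :
    ∀ f : LF n, Alt f → ∀ (a b : Fin n) (r : List (Fin n)),
      muAux u (p ++ a :: b :: r) f = - muAux u (p ++ b :: a :: r) f := by
  induction p with
  | nil =>
    intro f hf a b r
    simp only [List.nil_append, muAux_cons]
    have h : muAux u r (fun t => f (a :: b :: t)) = - muAux u r (fun t => f (b :: a :: t)) := by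
      rw [← muAux_neg]
      congr 1
      funext t
      exact alt_swap hf a b t
    rw [h]
    ring
  | cons c p ih =>
    intro f hf a b r
    rw [List.cons_append, List.cons_append, muAux_cons, muAux_cons, ih _ (alt_cons hf c) a b r,
      hf p a b r]
    ring

theorem claim1 (v0 : Fin n) (j : ℕ) (F : Finset (Pr n)) (e : Pr n) (f : LF n)
    (hf : f ∈ Af v0 (j + 1) F) : iota e f ∈ Af v0 j (insert e F) := by
  obtain ⟨⟨ha, hl, he⟩, hv⟩ := hf
  refine ⟨⟨?_, ?_, ?_⟩, ?_⟩
  · intro p a b r
    simp only [iota]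
    have h1 := ha ((ofLex e).2 :: p) a b r
    have h2 := ha ((ofLex e).1 :: p) a b r
    simp only [List.cons_append] at h1 h2
    rw [h1, h2]
    ring
  · intro l hll
    simp only [iota]
    rw [hl _ (by simpa using hll), hl _ (by simpa using hll)]
    ring
  · intro e' he' l
    simp only [iota]
    rw [Finset.mem_insert] at he'
    rcases he' with rfl | he'
    · rw [alt_diag ha, alt_diag ha, alt_swap ha (ofLex e').1 (ofLex e').2 l]
      ring
    · rw [alt_swap ha _ (ofLex e').1, alt_swap ha _ (ofLex e').1, alt_swap ha _ (ofLex e').2,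
        alt_swap ha (ofLex e).1 (ofLex e').2, he e' he', he e' he']
  · intro l
    simp only [iota]
    rw [alt_swap ha _ v0, alt_swap ha _ v0, hv, hv]
    ring

theorem claim2 (v0 : Fin n) (j : ℕ) (F : Finset (Pr n)) (u : Fin n → ℤ) (hu : u v0 = 0)
    (hue : ∀ e ∈ F, u (ofLex e).1 = u (ofLex e).2) (f : LF n) (hf : f ∈ Af v0 j F) :
    mu u f ∈ Af v0 (j + 1) F := by
  obtain ⟨⟨ha, hl, he⟩, hv⟩ := hf
  refine ⟨⟨?_, ?_, ?_⟩, ?_⟩
  · intro p a b r
    exact alt_mu u p f ha a b r
  · intro l hll
    exact muAux_zero u l f (fun t ht => hl t (by omega))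
  · intro e hee l
    simp only [mu, muAux_cons]
    rw [hue e hee]
    congr 1
    congr 1
    funext t
    exact he e hee t
  · intro l
    simp only [mu, muAux_cons]
    rw [hu, muAux_zero u l _ (fun t _ => hv t)]
    ring

theorem claim3 (v0 : Fin n) (j : ℕ) (F : Finset (Pr n)) (u : Fin n → ℤ) (e : Pr n) (f : LF n)
    (hf : f ∈ Af v0 j (insert e F)) :
    iota e (mu u f) = (u (ofLex e).2 - u (ofLex e).1) • f := by
  obtain ⟨⟨ha, hl, he⟩, hv⟩ := hf
  funext l
  simp only [iota, mu, muAux_cons, Pi.smul_apply, smul_eq_mul]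
  have h : (fun t => f ((ofLex e).1 :: t)) = (fun t => f ((ofLex e).2 :: t)) := by
    funext t
    exact he e (Finset.mem_insert_self e F) t
  rw [h]
  ring

theorem claim4 (u : Fin n → ℤ) (f g : LF n) : mu u (f + g) = mu u f + mu u g := by
  funext l
  exact muAux_add u l f g

theorem claim6 (j : ℕ) (F : Finset (Pr n)) (x y : Fin n) (h : (graphOf F).Reachable x y)
    (f : LF n) (hf : f ∈ Au j F) (l : List (Fin n)) : f (x :: l) = f (y :: l) := by
  obtain ⟨ha, hl, he⟩ := hf
  obtain ⟨w⟩ := h
  induction w with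
  | nil => rfl
  | cons hadj _ ih =>
    rw [← ih]
    unfold graphOf at hadj
    rw [SimpleGraph.fromRel_adj] at hadj
    rcases hadj.2 with h | h
    · exact he _ h l
    · exact (he _ h l).symm

theorem claim5 (v0 : Fin n) (j : ℕ) (F : Finset (Pr n)) (hc : (graphOf F).Connected) (f : LF n)
    (hf : f ∈ Af v0 (j + 1) F) : f = 0 := by
  funext l
  cases l with
  | nil => exact hf.1.2.1 [] (by simp)
  | cons x l =>
    rw [claim6 (j + 1) F x v0 (hc.preconnected x v0) f hf.1 l, hf.2 l]
    rfl

theorem claim7 (v0 : Fin n) (j : ℕ) (F : Finset (Pr n)) (f : LF n) (hf : f ∈ Au j F) :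
    f - mu (fun _ => 1) (fun l => f (v0 :: l)) ∈ Af v0 j F := by
  obtain ⟨ha, hl, he⟩ := hf
  refine ⟨⟨?_, ?_, ?_⟩, ?_⟩
  · intro p a b r
    simp only [Pi.sub_apply, mu]
    rw [ha p a b r, alt_mu (fun _ => 1) p _ (alt_cons ha v0) a b r]
    ring
  · intro l hll
    simp only [Pi.sub_apply, mu]
    rw [hl l hll, muAux_zero (fun _ => 1) l _ (fun t ht => hl _ (by
      rw [List.length_cons, ht]; exact hll))]
    ring
  · intro e hee l
    simp only [Pi.sub_apply, mu, muAux_cons]
    rw [he e hee l]
    congr 1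
    congr 1
    congr 1
    funext t
    rw [alt_swap ha v0, alt_swap ha v0, he e hee]
  · intro l
    simp only [Pi.sub_apply, mu, muAux_cons]
    rw [muAux_zero (fun _ => 1) l _ (fun t _ => alt_diag ha v0 t)]
    ring

theorem thmB : StB := by
  intro n v0
  exact ⟨fun j F e f hf => claim1 v0 j F e f hf,
    fun j F u hu hue f hf => claim2 v0 j F u hu hue f hf,
    fun j F u e f hf => claim3 v0 j F u e f hf,
    fun u f g => claim4 u f g,
    fun j F hc f hf => claim5 v0 j F hc f hf,
    fun j F x y h f hf l => claim6 j F x y h f hf l,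
    fun j F f hf => claim7 v0 j F f hf⟩

end Pool.Agent.R715.CSHB
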