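import Pool.Agent.R715.HeckeMain

set_option autoImplicit false

/-!
# Centrality of the relative norm between parabolic idempotents
-/

namespace Pool.Agent.R715.HeckeA

open Equiv Finset

variable {n : ℕ} {K : Type*} [Field K] {H : Type*} [Ring H] [Algebra K H]
variable {q : K} {T : Perm (Fin n) → H}

theorem Rules.closure_mul (h : Rules q T) (hq : q ≠ 0) {G : Set ℕ} (hG : ∀ i ∈ G, 1 ≤ i ∧ i < n)
    {x : H} (hx : ∀ i ∈ G, T (adj n i) * x = q • x) :
    ∀ σ ∈ Subgroup.closure (adj n '' G), T σ * x = q ^ len σ • x := by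
  have key : ∀ i ∈ G, ∀ σ, T σ * x = q ^ len σ • x →
      T (adj n i * σ) * x = q ^ len (adj n i * σ) • x := by
    intro i hi σ ih
    rcases len_adj_mul_cases (hG i hi) σ with h1 | h1
    · rw [← h.mul_lt i (hG i hi).1 (hG i hi).2 σ (by omega), mul_assoc, ih, mul_smul_comm,
        hx i hi, h1, smul_smul, pow_succ]
    · have e := h.mul_gt hq (hG i hi) (σ := σ) (by omega)
      have e2 : T (adj n i * σ) = T (adj n i) * T σ - (q - q⁻¹) • T σ := by rw [e]; abel
      rw [e2, sub_mul, mul_assoc, smul_mul_assoc, ih, mul_smul_comm, hx i hi, h1, smul_smul,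
        smul_smul, ← sub_smul, pow_succ]
      congr 1
      field_simp
      ring
  intro σ hσ
  induction hσ using Subgroup.closure_induction_left with
  | one => rw [h.one, len_one, pow_zero, one_mul, one_smul]
  | mul_left s hs σ hσ ih =>
    obtain ⟨i, hi, rfl⟩ := hs
    exact key i hi σ ih
  | inv_mul_cancel s hs σ hσ ih =>
    obtain ⟨i, hi, rfl⟩ := hs
    rw [adj_inv]
    exact key i hi σ ih

open Classical in
theorem Rules.wsum_mul_of (h : Rules q T) (hq : q ≠ 0) {G : Set ℕ} (hG : ∀ i ∈ G, 1 ≤ i ∧ i < n)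
    {x : H} (hx : ∀ i ∈ G, T (adj n i) * x = q • x) :
    wsum T q (Subgroup.closure (adj n '' G)) * x =
      (∑ σ ∈ univ.filter (· ∈ Subgroup.closure (adj n '' G)), q ^ (2 * len σ)) • x := by
  unfold wsum
  rw [sum_mul, sum_smul]
  refine sum_congr rfl ?_
  intro σ hσ
  rw [mem_filter] at hσ
  rw [smul_mul_assoc, h.closure_mul hq hG hx σ hσ.2, smul_smul, ← pow_add, two_mul]

/-! ### the combinatorics of double cosets -/

theorem chain_lt {f : Fin n → Fin n} {x y : ℕ} (hxy : x < y) (hy : y < n)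
    (hs : ∀ i (hi : 1 ≤ i ∧ i < n), x < i → i ≤ y → f (lo hi) < f (up hi)) :
    f ⟨x, hxy.trans hy⟩ < f ⟨y, hy⟩ := by
  induction y, hxy using Nat.le_induction with
  | base => exact hs (x + 1) ⟨by omega, hy⟩ (by omega) (le_refl _)
  | succ y hxy ih =>
    have h1 := ih (by omega) (fun i hi h1 h2 => hs i hi h1 (by omega))
    have h2 := hs (y + 1) ⟨by omega, hy⟩ (by omega) (le_refl _)
    exact h1.trans h2

theorem isD_of {N : ℕ} {d : Perm (Fin n)}
    (hs : ∀ j (hj : 1 ≤ j ∧ j < n), j ≠ N + 1 → d (lo hj) < d (up hj)) : IsD N d := by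
  intro a b hab hside
  apply chain_lt (f := d) (x := a.val) (y := b.val) hab b.2
  intro i hi h1 h2
  apply hs
  omega

theorem eq_one_of_strictMono {σ : Perm (Fin n)} (h : StrictMono σ) : σ = 1 := by
  by_contra hσ
  have h' : σ⁻¹ ≠ 1 := fun e => hσ (inv_eq_one.1 e)
  obtain ⟨i, hi, hd⟩ := exists_descent h'
  rw [inv_inv] at hd
  exact absurd (h (lo_lt_up hi)) (not_lt.2 hd.le)

theorem IsD.ext {N : ℕ} {d g : Perm (Fin n)} (hd : IsD N d) (hg : IsD N g)
    (hdg : ∀ x : Fin n, x.val ≤ N → d x = g x) : d = g := by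
  have e : g⁻¹ * d = 1 := by
    apply eq_one_of_strictMono
    intro a b hab
    rw [Perm.mul_apply, Perm.mul_apply]
    have f1 : ∀ x : Fin n, x.val ≤ N → g⁻¹ (d x) = x := by
      intro x hx
      rw [hdg x hx, pinv]
    have f2 : ∀ x : Fin n, N < x.val → N < (g⁻¹ (d x)).val := by
      intro x hx
      by_contra hc
      have h1 := f1 (g⁻¹ (d x)) (by omega)
      have h2 := congrArg g h1
      rw [papp, papp] at h2
      have h3 := d.injective h2
      rw [h3] at hc
      omega
    by_cases ha : a.val ≤ N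
    · rw [f1 a ha]
      by_cases hb : b.val ≤ N
      · rw [f1 b hb]; exact hab
      · rw [Fin.lt_def]
        exact lt_of_le_of_lt ha (f2 b (by omega))
    · have hb : ¬ b.val ≤ N := by rw [Fin.lt_def] at hab; omega
      have h1 := hd a b hab (Or.inr (by omega))
      rcases lt_trichotomy (g⁻¹ (d a)) (g⁻¹ (d b)) with h2 | h2 | h2
      · exact h2
      · have := d.injective (g⁻¹.injective h2)
        rw [this] at hab
        exact absurd hab (lt_irrefl _)
      · have h3 := hg _ _ h2 (Or.inr (f2 b (by omega)))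
        rw [papp, papp] at h3
        exact absurd h1 (not_lt.2 h3.le)
  rw [inv_mul_eq_one] at e
  exact e.symm

/-- `i ∈ J`, i.e. `1 ≤ i < n` and `i` is none of `m_1, …, m_N` -/
def InJ (n N : ℕ) (m : ℕ → ℕ) (i : ℕ) : Prop :=
  1 ≤ i ∧ i < n ∧ ∀ k, 1 ≤ k → k ≤ N → i ≠ m k

/-- the data `m_0 = 0 < m_1 < … < m_N < n` -/
structure Good (n N : ℕ) (m : ℕ → ℕ) : Prop where
  zero : m 0 = 0
  lt : ∀ k, k < N → m k < m (k + 1)
  last : m N < n

theorem Good.mono {N : ℕ} {m : ℕ → ℕ} (g : Good n N m) {i j : ℕ} (hij : i ≤ j) (hj : j ≤ N) :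
    m i ≤ m j := by
  induction j, hij using Nat.le_induction with
  | base => exact le_refl _
  | succ j hij ih => exact (ih (by omega)).trans (g.lt j (by omega)).le

theorem Good.smono {N : ℕ} {m : ℕ → ℕ} (g : Good n N m) {i j : ℕ} (hij : i < j) (hj : j ≤ N) :
    m i < m j := lt_of_lt_of_le (g.lt i (by omega)) (g.mono (Nat.succ_le_of_lt hij) hj)

theorem Good.le {N : ℕ} {m : ℕ → ℕ} (g : Good n N m) {i : ℕ} (hi : i ≤ N) : i ≤ m i := by
  induction i with
  | zero => exact Nat.zero_le _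
  | succ i ih => have := ih (by omega); have := g.lt i (by omega); omega

theorem Good.Nlt {N : ℕ} {m : ℕ → ℕ} (g : Good n N m) : N < n :=
  lt_of_le_of_lt (g.le (le_refl N)) g.last

theorem classify {N : ℕ} {m : ℕ → ℕ} (g : Good n N m) {d : Perm (Fin n)} (hd : IsD N d)
    (hJ : ∀ i (hi : 1 ≤ i ∧ i < n), InJ n N m i → d⁻¹ (lo hi) < d⁻¹ (up hi)) :
    (∃ i, ∃ hi : 1 ≤ i ∧ i < n, ∃ j, ∃ hj : 1 ≤ j ∧ j < n, InJ n N m i ∧ j ≤ N ∧
      d (lo hj) = lo hi ∧ d (up hj) = up hi) ∨
    (∀ x : Fin n, x.val ≤ N → (d x).val = m x.val) := by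
  by_cases hc : (∃ i, ∃ hi : 1 ≤ i ∧ i < n, ∃ j, ∃ hj : 1 ≤ j ∧ j < n, InJ n N m i ∧ j ≤ N ∧
      d (lo hj) = lo hi ∧ d (up hj) = up hi)
  · exact Or.inl hc
  right
  have hNn := g.Nlt
  -- the values
  let a : ℕ → ℕ := fun k => if h : k < n then (d ⟨k, h⟩).val else 0
  have ha : ∀ k (h : k < n), a k = (d ⟨k, h⟩).val := fun k h => dif_pos h
  have han : ∀ k, k ≤ N → a k < n := by
    intro k hk
    rw [ha k (by omega)]
    exact (d _).2
  have hda : ∀ k (hk : k ≤ N), d⁻¹ ⟨a k, han k hk⟩ = ⟨k, by omega⟩ := by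
    intro k hk
    have : (⟨a k, han k hk⟩ : Fin n) = d ⟨k, by omega⟩ := by
      apply Fin.ext
      simp only
      rw [ha k (by omega)]
    rw [this, pinv]
  have hamono : ∀ k, k < N → a k < a (k + 1) := by
    intro k hk
    rw [ha k (by omega), ha (k + 1) (by omega)]
    exact hd _ _ (by rw [Fin.lt_def]; simp) (Or.inl (by simp only; omega))
  -- boundaries
  have hb : ∀ k, k < N → ∃ j, 1 ≤ j ∧ j ≤ N ∧ a k < m j ∧ m j ≤ a (k + 1) := by
    intro k hk
    by_contra hcon
    push Not at hcon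
    have hin : ∀ i, 1 ≤ i → i < n → a k < i → i ≤ a (k + 1) → InJ n N m i := by
      intro i h1 h2 h3 h4
      refine ⟨h1, h2, ?_⟩
      intro j hj1 hj2 e
      have := hcon j hj1 hj2 (by omega)
      omega
    have hlt := hamono k hk
    by_cases h1 : a (k + 1) = a k + 1
    · apply hc
      have hn := han (k + 1) (by omega)
      refine ⟨a (k + 1), ⟨by omega, hn⟩, k + 1, ⟨by omega, by omega⟩,
        hin _ (by omega) hn (by omega) (le_refl _), by omega, ?_, ?_⟩
      · apply Fin.ext
        simp only [lo]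
        have : (⟨k + 1 - 1, by omega⟩ : Fin n) = ⟨k, by omega⟩ := by
          apply Fin.ext; simp
        rw [this, ← ha k (by omega)]
        omega
      · apply Fin.ext
        simp only [up]
        rw [← ha (k + 1) (by omega)]
    · have hn := han (k + 1) (by omega)
      have c1 := chain_lt (f := (d⁻¹ : Perm (Fin n))) (x := a k) (y := a k + 1) (by omega)
        (by omega) (fun i hi h2 h3 => hJ i hi (hin i hi.1 hi.2 h2 (by omega)))
      have c2 := chain_lt (f := (d⁻¹ : Perm (Fin n))) (x := a k + 1) (y := a (k + 1)) (by omega)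
        hn (fun i hi h2 h3 => hJ i hi (hin i hi.1 hi.2 (by omega) (by omega)))
      rw [hda k (by omega)] at c1
      rw [hda (k + 1) (by omega)] at c2
      rw [Fin.lt_def] at c1 c2
      simp only at c1 c2
      omega
  -- lower bounds
  have hlow : ∀ k, k ≤ N → m k ≤ a k := by
    intro k
    induction k with
    | zero => intro _; rw [g.zero]; exact Nat.zero_le _
    | succ k ih =>
      intro hk
      obtain ⟨j, hj1, hj2, h1, h2⟩ := hb k (by omega)
      have h3 := ih (by omega)
      have h4 : k < j := by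
        by_contra h5
        have := g.mono (i := j) (j := k) (by omega) (by omega)
        omega
      exact (g.mono (i := k + 1) (j := j) (by omega) hj2).trans h2
  -- upper bounds
  have hup : ∀ t k, k + t + 1 = N → a k < m (k + 1) := by
    intro t
    induction t with
    | zero =>
      intro k hk
      obtain ⟨j, hj1, hj2, h1, h2⟩ := hb k (by omega)
      exact lt_of_lt_of_le h1 (g.mono (by omega) (by omega))
    | succ t ih =>
      intro k hk
      obtain ⟨j, hj1, hj2, h1, h2⟩ := hb k (by omega)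
      have h3 := ih (k + 1) (by omega)
      have h4 : j ≤ k + 1 := by
        by_contra h5
        have := g.mono (i := k + 1 + 1) (j := j) (by omega) hj2
        omega
      exact lt_of_lt_of_le h1 (g.mono h4 (by omega))
  have hup' : ∀ k, k < N → a k < m (k + 1) := fun k hk => hup (N - 1 - k) k (by omega)
  intro x hx
  have hx' : a x.val = (d x).val := ha x.val x.2
  rw [← hx']
  by_contra hne
  have h1 := hlow x.val hx
  have h2 : m x.val < a x.val := by omega
  have hn := han x.val hx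
  have hi : InJ n N m (a x.val) := by
    refine ⟨by omega, hn, ?_⟩
    intro k hk1 hk2 e
    by_cases h3 : k ≤ x.val
    · have := g.mono h3 hx; omega
    · have h4 := hup' x.val (by omega)
      have := g.mono (i := x.val + 1) (j := k) (by omega) hk2
      omega
  have h3 := hJ (a x.val) ⟨by omega, hn⟩ hi
  have e1 : up ⟨by omega, hn⟩ = (⟨a x.val, hn⟩ : Fin n) := rfl
  rw [e1, hda x.val hx, Fin.lt_def] at h3
  simp only at h3
  set z := d⁻¹ (lo ⟨by omega, hn⟩) with hz
  have hz2 : (d z).val = a x.val - 1 := by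
    rw [hz, papp]; rfl
  have hz3 : a z.val = (d z).val := ha z.val z.2
  have h5 := hup' z.val (by omega)
  have h6 := g.mono (i := z.val + 1) (j := x.val) (by omega) hx
  omega

/-! ### the idempotent and the antisymmetriser -/

/-- the properties of `e_μ` and of the antisymmetriser that are used -/
structure Setup (q : K) (T : Perm (Fin n) → H) (N : ℕ) (m : ℕ → ℕ) (e A : H) : Prop where
  el : ∀ i, InJ n N m i → T (adj n i) * e = q • e
  er : ∀ i, InJ n N m i → e * T (adj n i) = q • e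
  ee : e * e = e
  Al : ∀ j, 1 ≤ j → j ≤ N → T (adj n j) * A = (-q⁻¹) • A
  Ar : ∀ j, 1 ≤ j → j ≤ N → A * T (adj n j) = (-q⁻¹) • A
  Ac : ∀ j, N + 2 ≤ j → j < n → T (adj n j) * A = A * T (adj n j)

variable {N : ℕ} {m : ℕ → ℕ} {e A : H}

theorem eq_zero_of_two (hq : q ≠ 0) (hq2 : q + q⁻¹ ≠ 0) {x : H} (h : q • x = (-q⁻¹) • x) :
    x = 0 := by
  have h1 : (q + q⁻¹) • x = 0 := by
    rw [add_smul, h]; module
  rcases smul_eq_zero.1 h1 with h2 | h2
  · exact absurd h2 hq2
  · exact h2

theorem Setup.key (s : Setup q T N m e A) (h : Rules q T) (hq : q ≠ 0) (hq2 : q + q⁻¹ ≠ 0)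
    (g : Good n N m) {γ : Perm (Fin n)} (hγ : IsD N γ)
    (hγm : ∀ x : Fin n, x.val ≤ N → (γ x).val = m x.val) :
    ∀ d : Perm (Fin n), IsD N d →
      (e * T d * A = 0 ∧ A * T d⁻¹ * e = 0) ∨
      (∃ k, len d = len γ + k ∧ e * T d * A = q ^ k • (e * T γ * A) ∧
        A * T d⁻¹ * e = q ^ k • (A * T γ⁻¹ * e)) := by
  intro d
  induction hl : len d using Nat.strong_induction_on generalizing d with
  | _ l ih =>
    intro hd
    by_cases hJ : ∀ i (hi : 1 ≤ i ∧ i < n), InJ n N m i → d⁻¹ (lo hi) < d⁻¹ (up hi)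
    · rcases classify g hd hJ with hc | hc
      · obtain ⟨i, hi, j, hj, hiJ, hjN, h1, h2⟩ := hc
        left
        have e1 := adj_mul_eq_mul_adj (hi := hi) (hj := hj) h1 h2
        have h3 := hJ i hi hiJ
        have l1 : len d < len (adj n i * d) := (len_lt_adj_mul_iff hi).2 h3
        have l2 : len d < len (d * adj n j) := by rw [← e1]; exact l1
        have e' : d⁻¹ * adj n i = adj n j * d⁻¹ := by
          have := congrArg (fun x => x⁻¹) e1
          simpa [mul_inv_rev, adj_inv] using this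
        have l3 : len d⁻¹ < len (adj n j * d⁻¹) := by
          rw [len_inv, ← len_mul_adj]; exact l2
        have l4 : len d⁻¹ < len (d⁻¹ * adj n i) := by rw [e']; exact l3
        have r1 : T (adj n i) * T d = T d * T (adj n j) := by
          rw [h.mul_lt i hi.1 hi.2 d l1, h.mul_right_lt hj d l2, e1]
        have r2 : T d⁻¹ * T (adj n i) = T (adj n j) * T d⁻¹ := by
          rw [h.mul_lt j hj.1 hj.2 d⁻¹ l3, h.mul_right_lt hi d⁻¹ l4, e']
        constructor
        · apply eq_zero_of_two hq hq2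
          calc q • (e * T d * A) = (q • e) * T d * A := by simp only [smul_mul_assoc]
            _ = e * (T (adj n i) * T d) * A := by rw [← s.er i hiJ]; simp only [mul_assoc]
            _ = e * T d * (T (adj n j) * A) := by rw [r1]; simp only [mul_assoc]
            _ = (-q⁻¹) • (e * T d * A) := by rw [s.Al j hj.1 hjN, mul_smul_comm]
        · apply eq_zero_of_two hq hq2
          calc q • (A * T d⁻¹ * e) = A * T d⁻¹ * (q • e) := by simp only [mul_smul_comm]
            _ = A * (T d⁻¹ * T (adj n i)) * e := by rw [← s.el i hiJ]; simp only [mul_assoc]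
            _ = (A * T (adj n j)) * T d⁻¹ * e := by rw [r2]; simp only [mul_assoc]
            _ = (-q⁻¹) • (A * T d⁻¹ * e) := by rw [s.Ar j hj.1 hjN]; simp only [smul_mul_assoc]
      · right
        have : d = γ := by
          apply hd.ext hγ
          intro x hx
          apply Fin.ext
          rw [hc x hx, hγm x hx]
        subst this
        exact ⟨0, by omega, by rw [pow_zero, one_smul], by rw [pow_zero, one_smul]⟩
    · push Not at hJ
      obtain ⟨i, hi, hiJ, h1⟩ := hJ
      have h2 : d⁻¹ (up hi) < d⁻¹ (lo hi) := by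
        refine lt_of_le_of_ne h1 ?_
        intro e1
        exact absurd (d⁻¹.injective e1) (ne_of_gt (lo_lt_up hi))
      have hs : ¬ ((d⁻¹ (lo hi)).val ≤ N ↔ (d⁻¹ (up hi)).val ≤ N) := by
        intro hs
        obtain ⟨j, hj, -, -, -, h3⟩ := hd.same hi hs
        exact absurd h2 (not_lt.2 h3.le)
      have hd' := hd.diff hi hs
      have l1 := len_adj_mul_of_gt hi h2
      have e1 : T d = T (adj n i) * T (adj n i * d) := by
        rw [h.mul_lt i hi.1 hi.2 (adj n i * d) (by rw [adj_mul_adj_mul]; omega), adj_mul_adj_mul]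
      have e2 : (adj n i * d)⁻¹ = d⁻¹ * adj n i := by rw [mul_inv_rev, adj_inv]
      have e3 : T d⁻¹ = T (adj n i * d)⁻¹ * T (adj n i) := by
        rw [h.mul_right_lt hi (adj n i * d)⁻¹ (by
          rw [e2, mul_adj_mul_adj, len_inv, ← e2, len_inv]; omega), e2, mul_adj_mul_adj]
      have f1 : e * T d * A = q • (e * T (adj n i * d) * A) := by
        calc e * T d * A = (e * T (adj n i)) * T (adj n i * d) * A := by
              rw [e1]; simp only [mul_assoc]
          _ = q • (e * T (adj n i * d) * A) := by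
              rw [s.er i hiJ]; simp only [smul_mul_assoc]
      have f2 : A * T d⁻¹ * e = q • (A * T (adj n i * d)⁻¹ * e) := by
        calc A * T d⁻¹ * e = A * T (adj n i * d)⁻¹ * (T (adj n i) * e) := by
              rw [e3]; simp only [mul_assoc]
          _ = q • (A * T (adj n i * d)⁻¹ * e) := by
              rw [s.el i hiJ]; simp only [mul_smul_comm]
      rcases ih (len (adj n i * d)) (by omega) (adj n i * d) rfl hd' with h3 | ⟨k, hk, h3, h4⟩
      · left
        rw [f1, f2, h3.1, h3.2, smul_zero]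
        exact ⟨rfl, rfl⟩
      · right
        refine ⟨k + 1, by omega, ?_, ?_⟩
        · rw [f1, h3, smul_smul, pow_succ, mul_comm]
        · rw [f2, h4, smul_smul, pow_succ, mul_comm]

theorem Setup.zero_of_lt (s : Setup q T N m e A) (h : Rules q T) (hq : q ≠ 0)
    (hq2 : q + q⁻¹ ≠ 0) (g : Good n N m) {γ : Perm (Fin n)} (hγ : IsD N γ)
    (hγm : ∀ x : Fin n, x.val ≤ N → (γ x).val = m x.val) :
    ∀ y : Perm (Fin n), len y < len γ → A * T y * e = 0 := by
  intro y
  induction hl : len y using Nat.strong_induction_on generalizing y with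
  | _ l ih =>
    intro hy
    by_cases hD : IsD N y⁻¹
    · rcases s.key h hq hq2 g hγ hγm y⁻¹ hD with h1 | ⟨k, hk, -, -⟩
      · have := h1.2
        rwa [inv_inv] at this
      · rw [len_inv] at hk
        omega
    · have : ∃ j, ∃ hj : 1 ≤ j ∧ j < n, j ≠ N + 1 ∧ y⁻¹ (up hj) < y⁻¹ (lo hj) := by
        by_contra hc
        push Not at hc
        apply hD
        apply isD_of
        intro j hj hjN
        refine lt_of_le_of_ne (hc j hj hjN) ?_
        intro e1
        exact absurd (y⁻¹.injective e1) (ne_of_lt (lo_lt_up hj))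
      obtain ⟨j, hj, hjN, h1⟩ := this
      have l1 := len_adj_mul_of_gt hj h1
      have e1 : T y = T (adj n j) * T (adj n j * y) := by
        rw [h.mul_lt j hj.1 hj.2 (adj n j * y) (by rw [adj_mul_adj_mul]; omega), adj_mul_adj_mul]
      have h2 := ih (len (adj n j * y)) (by omega) (adj n j * y) rfl (by omega)
      rw [e1]
      by_cases h3 : j ≤ N
      · calc A * (T (adj n j) * T (adj n j * y)) * e
            = (A * T (adj n j)) * T (adj n j * y) * e := by simp only [mul_assoc]
          _ = (-q⁻¹) • (A * T (adj n j * y) * e) := by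
            rw [s.Ar j hj.1 h3]; simp only [smul_mul_assoc]
          _ = 0 := by rw [h2, smul_zero]
      · calc A * (T (adj n j) * T (adj n j * y)) * e
            = (A * T (adj n j)) * T (adj n j * y) * e := by simp only [mul_assoc]
          _ = T (adj n j) * (A * T (adj n j * y) * e) := by
            rw [← s.Ac j (by omega) hj.2]; simp only [mul_assoc]
          _ = 0 := by rw [h2, mul_zero]

/-! ### inverses -/

/-- the span of the `T_y` with `ℓ(y) < k` -/
def Filt (K : Type*) [Field K] {H : Type*} [Ring H] [Algebra K H] (T : Perm (Fin n) → H)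
    (k : ℕ) : Submodule K H :=
  Submodule.span K {x | ∃ y, len y < k ∧ T y = x}

theorem Filt.mono' {k l : ℕ} (hkl : k ≤ l) : Filt K T k ≤ Filt K T l := by
  apply Submodule.span_mono
  rintro x ⟨y, hy, rfl⟩
  exact ⟨y, by omega, rfl⟩

theorem Filt.mem {k : ℕ} {y : Perm (Fin n)} (hy : len y < k) : T y ∈ Filt K T k :=
  Submodule.subset_span ⟨y, hy, rfl⟩

theorem Rules.filt_mul (h : Rules q T) (hq : q ≠ 0) {i : ℕ} (hi : 1 ≤ i ∧ i < n) {k : ℕ} {x : H}
    (hx : x ∈ Filt K T k) : x * T (adj n i) ∈ Filt K T (k + 1) := by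
  unfold Filt at hx
  induction hx using Submodule.span_induction with
  | mem x hx =>
    obtain ⟨y, hy, rfl⟩ := hx
    rcases len_mul_adj_cases hi y with h1 | h1
    · rw [h.mul_right_lt hi y (by omega)]
      exact Filt.mem (by omega)
    · rw [h.mul_right_gt hq hi (by omega)]
      exact Submodule.add_mem _ (Filt.mem (by omega)) (Submodule.smul_mem _ _ (Filt.mem (by omega)))
  | zero => rw [zero_mul]; exact Submodule.zero_mem _
  | add x y _ _ h1 h2 => rw [add_mul]; exact Submodule.add_mem _ h1 h2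
  | smul c x _ h1 => rw [smul_mul_assoc]; exact Submodule.smul_mem _ _ h1

theorem Rules.inv_T (h : Rules q T) (hq : q ≠ 0) :
    ∀ w : Perm (Fin n), ∃ u : H, T w * u = 1 ∧ u * T w = 1 ∧ u - T w⁻¹ ∈ Filt K T (len w) := by
  refine len_induction ?_ ?_
  · refine ⟨1, by rw [h.one, one_mul], by rw [h.one, one_mul], ?_⟩
    rw [inv_one, h.one, sub_self]
    exact Submodule.zero_mem _
  · intro i hi1 hi2 σ hlt ⟨u, hu1, hu2, hu3⟩
    have hi : 1 ≤ i ∧ i < n := ⟨hi1, hi2⟩
    have hl : len (adj n i * σ) = len σ + 1 := by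
      rcases len_adj_mul_cases hi σ with h1 | h1 <;> omega
    have hsq := h.sq hq hi
    have e1 : T (adj n i) * (T (adj n i) - (q - q⁻¹) • 1) = 1 := by
      rw [mul_sub, hsq, mul_smul_comm, mul_one]; abel
    have e2 : (T (adj n i) - (q - q⁻¹) • 1) * T (adj n i) = 1 := by
      rw [sub_mul, hsq, smul_mul_assoc, one_mul]; abel
    refine ⟨u * (T (adj n i) - (q - q⁻¹) • 1), ?_, ?_, ?_⟩
    · rw [← h.mul_lt i hi1 hi2 σ hlt]
      calc T (adj n i) * T σ * (u * (T (adj n i) - (q - q⁻¹) • 1))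
          = T (adj n i) * (T σ * u) * (T (adj n i) - (q - q⁻¹) • 1) := by simp only [mul_assoc]
        _ = 1 := by rw [hu1, mul_one, e1]
    · rw [← h.mul_lt i hi1 hi2 σ hlt]
      calc u * (T (adj n i) - (q - q⁻¹) • 1) * (T (adj n i) * T σ)
          = u * ((T (adj n i) - (q - q⁻¹) • 1) * T (adj n i)) * T σ := by simp only [mul_assoc]
        _ = 1 := by rw [e2, mul_one, hu2]
    · have e3 : (adj n i * σ)⁻¹ = σ⁻¹ * adj n i := by rw [mul_inv_rev, adj_inv]
      have e4 : T (adj n i * σ)⁻¹ = T σ⁻¹ * T (adj n i) := by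
        rw [e3, h.mul_right_lt hi σ⁻¹]
        rw [← e3, len_inv, len_inv]; exact hlt
      have e5 : u * (T (adj n i) - (q - q⁻¹) • 1) - T (adj n i * σ)⁻¹ =
          (u - T σ⁻¹) * T (adj n i) - (q - q⁻¹) • (u - T σ⁻¹) - (q - q⁻¹) • T σ⁻¹ := by
        rw [e4]
        simp only [mul_sub, sub_mul, mul_smul_comm, mul_one, smul_sub]
        abel
      rw [e5, hl]
      refine Submodule.sub_mem _ (Submodule.sub_mem _ (h.filt_mul hq hi hu3) ?_) ?_
      · exact Submodule.smul_mem _ _ (Filt.mono' (by omega) hu3)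
      · exact Submodule.smul_mem _ _ (Filt.mem (by rw [len_inv]; omega))

theorem Setup.inv_eq (s : Setup q T N m e A) (h : Rules q T) (hq : q ≠ 0)
    (hq2 : q + q⁻¹ ≠ 0) (g : Good n N m) {γ : Perm (Fin n)} (hγ : IsD N γ)
    (hγm : ∀ x : Fin n, x.val ≤ N → (γ x).val = m x.val) {v : H} (hv : T γ * v = 1) :
    A * v * e = A * T γ⁻¹ * e := by
  obtain ⟨u, hu1, hu2, hu3⟩ := h.inv_T hq γ
  have huv : u = v := by
    calc u = u * (T γ * v) := by rw [hv, mul_one]
      _ = v := by rw [← mul_assoc, hu2, one_mul]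
  subst huv
  have key : ∀ x ∈ Filt K T (len γ), A * x * e = 0 := by
    intro x hx
    unfold Filt at hx
    induction hx using Submodule.span_induction with
    | mem x hx =>
      obtain ⟨y, hy, rfl⟩ := hx
      exact s.zero_of_lt h hq hq2 g hγ hγm y hy
    | zero => rw [mul_zero, zero_mul]
    | add x y _ _ h1 h2 => rw [mul_add, add_mul, h1, h2, add_zero]
    | smul c x _ h1 => rw [mul_smul_comm, smul_mul_assoc, h1, smul_zero]
  have := key _ hu3
  rw [mul_sub, sub_mul, sub_eq_zero] at this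
  exact this

/-! ### the norm between the idempotents -/

theorem Setup.norm (s : Setup q T N m e A) (h : Rules q T) (hq : q ≠ 0)
    (hq2 : q + q⁻¹ ≠ 0)
    (hq3 : ∀ (F : Finset (Perm (Fin n))) (k : Perm (Fin n) → ℕ), F.Nonempty →
      ∑ d ∈ F, q ^ k d ≠ 0)
    (g : Good n N m) {γ : Perm (Fin n)} (hγ : IsD N γ)
    (hγm : ∀ x : Fin n, x.val ≤ N → (γ x).val = m x.val) {v : H} (hv : T γ * v = 1) :
    ∃ c : K, c ≠ 0 ∧ e * Nrm T N A * e = c • (e * T γ * A * v * e) := by
  classical
  set Y := e * T γ * A * v * e with hY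
  have hY2 : Y = e * T γ * (A * T γ⁻¹ * e) := by
    rw [← s.inv_eq h hq hq2 g hγ hγm hv, hY]
    simp only [mul_assoc]
  have hterm : ∀ d : Perm (Fin n), IsD N d →
      ¬ (∃ k, e * (T d * A * T d⁻¹) * e = q ^ k • Y) → e * (T d * A * T d⁻¹) * e = 0 := by
    intro d hd hno
    rcases s.key h hq hq2 g hγ hγm d hd with h1 | ⟨k, hk, h1, h2⟩
    · calc e * (T d * A * T d⁻¹) * e = (e * T d * A) * (T d⁻¹ * e) := by simp only [mul_assoc]
        _ = 0 := by rw [h1.1, zero_mul]
    · exfalso
      apply hno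
      refine ⟨k + k, ?_⟩
      calc e * (T d * A * T d⁻¹) * e = (e * T d * A) * (T d⁻¹ * e) := by simp only [mul_assoc]
        _ = q ^ k • (e * T γ * (A * T d⁻¹ * e)) := by
            rw [h1]; simp only [mul_assoc, smul_mul_assoc]
        _ = q ^ (k + k) • Y := by
            rw [h2, mul_smul_comm, smul_smul, ← pow_add, hY2]
  set D := univ.filter (IsD N : Perm (Fin n) → Prop) with hD
  set D1 := D.filter (fun d => ∃ k, e * (T d * A * T d⁻¹) * e = q ^ k • Y) with hD1
  have hex : ∀ d : Perm (Fin n), ∃ k : ℕ, d ∈ D1 → e * (T d * A * T d⁻¹) * e = q ^ k • Y := by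
    intro d
    by_cases h1 : d ∈ D1
    · obtain ⟨k, hk⟩ := (mem_filter.1 h1).2
      exact ⟨k, fun _ => hk⟩
    · exact ⟨0, fun h2 => absurd h2 h1⟩
  choose k hk using hex
  refine ⟨∑ d ∈ D1, q ^ k d, hq3 D1 k ⟨γ, ?_⟩, ?_⟩
  · rw [hD1, mem_filter, hD, mem_filter]
    refine ⟨⟨mem_univ _, hγ⟩, 0, ?_⟩
    rw [pow_zero, one_smul, hY2]
    simp only [mul_assoc]
  · unfold Nrm
    rw [mul_sum, sum_mul, sum_smul]
    rw [← hD, ← sum_filter_add_sum_filter_not D
      (fun d => ∃ k, e * (T d * A * T d⁻¹) * e = q ^ k • Y)]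
    rw [← hD1]
    have z : ∑ x ∈ D.filter (fun d => ¬ ∃ k, e * (T d * A * T d⁻¹) * e = q ^ k • Y),
        e * (T x * A * T x⁻¹) * e = 0 := by
      apply sum_eq_zero
      intro d hd
      rw [mem_filter, hD, mem_filter] at hd
      exact hterm d hd.1.2 hd.2
    rw [z, add_zero]
    exact sum_congr rfl (fun d hd => hk d hd)

theorem Setup.central (s : Setup q T N m e A) (h : Rules q T) (hq : q ≠ 0)
    (hq2 : q + q⁻¹ ≠ 0)
    (hq3 : ∀ (F : Finset (Perm (Fin n))) (k : Perm (Fin n) → ℕ), F.Nonempty →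
      ∑ d ∈ F, q ^ k d ≠ 0)
    (hgen : Algebra.adjoin K {x | ∃ i, 1 ≤ i ∧ i < n ∧ T (adj n i) = x} = ⊤)
    (g : Good n N m) {γ : Perm (Fin n)} (hγ : IsD N γ)
    (hγm : ∀ x : Fin n, x.val ≤ N → (γ x).val = m x.val) {v : H} (hv : T γ * v = 1) (x : H) :
    (e * T γ * A * v * e) * (e * x * e) = (e * x * e) * (e * T γ * A * v * e) := by
  obtain ⟨c, hc, hc2⟩ := s.norm h hq hq2 hq3 g hγ hγm hv
  have hz : ∀ y : H, Nrm T N A * y = y * Nrm T N A := by
    intro y
    have hy : y ∈ Algebra.adjoin K {x | ∃ i, 1 ≤ i ∧ i < n ∧ T (adj n i) = x} := by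
      rw [hgen]; exact Algebra.mem_top
    induction hy using Algebra.adjoin_induction with
    | mem x hx =>
      obtain ⟨i, hi1, hi2, rfl⟩ := hx
      refine (h.nrm_comm hq ?_ ⟨hi1, hi2⟩).symm
      intro j hj1 hj2 hjN
      by_cases h1 : j ≤ N
      · rw [s.Al j hj1 h1, s.Ar j hj1 h1]
      · exact s.Ac j (by omega) hj2
    | algebraMap r => exact (Algebra.commutes r _).symm
    | add x y _ _ h1 h2 => rw [mul_add, add_mul, h1, h2]
    | mul x y _ _ h1 h2 => rw [← mul_assoc, h1, mul_assoc, h2, mul_assoc]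
  have hX : e * T γ * A * v * e = c⁻¹ • (e * Nrm T N A * e) := by
    rw [hc2, smul_smul, inv_mul_cancel₀ hc, one_smul]
  rw [hX, smul_mul_assoc, mul_smul_comm]
  congr 1
  have hee : ∀ y : H, e * (e * y) = e * y := fun y => by rw [← mul_assoc, s.ee]
  have h1 : e * Nrm T N A * e = e * Nrm T N A := by
    rw [mul_assoc, hz e, hee]
  have h2 : e * Nrm T N A = Nrm T N A * e := (hz e).symm
  rw [h1]
  calc e * Nrm T N A * (e * x * e) = Nrm T N A * (e * x * e) := by
        rw [h2]; simp only [mul_assoc, hee]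
    _ = (e * x * e) * Nrm T N A := hz _
    _ = e * x * e * (e * Nrm T N A) := by
        simp only [mul_assoc, hee]

end Pool.Agent.R715.HeckeA
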