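import Pool.Agent.R715.PermLen

set_option autoImplicit false

/-!
# The Iwahori-Hecke algebra of the symmetric group: relative norms
-/

namespace Pool.Agent.R715.HeckeA

open Equiv Finset

variable {n : ℕ} {K : Type*} [Field K] {H : Type*} [Ring H] [Algebra K H]

/-- `(T_σ)` are the standard elements of the Iwahori-Hecke algebra `H` of `S_n` with parameter
`q`: `T_1 = 1`, `T_{s_i} T_σ = T_{s_i σ}` if `ℓ(s_i σ) > ℓ(σ)`, and
`(T_{s_i} - q) (T_{s_i} + q⁻¹) = 0`. -/
structure Rules (q : K) (T : Perm (Fin n) → H) : Prop where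
  one : T 1 = 1
  mul_lt : ∀ i, 1 ≤ i → i < n → ∀ σ, len σ < len (adj n i * σ) →
    T (adj n i) * T σ = T (adj n i * σ)
  quad : ∀ i, 1 ≤ i → i < n →
    (T (adj n i) - algebraMap K H q) * (T (adj n i) + algebraMap K H q⁻¹) = 0

variable {q : K} {T : Perm (Fin n) → H}

theorem Rules.sq (h : Rules q T) (hq : q ≠ 0) {i : ℕ} (hi : 1 ≤ i ∧ i < n) :
    T (adj n i) * T (adj n i) = 1 + (q - q⁻¹) • T (adj n i) := by
  have e := h.quad i hi.1 hi.2
  rw [Algebra.algebraMap_eq_smul_one, Algebra.algebraMap_eq_smul_one] at e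
  simp only [sub_mul, mul_add, smul_mul_assoc, one_mul, mul_smul_comm, mul_one, smul_sub,
    smul_smul, inv_mul_cancel₀ hq, one_smul] at e
  rw [← sub_eq_zero]
  rw [← e]
  module

theorem Rules.mul_gt (h : Rules q T) (hq : q ≠ 0) {i : ℕ} (hi : 1 ≤ i ∧ i < n) {σ : Perm (Fin n)}
    (hl : len (adj n i * σ) < len σ) :
    T (adj n i) * T σ = T (adj n i * σ) + (q - q⁻¹) • T σ := by
  have e := h.mul_lt i hi.1 hi.2 (adj n i * σ) (by rw [adj_mul_adj_mul]; exact hl)
  rw [adj_mul_adj_mul] at e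
  conv_lhs => rw [← e, ← mul_assoc, h.sq hq hi]
  rw [add_mul, one_mul, smul_mul_assoc, e]

/-- induction on the length -/
theorem len_induction {P : Perm (Fin n) → Prop} (h1 : P 1)
    (hs : ∀ i, 1 ≤ i → i < n → ∀ σ, len σ < len (adj n i * σ) → P σ → P (adj n i * σ)) :
    ∀ σ, P σ := by
  intro σ
  induction hl : len σ using Nat.strong_induction_on generalizing σ with
  | _ l ih =>
    by_cases hσ : σ = 1
    · rw [hσ]; exact h1
    · obtain ⟨i, hi, hd⟩ := exists_descent hσ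
      have h2 := len_adj_mul_of_gt hi hd
      have h3 := ih (len (adj n i * σ)) (by omega) (adj n i * σ) rfl
      have h4 := hs i hi.1 hi.2 (adj n i * σ) (by rw [adj_mul_adj_mul]; omega) h3
      rwa [adj_mul_adj_mul] at h4

theorem Rules.mul_right_lt (h : Rules q T) {j : ℕ} (hj : 1 ≤ j ∧ j < n) :
    ∀ σ : Perm (Fin n), len σ < len (σ * adj n j) → T σ * T (adj n j) = T (σ * adj n j) := by
  refine len_induction ?_ ?_
  · intro _
    rw [h.one, one_mul, one_mul]
  · intro i hi1 hi2 σ hlt ih hl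
    have a1 := len_adj_mul_cases ⟨hi1, hi2⟩ σ
    have a2 := len_mul_adj_cases hj (adj n i * σ)
    have a3 := len_adj_mul_cases ⟨hi1, hi2⟩ (σ * adj n j)
    have a4 := len_mul_adj_cases hj σ
    rw [← mul_assoc] at a3
    have e1 : len σ < len (σ * adj n j) := by omega
    rw [← h.mul_lt i hi1 hi2 σ hlt, mul_assoc, ih e1, mul_assoc]
    apply h.mul_lt i hi1 hi2
    rw [← mul_assoc]
    omega

theorem Rules.mul_right_gt (h : Rules q T) (hq : q ≠ 0) {i : ℕ} (hi : 1 ≤ i ∧ i < n)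
    {σ : Perm (Fin n)} (hl : len (σ * adj n i) < len σ) :
    T σ * T (adj n i) = T (σ * adj n i) + (q - q⁻¹) • T σ := by
  have e := h.mul_right_lt hi (σ * adj n i) (by rw [mul_adj_mul_adj]; exact hl)
  rw [mul_adj_mul_adj] at e
  conv_lhs => rw [← e, mul_assoc, h.sq hq hi]
  rw [mul_add, mul_one, mul_smul_comm, e]

/-! ### weighted sums over subgroups -/

open Classical in
/-- `Σ_{σ ∈ S} ω^{ℓ(σ)} T_σ` -/
noncomputable def wsum (T : Perm (Fin n) → H) (ω : K) (S : Subgroup (Perm (Fin n))) : H :=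
  ∑ σ ∈ univ.filter (· ∈ S), ω ^ len σ • T σ

theorem adj_mul_ne (i : ℕ) (hi : 1 ≤ i ∧ i < n) (σ : Perm (Fin n)) : adj n i * σ ≠ σ := by
  intro h
  rcases len_adj_mul_cases hi σ with h1 | h1 <;> rw [h] at h1 <;> omega

theorem mul_adj_ne (i : ℕ) (hi : 1 ≤ i ∧ i < n) (σ : Perm (Fin n)) : σ * adj n i ≠ σ := by
  intro h
  rcases len_mul_adj_cases hi σ with h1 | h1 <;> rw [h] at h1 <;> omega

theorem Rules.mul_wsum (h : Rules q T) (hq : q ≠ 0) {ω : K} (hω : ω * ω = 1 + (q - q⁻¹) * ω)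
    {S : Subgroup (Perm (Fin n))} {i : ℕ} (hi : 1 ≤ i ∧ i < n) (hS : adj n i ∈ S) :
    T (adj n i) * wsum T ω S = ω • wsum T ω S := by
  classical
  rw [← sub_eq_zero]
  unfold wsum
  rw [mul_sum, smul_sum, ← sum_sub_distrib]
  refine sum_involution (fun σ _ => adj n i * σ) ?_ ?_ ?_ ?_
  · intro σ _
    have key : ∀ τ : Perm (Fin n), len τ < len (adj n i * τ) →
        (T (adj n i) * ω ^ len τ • T τ - ω • ω ^ len τ • T τ) +
        (T (adj n i) * ω ^ len (adj n i * τ) • T (adj n i * τ) -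
          ω • ω ^ len (adj n i * τ) • T (adj n i * τ)) = 0 := by
      intro τ hτ
      have hl : len (adj n i * τ) = len τ + 1 := by
        rcases len_adj_mul_cases hi τ with h1 | h1 <;> omega
      have e1 := h.mul_lt i hi.1 hi.2 τ hτ
      have e2 := h.mul_gt hq hi (σ := adj n i * τ) (by rw [adj_mul_adj_mul]; exact hτ)
      rw [adj_mul_adj_mul] at e2
      rw [mul_smul_comm, mul_smul_comm, e1, e2, hl]
      have e3 : ω ^ (len τ + 1) = ω ^ len τ * ω := pow_succ _ _
      have e4 : ω ^ len τ * ω * (q - q⁻¹) - ω * (ω ^ len τ * ω) + ω ^ len τ = 0 := by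
        linear_combination (-ω ^ len τ) * hω
      rw [e3]
      have e5 : (ω ^ len τ • T (adj n i * τ) - ω • ω ^ len τ • T τ +
          ((ω ^ len τ * ω) • (T τ + (q - q⁻¹) • T (adj n i * τ)) -
            ω • (ω ^ len τ * ω) • T (adj n i * τ))) =
          (ω ^ len τ * ω * (q - q⁻¹) - ω * (ω ^ len τ * ω) + ω ^ len τ) • T (adj n i * τ) := by
        module
      rw [e5, e4, zero_smul]
    rcases len_adj_mul_cases hi σ with h1 | h1
    · exact key σ (by omega)
    · have := key (adj n i * σ) (by rw [adj_mul_adj_mul]; omega)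
      rw [adj_mul_adj_mul] at this
      rw [add_comm]; exact this
  · intro σ _ _
    exact adj_mul_ne i hi σ
  · intro σ hσ
    rw [mem_filter] at hσ ⊢
    exact ⟨mem_univ _, S.mul_mem hS hσ.2⟩
  · intro σ _
    exact adj_mul_adj_mul i σ

theorem Rules.wsum_mul (h : Rules q T) (hq : q ≠ 0) {ω : K} (hω : ω * ω = 1 + (q - q⁻¹) * ω)
    {S : Subgroup (Perm (Fin n))} {i : ℕ} (hi : 1 ≤ i ∧ i < n) (hS : adj n i ∈ S) :
    wsum T ω S * T (adj n i) = ω • wsum T ω S := by
  classical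
  rw [← sub_eq_zero]
  unfold wsum
  rw [sum_mul, smul_sum, ← sum_sub_distrib]
  refine sum_involution (fun σ _ => σ * adj n i) ?_ ?_ ?_ ?_
  · intro σ _
    have key : ∀ τ : Perm (Fin n), len τ < len (τ * adj n i) →
        (ω ^ len τ • T τ * T (adj n i) - ω • ω ^ len τ • T τ) +
        (ω ^ len (τ * adj n i) • T (τ * adj n i) * T (adj n i) -
          ω • ω ^ len (τ * adj n i) • T (τ * adj n i)) = 0 := by
      intro τ hτ
      have hl : len (τ * adj n i) = len τ + 1 := by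
        rcases len_mul_adj_cases hi τ with h1 | h1 <;> omega
      have e1 := h.mul_right_lt hi τ hτ
      have e2 := h.mul_right_gt hq hi (σ := τ * adj n i) (by rw [mul_adj_mul_adj]; exact hτ)
      rw [mul_adj_mul_adj] at e2
      rw [smul_mul_assoc, smul_mul_assoc, e1, e2, hl]
      have e3 : ω ^ (len τ + 1) = ω ^ len τ * ω := pow_succ _ _
      have e4 : ω ^ len τ * ω * (q - q⁻¹) - ω * (ω ^ len τ * ω) + ω ^ len τ = 0 := by
        linear_combination (-ω ^ len τ) * hω
      rw [e3]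
      have e5 : (ω ^ len τ • T (τ * adj n i) - ω • ω ^ len τ • T τ +
          ((ω ^ len τ * ω) • (T τ + (q - q⁻¹) • T (τ * adj n i)) -
            ω • (ω ^ len τ * ω) • T (τ * adj n i))) =
          (ω ^ len τ * ω * (q - q⁻¹) - ω * (ω ^ len τ * ω) + ω ^ len τ) • T (τ * adj n i) := by
        module
      rw [e5, e4, zero_smul]
    rcases len_mul_adj_cases hi σ with h1 | h1
    · exact key σ (by omega)
    · have := key (σ * adj n i) (by rw [mul_adj_mul_adj]; omega)
      rw [mul_adj_mul_adj] at this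
      rw [add_comm]; exact this
  · intro σ _ _
    exact mul_adj_ne i hi σ
  · intro σ hσ
    rw [mem_filter] at hσ ⊢
    exact ⟨mem_univ _, S.mul_mem hσ.2 hS⟩
  · intro σ _
    exact mul_adj_mul_adj i σ

/-! ### the relative norm -/

/-- `d` is increasing on `{0, …, N}` and on `{N + 1, …, n - 1}` -/
def IsD (N : ℕ) (d : Perm (Fin n)) : Prop :=
  ∀ a b : Fin n, a < b → (b.val ≤ N ∨ N < a.val) → d a < d b

open Classical in
/-- `Σ_d T_d A T_{d⁻¹}` over the minimal coset representatives -/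
noncomputable def Nrm (T : Perm (Fin n) → H) (N : ℕ) (A : H) : H :=
  ∑ d ∈ univ.filter (IsD N : Perm (Fin n) → Prop), T d * A * T d⁻¹

/-- both letters come from the same side -/
theorem IsD.same {N : ℕ} {d : Perm (Fin n)} (hd : IsD N d) {i : ℕ} (hi : 1 ≤ i ∧ i < n)
    (hs : (d⁻¹ (lo hi)).val ≤ N ↔ (d⁻¹ (up hi)).val ≤ N) :
    ∃ j, ∃ hj : 1 ≤ j ∧ j < n, j ≠ N + 1 ∧ d (lo hj) = lo hi ∧ d (up hj) = up hi ∧
      d⁻¹ (lo hi) < d⁻¹ (up hi) := by
  set x := d⁻¹ (lo hi) with hx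
  set y := d⁻¹ (up hi) with hy
  have dx : d x = lo hi := papp _ _
  have dy : d y = up hi := papp _ _
  have hxy : x < y := by
    rcases lt_trichotomy x y with h1 | h1 | h1
    · exact h1
    · rw [h1, dy] at dx
      exact absurd dx (ne_of_gt (lo_lt_up hi))
    · have := hd y x h1 (by
        by_cases h2 : x.val ≤ N
        · exact Or.inl h2
        · exact Or.inr (not_le.1 (fun h3 => h2 (hs.2 h3))))
      rw [dx, dy] at this
      exact absurd this (not_lt.2 (lo_lt_up hi).le)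
  have hadj : y.val = x.val + 1 := by
    by_contra hc
    rw [Fin.lt_def] at hxy
    have hzn : x.val + 1 < n := by have := y.2; omega
    have h1 := hd x ⟨x.val + 1, hzn⟩ (by rw [Fin.lt_def]; simp) (by
      by_cases h2 : x.val ≤ N
      · left; have := hs.1 h2; simp only; omega
      · right; omega)
    have h2 := hd ⟨x.val + 1, hzn⟩ y (by rw [Fin.lt_def]; simp only; omega) (by
      by_cases h2 : y.val ≤ N
      · left; exact h2
      · right; have h3 : ¬ x.val ≤ N := fun h => h2 (hs.1 h)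
        simp only; omega)
    rw [dx] at h1
    rw [dy] at h2
    simp only [Fin.lt_def, lo, up] at h1 h2
    omega
  refine ⟨y.val, ⟨by omega, y.2⟩, ?_, ?_, ?_, hxy⟩
  · intro h
    have h1 : x.val ≤ N := by omega
    have h2 := hs.1 h1
    omega
  · rw [← dx]; congr 1
    apply Fin.ext
    simp only [lo]; omega
  · rw [← dy]; rfl

theorem adj_mul_eq_mul_adj {d : Perm (Fin n)} {i j : ℕ} {hi : 1 ≤ i ∧ i < n} {hj : 1 ≤ j ∧ j < n}
    (h1 : d (lo hj) = lo hi) (h2 : d (up hj) = up hi) : adj n i * d = d * adj n j := by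
  rw [adj_eq hi, adj_eq hj, ← h1, ← h2]
  exact (mul_swap_eq_swap_mul d (lo hj) (up hj)).symm

theorem IsD.diff {N : ℕ} {d : Perm (Fin n)} (hd : IsD N d) {i : ℕ} (hi : 1 ≤ i ∧ i < n)
    (hs : ¬ ((d⁻¹ (lo hi)).val ≤ N ↔ (d⁻¹ (up hi)).val ≤ N)) : IsD N (adj n i * d) := by
  intro a b hab hside
  rw [Perm.mul_apply, Perm.mul_apply]
  have hne : d a ≠ d b := fun e => absurd (d.injective e) (ne_of_lt hab)
  rw [swap_lt_iff hi hne]
  · exact hd a b hab hside
  · rintro ⟨e1, e2⟩
    apply hs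
    rw [← e1, ← e2, pinv, pinv]
    rw [Fin.lt_def] at hab
    omega
  · rintro ⟨e1, e2⟩
    apply hs
    rw [← e1, ← e2, pinv, pinv]
    rw [Fin.lt_def] at hab
    omega

theorem not_isD_adj {N : ℕ} {d : Perm (Fin n)} (hd : IsD N d) {i : ℕ} (hi : 1 ≤ i ∧ i < n)
    (hs : (d⁻¹ (lo hi)).val ≤ N ↔ (d⁻¹ (up hi)).val ≤ N) : ¬ IsD N (adj n i * d) := by
  intro hD
  obtain ⟨j, hj, -, h1, h2, h3⟩ := hd.same hi hs
  have h4 := hD (d⁻¹ (lo hi)) (d⁻¹ (up hi)) h3 (by
    by_cases h5 : (d⁻¹ (up hi)).val ≤ N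
    · exact Or.inl h5
    · exact Or.inr (not_le.1 (fun h => h5 (hs.1 h))))
  rw [Perm.mul_apply, Perm.mul_apply, papp, papp, adj_lo, adj_up] at h4
  exact absurd h4 (not_lt.2 (lo_lt_up hi).le)

theorem Rules.nrm_comm (h : Rules q T) (hq : q ≠ 0) {N : ℕ} {A : H}
    (hA : ∀ j, 1 ≤ j → j < n → j ≠ N + 1 → T (adj n j) * A = A * T (adj n j))
    {i : ℕ} (hi : 1 ≤ i ∧ i < n) :
    T (adj n i) * Nrm T N A = Nrm T N A * T (adj n i) := by
  classical
  rw [← sub_eq_zero]
  unfold Nrm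
  rw [mul_sum, sum_mul, ← sum_sub_distrib]
  have hsame : ∀ d : Perm (Fin n), IsD N d →
      ((d⁻¹ (lo hi)).val ≤ N ↔ (d⁻¹ (up hi)).val ≤ N) →
      T (adj n i) * (T d * A * T d⁻¹) - T d * A * T d⁻¹ * T (adj n i) = 0 := by
    intro d hd hs
    obtain ⟨j, hj, hjN, h1, h2, h3⟩ := hd.same hi hs
    have e := adj_mul_eq_mul_adj (hi := hi) (hj := hj) h1 h2
    have l1 : len d < len (adj n i * d) := (len_lt_adj_mul_iff hi).2 h3
    have l2 : len d < len (d * adj n j) := by rw [← e]; exact l1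
    have e' : d⁻¹ * adj n i = adj n j * d⁻¹ := by
      have := congrArg (fun x => x⁻¹) e
      simpa [mul_inv_rev, adj_inv] using this
    have l3 : len d⁻¹ < len (adj n j * d⁻¹) := by
      rw [len_inv, ← len_mul_adj]; exact l2
    have l4 : len d⁻¹ < len (d⁻¹ * adj n i) := by rw [e']; exact l3
    have r1 : T (adj n i) * T d = T d * T (adj n j) := by
      rw [h.mul_lt i hi.1 hi.2 d l1, h.mul_right_lt hj d l2, e]
    have r2 : T d⁻¹ * T (adj n i) = T (adj n j) * T d⁻¹ := by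
      rw [h.mul_lt j hj.1 hj.2 d⁻¹ l3, h.mul_right_lt hi d⁻¹ l4, e']
    rw [sub_eq_zero]
    calc T (adj n i) * (T d * A * T d⁻¹) = (T (adj n i) * T d) * A * T d⁻¹ := by
          simp only [mul_assoc]
      _ = T d * (T (adj n j) * A) * T d⁻¹ := by rw [r1]; simp only [mul_assoc]
      _ = T d * A * (T (adj n j) * T d⁻¹) := by
          rw [hA j hj.1 hj.2 hjN]; simp only [mul_assoc]
      _ = T d * A * T d⁻¹ * T (adj n i) := by rw [← r2]; simp only [mul_assoc]
  have hdiff : ∀ d : Perm (Fin n), len d < len (adj n i * d) →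
      (T (adj n i) * (T d * A * T d⁻¹) - T d * A * T d⁻¹ * T (adj n i)) +
      (T (adj n i) * (T (adj n i * d) * A * T (adj n i * d)⁻¹) -
        T (adj n i * d) * A * T (adj n i * d)⁻¹ * T (adj n i)) = 0 := by
    intro d l1
    have l3 : len d⁻¹ < len (d⁻¹ * adj n i) := by
      rw [len_mul_adj, inv_inv, len_inv]; exact l1
    have e1 := h.mul_lt i hi.1 hi.2 d l1
    have e2 := h.mul_right_lt hi d⁻¹ l3
    have e3 : (adj n i * d)⁻¹ = d⁻¹ * adj n i := by rw [mul_inv_rev, adj_inv]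
    rw [e3, ← e1, ← e2]
    have hs := h.sq hq hi
    generalize T (adj n i) = g at hs
    generalize T d = X
    generalize T d⁻¹ = Y
    have c1 : g * (g * X * A * (Y * g)) = (1 + (q - q⁻¹) • g) * X * A * Y * g := by
      rw [← hs]; simp only [mul_assoc]
    have c2 : g * X * A * (Y * g) * g = g * X * A * Y * (1 + (q - q⁻¹) • g) := by
      rw [← hs]; simp only [mul_assoc]
    rw [c1, c2]
    simp only [add_mul, mul_add, one_mul, mul_one, smul_mul_assoc, mul_smul_comm, mul_assoc]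
    abel
  refine sum_involution (fun d _ => if IsD N (adj n i * d) then adj n i * d else d) ?_ ?_ ?_ ?_
  · intro d hd
    rw [mem_filter] at hd
    by_cases hs : (d⁻¹ (lo hi)).val ≤ N ↔ (d⁻¹ (up hi)).val ≤ N
    · rw [if_neg (not_isD_adj hd.2 hi hs), hsame d hd.2 hs, add_zero]
    · rw [if_pos (hd.2.diff hi hs)]
      rcases len_adj_mul_cases hi d with l1 | l1
      · exact hdiff d (by omega)
      · have := hdiff (adj n i * d) (by rw [adj_mul_adj_mul]; omega)
        rw [adj_mul_adj_mul] at this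
        rw [add_comm]; exact this
  · intro d hd hne
    rw [mem_filter] at hd
    by_cases hs : (d⁻¹ (lo hi)).val ≤ N ↔ (d⁻¹ (up hi)).val ≤ N
    · exact absurd (hsame d hd.2 hs) hne
    · rw [if_pos (hd.2.diff hi hs)]
      exact adj_mul_ne i hi d
  · intro d hd
    rw [mem_filter] at hd ⊢
    refine ⟨mem_univ _, ?_⟩
    split_ifs with h1
    · exact h1
    · exact hd.2
  · intro d hd
    rw [mem_filter] at hd
    by_cases h1 : IsD N (adj n i * d)
    · simp only [if_pos h1, adj_mul_adj_mul, if_pos hd.2]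
    · simp only [if_neg h1]

end Pool.Agent.R715.HeckeA
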