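import Pool.Agent.R715.HeckeCentral

set_option autoImplicit false

/-!
# Reduced words, Matsumoto's theorem for symmetric groups, and the element `γ_μ`
-/

namespace Pool.Agent.R715.HeckeA

open Equiv Finset

variable {n : ℕ}

/-- `w` is a word in the simple transpositions with product `σ` -/
def IsWord (n : ℕ) (w : List ℕ) (σ : Perm (Fin n)) : Prop :=
  (∀ i ∈ w, 1 ≤ i ∧ i < n) ∧ (w.map (adj n)).prod = σ

/-- reduced words -/
def Red (n : ℕ) (w : List ℕ) (σ : Perm (Fin n)) : Prop :=
  IsWord n w σ ∧ w.length = len σ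

theorem IsWord.len_le {w : List ℕ} : ∀ {σ : Perm (Fin n)}, IsWord n w σ → len σ ≤ w.length := by
  induction w with
  | nil =>
    intro σ h
    have := h.2
    simp only [List.map_nil, List.prod_nil] at this
    rw [← this, len_one]
    exact Nat.zero_le _
  | cons i w ih =>
    intro σ h
    have h1 : IsWord n w ((w.map (adj n)).prod) :=
      ⟨fun j hj => h.1 j (List.mem_cons_of_mem _ hj), rfl⟩
    have h2 := ih h1
    have h3 := h.2
    rw [List.map_cons, List.prod_cons] at h3
    have h4 := len_adj_mul_cases (h.1 i (List.mem_cons_self)) ((w.map (adj n)).prod)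
    rw [h3] at h4
    rw [List.length_cons]
    omega

theorem exists_red (σ : Perm (Fin n)) : ∃ w, Red n w σ := by
  revert σ
  refine len_induction ?_ ?_
  · exact ⟨[], ⟨by simp, by simp⟩, by rw [len_one]; rfl⟩
  · intro i hi1 hi2 σ hl ⟨w, hw, hw2⟩
    refine ⟨i :: w, ⟨?_, ?_⟩, ?_⟩
    · intro j hj
      rcases List.mem_cons.1 hj with rfl | hj
      · exact ⟨hi1, hi2⟩
      · exact hw.1 j hj
    · rw [List.map_cons, List.prod_cons, hw.2]
    · rw [List.length_cons, hw2]
      rcases len_adj_mul_cases ⟨hi1, hi2⟩ σ with h1 | h1 <;> omega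

/-- The length is the smallest length of a word. -/
theorem isLeast_len (σ : Perm (Fin n)) :
    IsLeast {k | ∃ w, IsWord n w σ ∧ w.length = k} (len σ) := by
  constructor
  · obtain ⟨w, hw, hw2⟩ := exists_red σ
    exact ⟨w, hw, hw2⟩
  · rintro k ⟨w, hw, rfl⟩
    exact hw.len_le

theorem Red.cons {w : List ℕ} {σ : Perm (Fin n)} (h : Red n w σ) {i : ℕ} (hi : 1 ≤ i ∧ i < n)
    (hl : len (adj n i * σ) = len σ + 1) : Red n (i :: w) (adj n i * σ) := by
  refine ⟨⟨?_, ?_⟩, ?_⟩
  · intro j hj
    rcases List.mem_cons.1 hj with rfl | hj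
    · exact hi
    · exact h.1.1 j hj
  · rw [List.map_cons, List.prod_cons, h.1.2]
  · rw [List.length_cons, h.2, hl]

theorem Red.tail {w : List ℕ} {σ : Perm (Fin n)} {i : ℕ} (h : Red n (i :: w) σ) :
    (1 ≤ i ∧ i < n) ∧ Red n w (adj n i * σ) ∧ len σ = len (adj n i * σ) + 1 := by
  have hi := h.1.1 i (List.mem_cons_self)
  have h3 := h.1.2
  rw [List.map_cons, List.prod_cons] at h3
  have h4 : (w.map (adj n)).prod = adj n i * σ := by rw [← h3, adj_mul_adj_mul]
  have h5 : IsWord n w (adj n i * σ) := ⟨fun j hj => h.1.1 j (List.mem_cons_of_mem _ hj), h4⟩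
  have h6 := h5.len_le
  have h7 := h.2
  rw [List.length_cons] at h7
  rcases len_adj_mul_cases hi σ with h8 | h8
  · omega
  · exact ⟨hi, ⟨h5, by omega⟩, h8⟩

theorem adj_apply {i : ℕ} (hi : 1 ≤ i ∧ i < n) (x : Fin n) :
    ((adj n i x).val = if x.val = i - 1 then i else if x.val = i then i - 1 else x.val) := by
  rw [adj_eq hi, swap_apply_def]
  simp only [Fin.ext_iff, lo, up]
  split_ifs <;> rfl

theorem adj_braid {i : ℕ} (hi : 1 ≤ i) (hi2 : i + 1 < n) :
    adj n i * adj n (i + 1) * adj n i = adj n (i + 1) * adj n i * adj n (i + 1) := by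
  ext x
  simp only [Perm.mul_apply]
  rw [adj_apply ⟨hi, by omega⟩, adj_apply ⟨by omega, hi2⟩, adj_apply ⟨hi, by omega⟩,
    adj_apply ⟨by omega, hi2⟩, adj_apply ⟨hi, by omega⟩, adj_apply ⟨by omega, hi2⟩]
  split_ifs <;> omega

theorem adj_comm {i j : ℕ} (hi : 1 ≤ i) (hij : i + 1 < j) (hj : j < n) :
    adj n i * adj n j = adj n j * adj n i := by
  ext x
  simp only [Perm.mul_apply]
  rw [adj_apply ⟨hi, by omega⟩, adj_apply ⟨by omega, hj⟩, adj_apply ⟨by omega, hj⟩,
    adj_apply ⟨hi, by omega⟩]
  split_ifs <;> omega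

/-- Matsumoto's theorem for the symmetric group. -/
theorem matsumoto {M : Type*} [Monoid M] {f : ℕ → M}
    (hb : ∀ i, 1 ≤ i → i + 1 < n → f i * f (i + 1) * f i = f (i + 1) * f i * f (i + 1))
    (hc : ∀ i j, 1 ≤ i → i + 1 < j → j < n → f i * f j = f j * f i) :
    ∀ (l : ℕ) (σ : Perm (Fin n)) (w w' : List ℕ), len σ = l → Red n w σ → Red n w' σ →
      (w.map f).prod = (w'.map f).prod := by
  intro l
  induction l using Nat.strong_induction_on with
  | _ l ih =>
  have main : ∀ (σ : Perm (Fin n)) (i j : ℕ) (u v : List ℕ), len σ = l → i < j →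
      Red n (i :: u) σ → Red n (j :: v) σ →
      (((i :: u).map f).prod = ((j :: v).map f).prod) := by
    intro σ i j u v hl hij h1 h2
    obtain ⟨hi, hu, li⟩ := h1.tail
    obtain ⟨hj, hv, lj⟩ := h2.tail
    have di := (adj_mul_len_lt_iff hi (σ := σ)).1 (by omega)
    have dj := (adj_mul_len_lt_iff hj (σ := σ)).1 (by omega)
    rw [List.map_cons, List.prod_cons, List.map_cons, List.prod_cons]
    by_cases hji : j = i + 1
    · subst hji
      have elo : lo hj = up hi := by apply Fin.ext; simp [lo, up]
      have e1 : adj n i (up hj) = up hj := by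
        apply Fin.ext; rw [adj_apply hi]; simp only [up]; split_ifs <;> omega
      have e2 : adj n (i + 1) (lo hi) = lo hi := by
        apply Fin.ext; rw [adj_apply hj]; simp only [lo]; split_ifs <;> omega
      have l1 : len (adj n i * σ) = len (adj n (i + 1) * (adj n i * σ)) + 1 := by
        apply len_adj_mul_of_gt hj
        rw [mul_inv_rev, adj_inv, Perm.mul_apply, Perm.mul_apply, e1, elo, adj_up]
        rw [elo] at dj
        exact dj.trans di
      have l2 : len (adj n (i + 1) * (adj n i * σ)) =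
          len (adj n i * (adj n (i + 1) * (adj n i * σ))) + 1 := by
        apply len_adj_mul_of_gt hi
        rw [mul_inv_rev, mul_inv_rev, adj_inv, adj_inv]
        simp only [Perm.mul_apply]
        rw [e2, ← elo, adj_lo, e1, adj_lo, ← elo]
        exact dj
      set τ := adj n i * (adj n (i + 1) * (adj n i * σ)) with hτ
      obtain ⟨t, ht⟩ := exists_red τ
      have a1 : adj n i * τ = adj n (i + 1) * (adj n i * σ) := by rw [hτ, adj_mul_adj_mul]
      have a2 : adj n (i + 1) * (adj n i * τ) = adj n i * σ := by rw [a1, adj_mul_adj_mul]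
      have hbr := adj_braid (n := n) hi.1 hj.2
      have a3 : adj n (i + 1) * τ = adj n i * (adj n (i + 1) * σ) := by
        have : τ = adj n (i + 1) * (adj n i * (adj n (i + 1) * σ)) := by
          rw [hτ]
          have := congrArg (fun x => x * σ) hbr
          simp only [mul_assoc] at this
          exact this
        rw [this, adj_mul_adj_mul]
      have a4 : adj n i * (adj n (i + 1) * τ) = adj n (i + 1) * σ := by
        rw [a3, adj_mul_adj_mul]
      have r1 : Red n (i :: t) (adj n i * τ) := ht.cons hi (by rw [a1]; exact l2)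
      have r2 : Red n ((i + 1) :: i :: t) (adj n i * σ) := by
        have := r1.cons hj (by rw [a2, a1]; exact l1)
        rwa [a2] at this
      have l3 := len_adj_mul_cases hj τ
      have l4 := len_adj_mul_cases hi (adj n (i + 1) * τ)
      rw [a4] at l4
      have r3 : Red n ((i + 1) :: t) (adj n (i + 1) * τ) := ht.cons hj (by omega)
      have r4 : Red n (i :: (i + 1) :: t) (adj n (i + 1) * σ) := by
        have := r3.cons hi (by rw [a4]; omega)
        rwa [a4] at this
      rw [ih (len (adj n i * σ)) (by omega) (adj n i * σ) u _ rfl hu r2,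
        ih (len (adj n (i + 1) * σ)) (by omega) (adj n (i + 1) * σ) v _ rfl hv r4]
      simp only [List.map_cons, List.prod_cons]
      rw [← mul_assoc, ← mul_assoc, hb i hi.1 hj.2, mul_assoc, mul_assoc]
    · have hij' : i + 1 < j := by omega
      have hcm := adj_comm (n := n) hi.1 hij' hj.2
      have e1 : adj n i (up hj) = up hj := by
        apply Fin.ext; rw [adj_apply hi]; simp only [up]; split_ifs <;> omega
      have e2 : adj n i (lo hj) = lo hj := by
        apply Fin.ext; rw [adj_apply hi]; simp only [lo]; split_ifs <;> omega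
      have l1 : len (adj n i * σ) = len (adj n j * (adj n i * σ)) + 1 := by
        apply len_adj_mul_of_gt hj
        rw [mul_inv_rev, adj_inv, Perm.mul_apply, Perm.mul_apply, e1, e2]
        exact dj
      set τ := adj n j * (adj n i * σ) with hτ
      obtain ⟨t, ht⟩ := exists_red τ
      have a1 : adj n j * τ = adj n i * σ := by rw [hτ, adj_mul_adj_mul]
      have a2 : adj n i * τ = adj n j * σ := by
        rw [hτ, ← mul_assoc, ← mul_assoc, hcm, mul_assoc (adj n j), adj_sq, mul_one]
      have r1 : Red n (j :: t) (adj n i * σ) := by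
        have := ht.cons hj (by rw [a1]; exact l1)
        rwa [a1] at this
      have r2 : Red n (i :: t) (adj n j * σ) := by
        have := ht.cons hi (by rw [a2]; omega)
        rwa [a2] at this
      rw [ih (len (adj n i * σ)) (by omega) (adj n i * σ) u _ rfl hu r1,
        ih (len (adj n j * σ)) (by omega) (adj n j * σ) v _ rfl hv r2]
      simp only [List.map_cons, List.prod_cons]
      rw [← mul_assoc, ← mul_assoc, hc i j hi.1 hij' hj.2]
  intro σ w w' hl h1 h2
  rcases w with _ | ⟨i, u⟩
  · have := h1.2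
    have := h2.2
    rcases w' with _ | ⟨j, v⟩
    · rfl
    · simp only [List.length_nil, List.length_cons] at *
      omega
  · rcases w' with _ | ⟨j, v⟩
    · have := h1.2
      have := h2.2
      simp only [List.length_nil, List.length_cons] at *
      omega
    · rcases lt_trichotomy i j with hij | hij | hij
      · exact main σ i j u v hl hij h1 h2
      · subst hij
        obtain ⟨hi, hu, li⟩ := h1.tail
        obtain ⟨_, hv, _⟩ := h2.tail
        rw [List.map_cons, List.prod_cons, List.map_cons, List.prod_cons,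
          ih (len (adj n i * σ)) (by omega) (adj n i * σ) u v rfl hu hv]
      · exact (main σ j i v u hl hij h2 h1).symm

theorem adj_red {i : ℕ} (hi : 1 ≤ i ∧ i < n) : Red n [i] (adj n i) := by
  refine ⟨⟨?_, ?_⟩, ?_⟩
  · intro j hj
    rw [List.mem_singleton] at hj
    rw [hj]; exact hi
  · simp
  · have h := len_adj_mul_cases hi (1 : Perm (Fin n))
    rw [len_one, mul_one] at h
    rw [List.length_singleton]
    omega

theorem one_red : Red n [] (1 : Perm (Fin n)) :=
  ⟨⟨by simp, by simp⟩, by rw [len_one]; rfl⟩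

variable {K : Type*} [Field K] {H : Type*} [Ring H] [Algebra K H]

/-- the rules hold for elements defined by reduced words -/
theorem rules_of_words {q : K} {f : ℕ → H} {T : Perm (Fin n) → H}
    (hquad : ∀ i, 1 ≤ i → i < n → (f i - algebraMap K H q) * (f i + algebraMap K H q⁻¹) = 0)
    (hT : ∀ (σ : Perm (Fin n)) (w : List ℕ), Red n w σ → T σ = (w.map f).prod) : Rules q T := by
  refine ⟨?_, ?_, ?_⟩
  · rw [hT 1 [] one_red]; simp
  · intro i hi1 hi2 σ hl
    obtain ⟨w, hw⟩ := exists_red σ
    have hl' : len (adj n i * σ) = len σ + 1 := by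
      rcases len_adj_mul_cases ⟨hi1, hi2⟩ σ with h1 | h1 <;> omega
    rw [hT _ _ (adj_red ⟨hi1, hi2⟩), hT σ w hw, hT _ _ (hw.cons ⟨hi1, hi2⟩ hl')]
    simp
  · intro i hi1 hi2
    rw [hT _ _ (adj_red ⟨hi1, hi2⟩)]
    simpa using hquad i hi1 hi2

/-! ### the element `γ` -/

variable {q : K} {T : Perm (Fin n) → H}

/-- `s_b s_{b-1} ⋯ s_{b-t+1}` -/
def cyc (n b t : ℕ) : Perm (Fin n) := ((List.range t).map (fun r => adj n (b - r))).prod

theorem cyc_succ (b t : ℕ) : cyc n b (t + 1) = cyc n b t * adj n (b - t) := by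
  unfold cyc
  rw [List.range_succ, List.map_append, List.prod_append]
  simp

theorem cyc_apply {b : ℕ} (hb : b < n) : ∀ t, t ≤ b → ∀ x : Fin n,
    (cyc n b t x).val =
      if x.val = b - t then b else if b - t < x.val ∧ x.val ≤ b then x.val - 1 else x.val := by
  intro t
  induction t with
  | zero =>
    intro _ x
    have : cyc n b 0 = 1 := by unfold cyc; simp
    rw [this]
    simp only [Perm.coe_one, id_eq]
    split_ifs <;> omega
  | succ t ih =>
    intro ht x
    rw [cyc_succ, Perm.mul_apply, ih (by omega), adj_apply (i := b - t) ⟨by omega, by omega⟩]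
    split_ifs <;> omega

theorem Rules.mul_cyc (h : Rules q T) {b a : ℕ} (hb : b < n) {w : Perm (Fin n)}
    (hw : ∀ x y : Fin n, a ≤ x.val → x < y → y.val ≤ b → w x < w y) :
    ∀ t, t ≤ b - a →
      T w * ((List.range t).map (fun r => T (adj n (b - r)))).prod = T (w * cyc n b t) := by
  intro t
  induction t with
  | zero =>
    intro _
    unfold cyc
    simp
  | succ t ih =>
    intro ht
    rw [List.range_succ, List.map_append, List.prod_append, ← mul_assoc, ih (by omega), cyc_succ]
    simp only [List.map_cons, List.map_nil, List.prod_cons, List.prod_nil, mul_one]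
    have hbt : 1 ≤ b - t ∧ b - t < n := ⟨by omega, by omega⟩
    rw [h.mul_right_lt hbt, mul_assoc]
    rw [len_lt_mul_adj_iff hbt, Perm.mul_apply, Perm.mul_apply]
    have e1 : cyc n b t (lo hbt) = lo hbt := by
      apply Fin.ext
      rw [cyc_apply hb t (by omega)]
      simp only [lo]
      split_ifs <;> omega
    have e2 : cyc n b t (up hbt) = ⟨b, hb⟩ := by
      apply Fin.ext
      rw [cyc_apply hb t (by omega)]
      simp only [up]
      split_ifs <;> omega
    rw [e1, e2]
    apply hw
    · simp only [lo]; omega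
    · rw [Fin.lt_def]; simp only [lo]; omega
    · simp only; omega

/-- `∏_{k=1}^{N} (f_{m_k} f_{m_k - 1} ⋯ f_{k+1})` -/
def gamProd {M : Type*} [Monoid M] (f : ℕ → M) (m : ℕ → ℕ) (N : ℕ) : M :=
  ((List.range' 1 N).map
    (fun k => ((List.range (m k - k)).map (fun r => f (m k - r))).prod)).prod

theorem gamProd_succ {M : Type*} [Monoid M] (f : ℕ → M) (m : ℕ → ℕ) (N : ℕ) :
    gamProd f m (N + 1) = gamProd f m N *
      ((List.range (m (N + 1) - (N + 1))).map (fun r => f (m (N + 1) - r))).prod := by
  unfold gamProd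
  rw [List.range'_1_concat, List.map_append, List.prod_append]
  simp [add_comm]

theorem Rules.gam_aux (h : Rules q T) {N : ℕ} {m : ℕ → ℕ} (g : Good n N m) :
    ∀ k, k ≤ N → ∃ w : Perm (Fin n),
      (∀ x : Fin n, x.val ≤ k → (w x).val = m x.val) ∧
      (∀ x y : Fin n, k < x.val → x < y → w x < w y) ∧
      (∀ x : Fin n, m k < x.val → w x = x) ∧
      gamProd (fun i => T (adj n i)) m k = T w := by
  intro k
  induction k with
  | zero =>
    intro _
    refine ⟨1, ?_, ?_, ?_, ?_⟩
    · intro x hx
      have : x.val = 0 := by omega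
      simp only [Perm.coe_one, id_eq]
      rw [this, g.zero]
    · intro x y _ hxy
      exact hxy
    · intro x _; rfl
    · rw [h.one]; rfl
  | succ k ih =>
    intro hk
    obtain ⟨w, h1, h2, h3, h4⟩ := ih (by omega)
    have hm := g.lt k (by omega)
    have hmN : m (k + 1) < n := lt_of_le_of_lt (g.mono hk (le_refl _)) g.last
    have hle := g.le hk
    have hc := cyc_apply (n := n) hmN (m (k + 1) - (k + 1)) (by omega)
    have hsub : m (k + 1) - (m (k + 1) - (k + 1)) = k + 1 := by omega
    rw [hsub] at hc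
    refine ⟨w * cyc n (m (k + 1)) (m (k + 1) - (k + 1)), ?_, ?_, ?_, ?_⟩
    · intro x hx
      rw [Perm.mul_apply]
      by_cases hx2 : x.val = k + 1
      · have e1 : cyc n (m (k + 1)) (m (k + 1) - (k + 1)) x = ⟨m (k + 1), hmN⟩ := by
          apply Fin.ext
          rw [hc, if_pos hx2]
        rw [e1, h3 _ (by simp only; omega), hx2]
      · have e1 : cyc n (m (k + 1)) (m (k + 1) - (k + 1)) x = x := by
          apply Fin.ext
          rw [hc, if_neg hx2, if_neg (by omega)]
        rw [e1, h1 x (by omega)]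
    · intro x y hx hxy
      rw [Perm.mul_apply, Perm.mul_apply]
      rw [Fin.lt_def] at hxy
      apply h2
      · rw [hc, if_neg (by omega)]
        split_ifs <;> omega
      · rw [Fin.lt_def, hc, hc]
        split_ifs <;> omega
    · intro x hx
      rw [Perm.mul_apply]
      have e1 : cyc n (m (k + 1)) (m (k + 1) - (k + 1)) x = x := by
        apply Fin.ext
        rw [hc, if_neg (by omega), if_neg (by omega)]
      rw [e1, h3 x (by omega)]
    · rw [gamProd_succ, h4]
      apply h.mul_cyc hmN (a := k + 1)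
      · intro x y hx hxy _
        exact h2 x y (by omega) hxy
      · omega

theorem Rules.exists_gam (h : Rules q T) {N : ℕ} {m : ℕ → ℕ} (g : Good n N m) :
    ∃ γ : Perm (Fin n), IsD N γ ∧ (∀ x : Fin n, x.val ≤ N → (γ x).val = m x.val) ∧
      gamProd (fun i => T (adj n i)) m N = T γ := by
  obtain ⟨w, h1, h2, h3, h4⟩ := h.gam_aux g N (le_refl N)
  refine ⟨w, ?_, h1, h4⟩
  intro a b hab hs
  rcases hs with hs | hs
  · rw [Fin.lt_def] at hab ⊢
    rw [h1 a (by omega), h1 b hs]
    exact g.smono hab hs
  · exact h2 a b hs hab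

/-! ### the antisymmetriser commutes with far away generators -/

theorem fix_of_mem {N : ℕ} {σ : Perm (Fin n)}
    (hσ : σ ∈ Subgroup.closure (adj n '' {i | 1 ≤ i ∧ i ≤ N})) :
    ∀ x : Fin n, N + 1 ≤ x.val → σ x = x := by
  induction hσ using Subgroup.closure_induction with
  | mem s hs =>
    obtain ⟨i, hi, rfl⟩ := hs
    intro x hx
    by_cases h : 1 ≤ i ∧ i < n
    · apply Fin.ext
      rw [adj_apply h]
      have := hi.2
      split_ifs <;> omega
    · unfold adj
      rw [dif_neg h]
      rfl
  | one => intro x _; rfl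
  | mul a b _ _ h1 h2 =>
    intro x hx
    rw [Perm.mul_apply, h2 x hx, h1 x hx]
  | inv a _ h1 =>
    intro x hx
    rw [Perm.inv_eq_iff_eq]
    exact (h1 x hx).symm

theorem Rules.wsum_comm (h : Rules q T) {N : ℕ} {ω : K} {j : ℕ} (hj : N + 2 ≤ j) (hjn : j < n) :
    T (adj n j) * wsum T ω (Subgroup.closure (adj n '' {i | 1 ≤ i ∧ i ≤ N})) =
      wsum T ω (Subgroup.closure (adj n '' {i | 1 ≤ i ∧ i ≤ N})) * T (adj n j) := by
  classical
  have hj' : 1 ≤ j ∧ j < n := ⟨by omega, hjn⟩
  unfold wsum
  rw [mul_sum, sum_mul]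
  refine sum_congr rfl ?_
  intro σ hσ
  rw [mem_filter] at hσ
  have hf := fix_of_mem hσ.2
  have e1 : σ (lo hj') = lo hj' := hf _ (by simp only [lo]; omega)
  have e2 : σ (up hj') = up hj' := hf _ (by simp only [up]; omega)
  have e3 := adj_mul_eq_mul_adj (hi := hj') (hj := hj') e1 e2
  have l1 : len σ < len (σ * adj n j) := by
    rw [len_lt_mul_adj_iff hj', e1, e2]
    exact lo_lt_up hj'
  rw [mul_smul_comm, smul_mul_assoc, h.mul_right_lt hj' σ l1,
    h.mul_lt j hj'.1 hj'.2 σ (by rw [e3]; exact l1), e3]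

end Pool.Agent.R715.HeckeA
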