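import Pool.Agent.R853.Obs.Stm
import Pool.Agent.H18R3.Refl

set_option autoImplicit false
set_option maxHeartbeats 400000

/-!
OB-U: a function which is holomorphic in the right half plane, continuous up to the boundary and
zero on a boundary interval is zero.
-/

open Filter Topology Complex Metric

namespace Pool.Agent.R715.OBU

theorem stU : Pool.Agent.R853.Obs.StU := by
  intro F t₁ t₂ ht hc hd hz c hcre
  set s : ℝ := (t₁ + t₂) / 2 with hs
  set a : ℝ := (t₂ - t₁) / 2 with ha
  have ha0 : 0 < a := by rw [ha]; linarith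
  set h : ℂ → ℂ := fun w => F (I * s - I * w) with hh
  have hre : ∀ w : ℂ, (I * s - I * w).re = w.im := by intro w; simp
  have hmap : Continuous fun w : ℂ => I * (s : ℂ) - I * w := by fun_prop
  have h1 : ContinuousOn h {ζ | ‖ζ‖ < a ∧ 0 ≤ ζ.im} := by
    apply hc.comp hmap.continuousOn
    intro ζ hζ
    show 0 ≤ (I * (s : ℂ) - I * ζ).re
    rw [hre]; exact hζ.2
  have h2 : DifferentiableOn ℂ h {ζ | ‖ζ‖ < a ∧ 0 < ζ.im} := by
    apply hd.comp (by fun_prop)
    intro ζ hζ
    show 0 < (I * (s : ℂ) - I * ζ).re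
    rw [hre]; exact hζ.2
  have h3 : ∀ x : ℝ, |x| < a → h x = 0 := by
    intro x hx
    rw [abs_lt] at hx
    have h4 := hz (s - x) (by rw [hs]; rw [ha] at hx; linarith [hx.2])
      (by rw [hs]; rw [ha] at hx; linarith [hx.1])
    rw [← h4]
    show F _ = F _
    congr 1
    push_cast; ring
  obtain ⟨H, hH, hHh⟩ := Pool.Agent.H18R3.refl h1 h2 (fun x hx => by rw [h3 x hx]; rfl)
  have hHa : AnalyticOnNhd ℂ H (ball 0 a) := hH.analyticOnNhd isOpen_ball
  have hH0 : Set.EqOn H 0 (ball 0 a) := by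
    apply hHa.eqOn_zero_of_preconnected_of_frequently_eq_zero
      (convex_ball (0 : ℂ) a).isPreconnected (mem_ball_self ha0)
    have h5 : ∀ᶠ x : ℝ in 𝓝[≠] (0 : ℝ), H (x : ℂ) = 0 := by
      have h6 : ∀ᶠ x : ℝ in 𝓝 (0 : ℝ), |x| < a := by
        have : Tendsto (fun x : ℝ => |x|) (𝓝 0) (𝓝 |0|) := continuous_abs.tendsto 0
        rw [abs_zero] at this
        exact this.eventually (gt_mem_nhds ha0)
      filter_upwards [h6.filter_mono nhdsWithin_le_nhds] with x hx
      rw [hHh x (by simpa using hx) (by simp), h3 x hx]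
    have h7 : Tendsto (fun x : ℝ => (x : ℂ)) (𝓝[≠] (0 : ℝ)) (𝓝[≠] (0 : ℂ)) := by
      apply tendsto_nhdsWithin_iff.2
      constructor
      · have : Tendsto (fun x : ℝ => (x : ℂ)) (𝓝 0) (𝓝 ((0 : ℝ) : ℂ)) :=
          Complex.continuous_ofReal.tendsto 0
        rw [Complex.ofReal_zero] at this
        exact this.mono_left nhdsWithin_le_nhds
      · filter_upwards [self_mem_nhdsWithin] with x hx
        simpa using hx
    exact h7.frequently h5.frequently
  have hFa : AnalyticOnNhd ℂ F {c : ℂ | 0 < c.re} :=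
    hd.analyticOnNhd (isOpen_lt continuous_const Complex.continuous_re)
  have hpre : IsPreconnected {c : ℂ | 0 < c.re} := (convex_halfSpace_re_gt 0).isPreconnected
  have hc0 : ((a / 2 : ℝ) + I * s : ℂ) ∈ {c : ℂ | 0 < c.re} := by
    show 0 < ((a / 2 : ℝ) + I * s : ℂ).re
    simp; exact ha0
  have hF0 : F =ᶠ[𝓝 ((a / 2 : ℝ) + I * s : ℂ)] 0 := by
    have h8 : ∀ᶠ c : ℂ in 𝓝 ((a / 2 : ℝ) + I * s : ℂ), ‖(s : ℂ) + I * c‖ < a := by
      apply (isOpen_lt (by fun_prop) continuous_const).mem_nhds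
      show ‖(s : ℂ) + I * ((a / 2 : ℝ) + I * s : ℂ)‖ < a
      have : (s : ℂ) + I * ((a / 2 : ℝ) + I * s : ℂ) = I * ((a / 2 : ℝ) : ℂ) := by
        linear_combination (s : ℂ) * Complex.I_mul_I
      rw [this, norm_mul, Complex.norm_I, one_mul, Complex.norm_real, Real.norm_eq_abs,
        abs_of_pos (by linarith)]
      linarith
    have h9 : ∀ᶠ c : ℂ in 𝓝 ((a / 2 : ℝ) + I * s : ℂ), 0 < c.re :=
      (isOpen_lt continuous_const Complex.continuous_re).mem_nhds hc0
    filter_upwards [h8, h9] with c hc1 hc2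
    have him : ((s : ℂ) + I * c).im = c.re := by simp
    have h10 : h ((s : ℂ) + I * c) = F c := by
      show F _ = F _
      congr 1
      linear_combination (-c) * Complex.I_mul_I
    rw [← h10, ← hHh _ hc1 (by rw [him]; exact hc2.le)]
    exact hH0 (by simpa using hc1)
  exact hFa.eqOn_zero_of_preconnected_of_eventuallyEq_zero hpre hc0 hF0 hcre

end Pool.Agent.R715.OBU
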