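import Pool.Agent.R715.OddPerm

set_option autoImplicit false
set_option maxHeartbeats 400000

/-!
# Symmetric functions of odd Jucys-Murphy elements preserve left invariance
-/

namespace Pool.Agent.R715.OddJM

open Equiv Finset

variable {n : ℕ}

/-- the group algebra -/
abbrev RR (n : ℕ) := MonoidAlgebra ℂ (Perm (Pt n))

/-- the group element as an element of the group algebra -/
noncomputable def o (g : Perm (Pt n)) : RR n := MonoidAlgebra.of ℂ (Perm (Pt n)) g

theorem o_mul (g h : Perm (Pt n)) : o (g * h) = o g * o h := map_mul _ _ _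

theorem o_one : o (1 : Perm (Pt n)) = 1 := map_one _

/-- `Σ_{x ∈ S} (x p)` -/
noncomputable def star (S : Finset (Pt n)) (p : Pt n) : RR n := ∑ x ∈ S, o (swap x p)

theorem star_conj (π : Perm (Pt n)) (S : Finset (Pt n)) (p : Pt n) :
    o π * star S p = star (S.map π.toEmbedding) (π p) * o π := by
  unfold star
  rw [mul_sum, sum_mul, sum_map]
  refine sum_congr rfl ?_
  intro x _
  rw [← o_mul, ← o_mul, mul_swap_eq_swap_mul]
  rfl

/-- the letters in the pairs before the pair `k` -/
def below (k : Fin n) : Finset (Pt n) := univ.filter (fun x => x.1 < k)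

theorem mem_below {k : Fin n} {x : Pt n} : x ∈ below k ↔ x.1 < k := by simp [below]

theorem map_below {k : Fin n} {π : Perm (Pt n)} (h : ∀ x : Pt n, x.1 < k → (π x).1 < k) :
    (below k).map π.toEmbedding = below k := by
  apply eq_of_subset_of_card_le
  · intro z hz
    rw [mem_map] at hz
    obtain ⟨y, hy, rfl⟩ := hz
    rw [mem_below] at hy ⊢
    exact h y hy
  · rw [card_map]

/-- the odd Jucys-Murphy element `J_{2k+1}` for the pair `k = 0, …, n - 1` -/
noncomputable def JJ (k : Fin n) : RR n := star (below k) (k, false)

theorem JJ_comm_of {k : Fin n} {π : Perm (Pt n)} (h : ∀ x : Pt n, x.1 < k → (π x).1 < k)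
    (hk : π (k, false) = (k, false)) : o π * JJ k = JJ k * o π := by
  unfold JJ
  rw [star_conj, map_below h, hk]

theorem JJ_comm_lt {i j : Fin n} (hij : i < j) : JJ i * JJ j = JJ j * JJ i := by
  have e : JJ i = ∑ x ∈ below i, o (swap x (i, false)) := rfl
  have hx2 : ∀ x ∈ below i, o (swap x (i, false)) * JJ j = JJ j * o (swap x (i, false)) := by
    intro x hx
    rw [mem_below] at hx
    have hxj : x.1 < j := hx.trans hij
    apply JJ_comm_of
    · intro z hz
      rw [swap_apply_def]
      split_ifs
      · exact hij
      · exact hxj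
      · exact hz
    · apply swap_apply_of_ne_of_ne
      · intro h
        rw [← h] at hxj
        exact absurd hxj (lt_irrefl _)
      · intro h
        have : j = i := congrArg Prod.fst h
        rw [this] at hij
        exact absurd hij (lt_irrefl _)
  rw [e, sum_mul, mul_sum]
  exact sum_congr rfl hx2

theorem JJ_comm (i j : Fin n) : JJ i * JJ j = JJ j * JJ i := by
  rcases lt_trichotomy i j with h | h | h
  · exact JJ_comm_lt h
  · rw [h]
  · exact (JJ_comm_lt h).symm

/-! ### evaluation of polynomials -/

/-- `Π_j J_j^{m_j}` -/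
noncomputable def mon (l : List (Fin n)) (m : Fin n →₀ ℕ) : RR n :=
  (l.map (fun j => JJ j ^ m j)).prod

theorem mon_cons (l : List (Fin n)) (j : Fin n) (m : Fin n →₀ ℕ) :
    mon (j :: l) m = JJ j ^ m j * mon l m := by
  unfold mon; simp

theorem mon_comm (l : List (Fin n)) (m : Fin n →₀ ℕ) (j : Fin n) (k : ℕ) :
    Commute (JJ j ^ k) (mon l m) := by
  induction l with
  | nil => exact Commute.one_right _
  | cons i l ih =>
    rw [mon_cons]
    apply Commute.mul_right _ ih
    apply Commute.pow_pow
    exact JJ_comm j i

theorem mon_add (l : List (Fin n)) (m m' : Fin n →₀ ℕ) :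
    mon l (m + m') = mon l m * mon l m' := by
  induction l with
  | nil => simp [mon]
  | cons i l ih =>
    rw [mon_cons, mon_cons, mon_cons, ih, Finsupp.add_apply, pow_add]
    have := (mon_comm l m i (m' i)).eq
    calc JJ i ^ m i * JJ i ^ m' i * (mon l m * mon l m')
        = JJ i ^ m i * (JJ i ^ m' i * mon l m) * mon l m' := by simp only [mul_assoc]
      _ = JJ i ^ m i * mon l m * (JJ i ^ m' i * mon l m') := by
          rw [this]; simp only [mul_assoc]

theorem mon_zero (l : List (Fin n)) : mon l 0 = 1 := by
  unfold mon
  simp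

theorem mon_single_of_notMem {l : List (Fin n)} {j : Fin n} (h : j ∉ l) :
    mon l (Finsupp.single j 1) = 1 := by
  induction l with
  | nil => rfl
  | cons i l ih =>
    rw [List.mem_cons, not_or] at h
    rw [mon_cons, ih h.2, Finsupp.single_apply, if_neg h.1, pow_zero, mul_one]

theorem mon_single {l : List (Fin n)} {j : Fin n} (hl : l.Nodup) (h : j ∈ l) :
    mon l (Finsupp.single j 1) = JJ j := by
  induction l with
  | nil => simp at h
  | cons i l ih =>
    rw [List.nodup_cons] at hl
    by_cases hji : j = i
    · subst hji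
      rw [mon_cons, mon_single_of_notMem hl.1, Finsupp.single_eq_same, pow_one, mul_one]
    · have h2 : j ∈ l := by
        rcases List.mem_cons.1 h with h2 | h2
        · exact absurd h2 hji
        · exact h2
      rw [mon_cons, ih hl.2 h2, Finsupp.single_apply, if_neg hji, pow_zero, one_mul]

/-- the multiplicative map on exponents -/
noncomputable def monHom (n : ℕ) : Multiplicative (Fin n →₀ ℕ) →* RR n where
  toFun m := mon (List.finRange n) m.toAdd
  map_one' := mon_zero _
  map_mul' a b := mon_add _ _ _

/-- evaluation at the odd Jucys-Murphy elements -/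
noncomputable def ev (n : ℕ) : MvPolynomial (Fin n) ℂ →ₐ[ℂ] RR n :=
  AddMonoidAlgebra.lift ℂ (RR n) (Fin n →₀ ℕ) (monHom n)

theorem ev_X (j : Fin n) : ev n (MvPolynomial.X j) = JJ j := by
  have h : (MvPolynomial.X j : MvPolynomial (Fin n) ℂ) =
      AddMonoidAlgebra.single (Finsupp.single j 1) 1 := rfl
  rw [h]
  unfold ev
  rw [AddMonoidAlgebra.lift_single, one_smul]
  exact mon_single (List.nodup_finRange n) (List.mem_finRange j)

theorem ev_eq_sum (F : MvPolynomial (Fin n) ℂ) :
    ev n F = ∑ m ∈ F.support, F.coeff m • mon (List.finRange n) m := by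
  conv_lhs => rw [F.as_sum]
  rw [map_sum]
  refine sum_congr rfl ?_
  intro m _
  have h : (MvPolynomial.monomial m (F.coeff m) : MvPolynomial (Fin n) ℂ) =
      AddMonoidAlgebra.single m (F.coeff m) := rfl
  rw [h]
  unfold ev
  rw [AddMonoidAlgebra.lift_single]
  rfl

/-! ### left invariants -/

/-- left invariance under the hyperoctahedral group -/
def LInv (y : RR n) : Prop := ∀ h ∈ HH n, o h * y = y

theorem pairswap_mem {x y : Pt n} (hxy : x.1 ≠ y.1) :
    swap x y * swap (bar x) (bar y) ∈ HH n := by
  unfold HH
  rw [Subgroup.mem_centralizer_singleton_iff]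
  exact (swap_comm_of rfl (bar_bar x) rfl (bar_bar y) hxy).symm

theorem LInv.swap_eq {Y : RR n} (hY : LInv Y) {x y : Pt n} (hxy : x.1 ≠ y.1) :
    o (swap (bar x) (bar y)) * Y = o (swap x y) * Y := by
  conv_rhs => rw [← hY _ (pairswap_mem hxy)]
  rw [← mul_assoc, ← o_mul, ← mul_assoc, swap_mul_self, one_mul]

theorem flip_mem (k : Fin n) : swap ((k, false) : Pt n) (k, true) ∈ HH n := by
  unfold HH
  rw [Subgroup.mem_centralizer_singleton_iff, mul_swap_eq_swap_mul]
  have e1 : th n (k, false) = (k, true) := rfl
  have e2 : th n (k, true) = (k, false) := rfl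
  rw [e1, e2, swap_comm]

theorem LInv.starT {Y : RR n} (hY : LInv Y) (k : Fin n) :
    star (below k) (k, true) * Y = JJ k * Y := by
  unfold JJ star
  rw [sum_mul, sum_mul]
  refine sum_bij (fun x _ => bar x) ?_ ?_ ?_ ?_
  · intro x hx
    rw [mem_below] at hx ⊢
    exact hx
  · intro x _ y _ h
    rw [← bar_bar x, h, bar_bar]
  · intro x hx
    rw [mem_below] at hx
    exact ⟨bar x, by rw [mem_below]; exact hx, bar_bar x⟩
  · intro x hx
    rw [mem_below] at hx
    exact (hY.swap_eq (x := x) (y := (k, true)) (ne_of_lt hx)).symm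

theorem flip_comm {j k : Fin n} (hjk : j ≠ k) :
    o (swap ((k, false) : Pt n) (k, true)) * JJ j = JJ j * o (swap ((k, false) : Pt n) (k, true)) := by
  apply JJ_comm_of
  · intro x hx
    rw [swap_apply_def]
    split_ifs with h1 h2
    · rw [h1] at hx; exact hx
    · rw [h2] at hx; exact hx
    · exact hx
  · apply swap_apply_of_ne_of_ne <;>
    · intro h
      exact hjk (congrArg Prod.fst h)

theorem LInv.flip {Y : RR n} (hY : LInv Y) (k : Fin n) :
    o (swap ((k, false) : Pt n) (k, true)) * (JJ k * Y) = JJ k * Y := by
  have e : o (swap ((k, false) : Pt n) (k, true)) * JJ k =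
      star (below k) (k, true) * o (swap ((k, false) : Pt n) (k, true)) := by
    unfold JJ
    rw [star_conj, map_below, swap_apply_left]
    intro x hx
    rw [swap_apply_def]
    split_ifs with h1 h2
    · rw [h1] at hx; exact hx
    · rw [h2] at hx; exact hx
    · exact hx
  rw [← mul_assoc, e, mul_assoc, hY _ (flip_mem k), hY.starT]

/-- the exchange of the pairs `k` and `k'` -/
def psw (k k' : Fin n) : Perm (Pt n) :=
  swap (k, false) (k', false) * swap (k, true) (k', true)

theorem psw_mem {k k' : Fin n} (h : k ≠ k') : psw k k' ∈ HH n :=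
  pairswap_mem (x := (k, false)) (y := (k', false)) h

theorem psw_apply (k k' : Fin n) (x : Pt n) : psw k k' x = (swap k k' x.1, x.2) := by
  rcases x with ⟨i, b⟩
  unfold psw
  rw [Perm.mul_apply]
  cases b
  · rw [swap_apply_of_ne_of_ne (x := ((i, false) : Pt n)) (by simp) (by simp)]
    rw [swap_apply_def, swap_apply_def]
    simp only [Prod.mk.injEq, and_true]
    split_ifs <;> rfl
  · have : swap ((k, true) : Pt n) (k', true) (i, true) = (swap k k' i, true) := by
      rw [swap_apply_def, swap_apply_def]
      simp only [Prod.mk.injEq, and_true]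
      split_ifs <;> rfl
    rw [this, swap_apply_of_ne_of_ne (by simp) (by simp)]

theorem psw_comm {k k' j : Fin n} (hk : k.val + 1 = k'.val) (h1 : j ≠ k) (h2 : j ≠ k') :
    o (psw k k') * JJ j = JJ j * o (psw k k') := by
  apply JJ_comm_of
  · intro x hx
    rw [psw_apply]
    simp only
    rw [swap_apply_def]
    rw [Fin.lt_def] at hx ⊢
    rw [Ne, Fin.ext_iff] at h1 h2
    split_ifs with e1 e2
    · rw [e1] at hx; omega
    · rw [e2] at hx; omega
    · exact hx
  · rw [psw_apply]
    simp only
    rw [swap_apply_of_ne_of_ne h1 h2]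

section two

variable {k k' : Fin n}

/-- `J_{k'}` for the successor `k'` of `k` -/
theorem JJ_succ (hk : k.val + 1 = k'.val) :
    JJ k' = star (below k) (k', false) + o (swap (k, false) (k', false)) +
      o (swap (k, true) (k', false)) := by
  have e : below k' = insert (k, true) (insert (k, false) (below k)) := by
    ext ⟨i, b⟩
    rw [mem_insert, mem_insert, mem_below, mem_below]
    simp only [Prod.mk.injEq, Fin.ext_iff, Fin.lt_def]
    cases b
    · simp only [Bool.false_eq_true, and_false, false_or, and_true]
      omega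
    · simp only [Bool.true_eq_false, and_false, false_or, and_true]
      omega
  unfold JJ star
  rw [e, sum_insert, sum_insert]
  · abel
  · rw [mem_below]; exact lt_irrefl _
  · rw [mem_insert, mem_below]
    simp

theorem psw_below (hk : k.val + 1 = k'.val) :
    (below k).map (psw k k').toEmbedding = below k := by
  apply map_below
  intro x hx
  rw [psw_apply]
  simp only
  rw [Fin.lt_def] at hx
  rw [swap_apply_of_ne_of_ne]
  · exact hx
  · intro e; rw [e] at hx; omega
  · intro e; rw [e] at hx; omega

theorem swap_below {x y : Pt n} (hx : ¬ x.1 < k) (hy : ¬ y.1 < k) :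
    (below k).map (swap x y).toEmbedding = below k := by
  apply map_below
  intro z hz
  rw [swap_apply_of_ne_of_ne]
  · exact hz
  · rintro rfl; exact hx hz
  · rintro rfl; exact hy hz

variable {Y : RR n}

theorem LInv.psw_both (hY : LInv Y) (hk : k.val + 1 = k'.val) :
    o (psw k k') * ((JJ k + JJ k') * Y) = (JJ k + JJ k') * Y ∧
    o (psw k k') * (JJ k * JJ k' * Y) = JJ k * JJ k' * Y := by
  have hkk : k ≠ k' := by
    intro e; rw [e] at hk; omega
  have hlt : k < k' := by rw [Fin.lt_def]; omega
  set a := JJ k with ha
  set a' := star (below k) (k', false) with ha'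
  set u := o (swap ((k, false) : Pt n) (k', false)) with hu
  set v := o (swap ((k, true) : Pt n) (k', false)) with hv
  set w := o (swap ((k', true) : Pt n) (k, false)) with hw
  set h := o (psw k k') with hh
  have hb : JJ k' = a' + u + v := JJ_succ hk
  have hhY : h * Y = Y := hY _ (psw_mem hkk)
  have c1 : h * a = a' * h := by
    rw [hh, ha, ha', JJ, star_conj, psw_below hk, psw_apply]
    simp only [swap_apply_left]
  have c2 : h * a' = a * h := by
    rw [hh, ha, ha', JJ, star_conj, psw_below hk, psw_apply]
    simp only [swap_apply_right]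
  have c3 : h * u = u * h := by
    rw [hh, hu, ← o_mul, ← o_mul, mul_swap_eq_swap_mul, psw_apply, psw_apply]
    simp only [swap_apply_left, swap_apply_right]
    rw [swap_comm]
  have c4 : h * v = w * h := by
    rw [hh, hv, hw, ← o_mul, ← o_mul, mul_swap_eq_swap_mul, psw_apply, psw_apply]
    simp only [swap_apply_left, swap_apply_right]
  have c5 : w * Y = v * Y := by
    have := hY.swap_eq (x := (k, true)) (y := (k', false)) hkk
    rw [hv, ← this, hw]
    congr 2
    rw [swap_comm]
    rfl
  have c6 : u * a = a' * u := by
    rw [hu, ha, ha', JJ, star_conj, swap_below (lt_irrefl k) (not_lt.2 hlt.le), swap_apply_left]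
  have c7 : v * a = a * v := by
    rw [hv, ha, JJ, star_conj, swap_below (lt_irrefl k) (not_lt.2 hlt.le),
      swap_apply_of_ne_of_ne (by simp) (by simp [hkk])]
  have c8 : v * star (below k) (k, true) = a' * v := by
    rw [hv, ha', star_conj, swap_below (lt_irrefl k) (not_lt.2 hlt.le), swap_apply_left]
  have c9 : a' * v * Y = a * v * Y := by
    rw [← c8, mul_assoc, hY.starT, ← mul_assoc, c7]
  constructor
  · rw [hb]
    calc h * ((a + (a' + u + v)) * Y) = (h * a + (h * a' + h * u + h * v)) * Y := by
          simp only [← mul_assoc, mul_add, add_mul]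
      _ = a' * (h * Y) + (a * (h * Y) + u * (h * Y) + w * (h * Y)) := by
          rw [c1, c2, c3, c4]; simp only [mul_assoc, add_mul]
      _ = (a + (a' + u + v)) * Y := by
          rw [hhY, c5]
          simp only [add_mul]
          abel
  · have hcomm : a * JJ k' = JJ k' * a := JJ_comm k k'
    have l : h * (a * JJ k' * Y) = a' * a * Y + a' * u * Y + a' * v * Y := by
      rw [hb]
      calc h * (a * (a' + u + v) * Y) = (h * a) * (a' + u + v) * Y := by
            simp only [mul_assoc]
        _ = a' * ((h * a' + h * u + h * v) * Y) := by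
            rw [c1]; simp only [mul_assoc, mul_add, add_mul]
        _ = a' * (a * (h * Y) + u * (h * Y) + w * (h * Y)) := by
            rw [c2, c3, c4]; simp only [mul_assoc, add_mul]
        _ = a' * a * Y + a' * u * Y + a' * v * Y := by
            rw [hhY, c5]
            simp only [mul_add, mul_assoc]
    have r : a * JJ k' * Y = a' * a * Y + a' * u * Y + a * v * Y := by
      rw [hcomm, hb]
      simp only [add_mul]
      rw [c6, c7]
    rw [l, r, c9]

end two

/-! ### generators of the hyperoctahedral group -/

/-- the generators -/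
def gens (n : ℕ) : Set (Perm (Pt n)) :=
  {g | (∃ k : Fin n, g = swap (k, false) (k, true)) ∨
    ∃ k k' : Fin n, k.val + 1 = k'.val ∧ g = psw k k'}

/-- the diagonal action of `S_n` on the pairs -/
def Phi (n : ℕ) : Perm (Fin n) →* Perm (Pt n) where
  toFun π := ⟨fun x => (π x.1, x.2), fun x => (π⁻¹ x.1, x.2), by
    intro x; simp, by intro x; simp⟩
  map_one' := rfl
  map_mul' _ _ := rfl

theorem Phi_apply (π : Perm (Fin n)) (x : Pt n) : Phi n π x = (π x.1, x.2) := rfl

theorem Phi_swap (k k' : Fin n) : Phi n (swap k k') = psw k k' := by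
  ext1 x
  rw [Phi_apply, psw_apply]

theorem Phi_mem_gens (π : Perm (Fin n)) : Phi n π ∈ Subgroup.closure (gens n) := by
  rcases n with _ | m
  · have : π = 1 := Subsingleton.elim _ _
    rw [this, map_one]
    exact Subgroup.one_mem _
  · have h : π ∈ Submonoid.closure (Set.range fun i : Fin m => swap i.castSucc i.succ) := by
      rw [Equiv.Perm.mclosure_swap_castSucc_succ]
      exact Submonoid.mem_top _
    induction h using Submonoid.closure_induction with
    | mem x hx =>
      obtain ⟨i, rfl⟩ := hx
      apply Subgroup.subset_closure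
      right
      exact ⟨i.castSucc, i.succ, by simp, Phi_swap _ _⟩
    | one => rw [map_one]; exact Subgroup.one_mem _
    | mul x y _ _ h1 h2 => rw [map_mul]; exact Subgroup.mul_mem _ h1 h2

theorem Phi_mem_HH (π : Perm (Fin n)) : Phi n π ∈ HH n := by
  rw [mem_HH]
  intro x
  rfl

theorem HH_le_closure : ∀ (s : ℕ) (g : Perm (Pt n)), g ∈ HH n →
    (univ.filter (fun z => g z ≠ z)).card = s → g ∈ Subgroup.closure (gens n) := by
  intro s
  induction s using Nat.strong_induction_on with
  | _ s ih =>
  intro g hg hs
  by_cases h1 : ∀ i : Fin n, g (i, false) = (i, false)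
  · have : g = 1 := by
      ext1 ⟨i, b⟩
      cases b
      · exact h1 i
      · have := mem_HH.1 hg (i, false)
        rw [h1 i] at this
        exact this
    rw [this]
    exact Subgroup.one_mem _
  · push Not at h1
    obtain ⟨i, hi⟩ := h1
    set y := g (i, false) with hy
    have hflip : ∀ j : Fin n, swap ((j, false) : Pt n) (j, true) ∈ Subgroup.closure (gens n) :=
      fun j => Subgroup.subset_closure (Or.inl ⟨j, rfl⟩)
    have hex : ∃ k : Perm (Pt n), k ∈ HH n ∧ k ∈ Subgroup.closure (gens n) ∧
        k y = (i, false) ∧ ∀ z : Pt n, z.1 ≠ i → z.1 ≠ y.1 → k z = z := by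
      rcases hyy : y with ⟨j, b⟩
      have hfl : ∀ z : Pt n, z.1 ≠ j → swap ((j, false) : Pt n) (j, true) z = z := by
        intro z hz
        apply swap_apply_of_ne_of_ne
        · rintro rfl; exact hz rfl
        · rintro rfl; exact hz rfl
      by_cases hji : j = i
      · subst hji
        have hb : b = true := by
          cases b
          · exact absurd hyy hi
          · rfl
        subst hb
        exact ⟨_, flip_mem j, hflip j, swap_apply_right _ _, fun z hz _ => hfl z hz⟩
      · have hphi : ∀ z : Pt n, z.1 ≠ i → z.1 ≠ j → Phi n (swap i j) z = z := by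
          intro z h2 h3
          rw [Phi_apply, swap_apply_of_ne_of_ne h2 h3]
        cases b
        · refine ⟨_, Phi_mem_HH (swap i j), Phi_mem_gens _, ?_, hphi⟩
          rw [Phi_apply]
          simp only [swap_apply_right]
        · refine ⟨Phi n (swap i j) * swap (j, false) (j, true),
            (HH n).mul_mem (Phi_mem_HH _) (flip_mem j),
            Subgroup.mul_mem _ (Phi_mem_gens _) (hflip j), ?_, ?_⟩
          · rw [Perm.mul_apply, swap_apply_right, Phi_apply]
            simp only [swap_apply_right]
          · intro z h2 h3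
            rw [Perm.mul_apply, hfl z h3, hphi z h2 h3]
    obtain ⟨k, hk1, hk2, hk3, hk4⟩ := hex
    have hkg : k * g ∈ HH n := (HH n).mul_mem hk1 hg
    have hsub : univ.filter (fun z => (k * g) z ≠ z) ⊆
        (univ.filter (fun z => g z ≠ z)).erase (i, false) := by
      intro z hz
      simp only [mem_filter, mem_univ, true_and] at hz
      rw [mem_erase, mem_filter]
      constructor
      · rintro rfl
        apply hz
        rw [Perm.mul_apply, ← hy, hk3]
      · refine ⟨mem_univ _, ?_⟩
        intro e
        apply hz
        rw [Perm.mul_apply, e]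
        apply hk4
        · intro e2
          rcases eq_or_bar (x := z) (y := (i, false)) e2 with e3 | e3
          · rw [e3] at e; exact hi e
          · rw [e3, mem_HH.1 hg] at e
            have := congrArg bar e
            rw [bar_bar, bar_bar] at this
            exact hi this
        · intro e2
          have hgy : g y = y := by
            rcases eq_or_bar (x := y) (y := z) e2.symm with e3 | e3
            · rw [e3]; exact e
            · rw [e3, mem_HH.1 hg, e]
          have := g.injective (hgy.trans hy)
          rw [this] at hy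
          exact hi (this.symm ▸ rfl)
    have hmem : ((i, false) : Pt n) ∈ univ.filter (fun z => g z ≠ z) := by
      simp only [mem_filter, mem_univ, true_and]
      exact hi
    have hcard := card_le_card hsub
    rw [card_erase_of_mem hmem] at hcard
    have hpos := card_pos.2 ⟨_, hmem⟩
    have h5 := ih _ (by omega) (k * g) hkg rfl
    have h6 := Subgroup.mul_mem _ (Subgroup.inv_mem _ hk2) h5
    rwa [inv_mul_cancel_left] at h6

theorem LInv_of_gens {x : RR n} (h : ∀ g ∈ gens n, o g * x = x) : LInv x := by
  intro g hg
  have h1 := HH_le_closure _ g hg rfl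
  clear hg
  induction h1 using Subgroup.closure_induction with
  | mem g hg => exact h g hg
  | one => rw [o_one, one_mul]
  | mul a b _ _ h1 h2 => rw [o_mul, mul_assoc, h2, h1]
  | inv a _ h1 =>
    conv_lhs => rw [← h1]
    rw [← mul_assoc, ← o_mul, inv_mul_cancel, o_one, one_mul]

end Pool.Agent.R715.OddJM
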