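import Mathlib

set_option autoImplicit false

/-!
# Matchings as conjugates of the standard fixed point free involution

The letters `1, …, 2n` are represented by the pairs `(j, b)`, `j ∈ Fin n`, `b : Bool`.
-/

namespace Pool.Agent.R715.OddJM

open Equiv Finset

variable {n : ℕ}

theorem papp {α : Type*} (σ : Perm α) (x : α) : σ (σ⁻¹ x) = x := σ.apply_symm_apply x

theorem pinv {α : Type*} (σ : Perm α) (x : α) : σ⁻¹ (σ x) = x := σ.symm_apply_apply x

/-- the letters -/
abbrev Pt (n : ℕ) := Fin n × Bool

/-- the partner of a letter -/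
def bar (x : Pt n) : Pt n := (x.1, !x.2)

@[simp] theorem bar_bar (x : Pt n) : bar (bar x) = x := by simp [bar]

@[simp] theorem bar_fst (x : Pt n) : (bar x).1 = x.1 := rfl

theorem bar_ne (x : Pt n) : bar x ≠ x := by
  intro h
  have := congrArg Prod.snd h
  simp [bar] at this

theorem eq_or_bar {x y : Pt n} (h : x.1 = y.1) : x = y ∨ x = bar y := by
  rcases x with ⟨i, b⟩
  rcases y with ⟨j, c⟩
  simp only at h
  subst h
  by_cases hb : b = c
  · left; rw [hb]
  · right
    simp only [bar, Prod.mk.injEq, true_and]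
    revert hb
    cases b <;> cases c <;> decide

/-- the involution `θ = (1 2) (3 4) ⋯` -/
def th (n : ℕ) : Perm (Pt n) := ⟨bar, bar, bar_bar, bar_bar⟩

@[simp] theorem th_apply (x : Pt n) : th n x = bar x := rfl

@[simp] theorem th_inv : (th n)⁻¹ = th n := rfl

/-- the hyperoctahedral group: the centraliser of `θ` -/
def HH (n : ℕ) : Subgroup (Perm (Pt n)) := Subgroup.centralizer {th n}

theorem mem_HH {h : Perm (Pt n)} : h ∈ HH n ↔ ∀ x, h (bar x) = bar (h x) := by
  unfold HH
  rw [Subgroup.mem_centralizer_singleton_iff]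
  constructor
  · intro e x
    have := congrArg (fun f => f x) e
    simpa [Perm.mul_apply] using this
  · intro e
    ext1 x
    simp only [Perm.mul_apply, th_apply]
    exact e x

theorem HH_fst {h : Perm (Pt n)} (hh : h ∈ HH n) {x y : Pt n} (hxy : x.1 = y.1) :
    (h x).1 = (h y).1 := by
  rcases eq_or_bar hxy with e | e
  · rw [e]
  · rw [e, mem_HH.1 hh, bar_fst]

theorem HH_fst_iff {h : Perm (Pt n)} (hh : h ∈ HH n) {x y : Pt n} :
    (h x).1 = (h y).1 ↔ x.1 = y.1 := by
  constructor
  · intro e
    have := HH_fst ((HH n).inv_mem hh) e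
    rwa [pinv, pinv] at this
  · exact HH_fst hh

/-- the matching `σ θ σ⁻¹` -/
def tau (σ : Perm (Pt n)) : Perm (Pt n) := σ * th n * σ⁻¹

theorem tau_mul (g σ : Perm (Pt n)) : tau (g * σ) = g * tau σ * g⁻¹ := by
  unfold tau
  simp only [mul_inv_rev, mul_assoc]

theorem tau_tau (σ : Perm (Pt n)) (x : Pt n) : tau σ (tau σ x) = x := by
  unfold tau
  simp only [Perm.mul_apply, pinv, th_apply, bar_bar, papp]

theorem tau_ne (σ : Perm (Pt n)) (x : Pt n) : tau σ x ≠ x := by
  unfold tau
  simp only [Perm.mul_apply, th_apply]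
  intro h
  have := congrArg (fun z => σ⁻¹ z) h
  simp only [pinv] at this
  exact bar_ne _ this

theorem tau_bar_of {σ : Perm (Pt n)} {x : Pt n} (h : tau σ x = bar x) :
    tau σ (bar x) = x := by
  rw [← h, tau_tau]

theorem tau_mul_right {σ h : Perm (Pt n)} (hh : h ∈ HH n) : tau (σ * h) = tau σ := by
  unfold tau
  have e : h * th n = th n * h := by
    have := hh
    unfold HH at this
    rw [Subgroup.mem_centralizer_singleton_iff] at this
    exact this
  calc σ * h * th n * (σ * h)⁻¹ = σ * (h * th n) * h⁻¹ * σ⁻¹ := by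
        simp only [mul_inv_rev, mul_assoc]
    _ = σ * th n * σ⁻¹ := by rw [e]; simp only [mul_assoc, mul_inv_cancel_left]

theorem mem_of_tau_eq {σ g : Perm (Pt n)} (h : tau σ = tau g) : σ⁻¹ * g ∈ HH n := by
  unfold HH
  rw [Subgroup.mem_centralizer_singleton_iff]
  unfold tau at h
  have h2 : th n * (σ⁻¹ * g) = σ⁻¹ * (g * th n * g⁻¹) * g := by
    rw [← h]
    simp only [mul_assoc, inv_mul_cancel_left]
  rw [h2]
  simp only [mul_assoc, inv_mul_cancel, mul_one]

/-- the letters on which the matching of `σ` differs from the standard one -/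
def supp (σ : Perm (Pt n)) : Finset (Pt n) := univ.filter (fun z => tau σ z ≠ bar z)

theorem mem_supp {σ : Perm (Pt n)} {z : Pt n} : z ∈ supp σ ↔ tau σ z ≠ bar z := by
  simp [supp]

theorem bar_mem_supp {σ : Perm (Pt n)} {z : Pt n} : bar z ∈ supp σ ↔ z ∈ supp σ := by
  rw [mem_supp, mem_supp, bar_bar, not_iff_not]
  constructor
  · intro h
    have := tau_tau σ (bar z)
    rwa [h] at this
  · exact tau_bar_of

theorem supp_fst {σ : Perm (Pt n)} {x y : Pt n} (h : x.1 = y.1) : x ∈ supp σ ↔ y ∈ supp σ := by
  rcases eq_or_bar h with e | e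
  · rw [e]
  · rw [e, bar_mem_supp]

/-- double cosets -/
def DC (g g' : Perm (Pt n)) : Prop := ∃ h ∈ HH n, ∃ h' ∈ HH n, g' = h * g * h'

theorem DC.refl (g : Perm (Pt n)) : DC g g :=
  ⟨1, (HH n).one_mem, 1, (HH n).one_mem, by simp⟩

theorem DC.symm {g g' : Perm (Pt n)} (h : DC g g') : DC g' g := by
  obtain ⟨a, ha, b, hb, rfl⟩ := h
  exact ⟨a⁻¹, (HH n).inv_mem ha, b⁻¹, (HH n).inv_mem hb, by simp [mul_assoc]⟩

theorem DC.trans {g g' g'' : Perm (Pt n)} (h : DC g g') (h' : DC g' g'') : DC g g'' := by
  obtain ⟨a, ha, b, hb, rfl⟩ := h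
  obtain ⟨c, hc, d, hd, rfl⟩ := h'
  exact ⟨c * a, (HH n).mul_mem hc ha, b * d, (HH n).mul_mem hb hd, by simp [mul_assoc]⟩

theorem supp_DC {g g' : Perm (Pt n)} (h : DC g g') : (supp g').card = (supp g).card := by
  obtain ⟨a, ha, b, hb, rfl⟩ := h
  have e : supp (a * g * b) = (supp g).map a.toEmbedding := by
    ext z
    rw [mem_supp, tau_mul_right hb, tau_mul]
    simp only [mem_map, Equiv.coe_toEmbedding, Perm.mul_apply]
    constructor
    · intro h
      refine ⟨a⁻¹ z, ?_, papp a z⟩
      rw [mem_supp]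
      intro e
      apply h
      rw [e, mem_HH.1 ha, papp]
    · rintro ⟨y, hy, rfl⟩
      rw [mem_supp] at hy
      rw [pinv, ← mem_HH.1 ha]
      intro e
      exact hy (a.injective e)
  rw [e, card_map]

/-! ### star transposition products -/

/-- `(i_1 c) (i_2 c) ⋯` -/
def tl (c : Pt n) (L : List (Pt n)) : Perm (Pt n) := (L.map (fun i => swap i c)).prod

theorem tl_nil (c : Pt n) : tl c [] = 1 := rfl

theorem tl_cons (c i : Pt n) (L : List (Pt n)) : tl c (i :: L) = swap i c * tl c L := by
  unfold tl; simp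

theorem tl_append (c i : Pt n) (L : List (Pt n)) : tl c (L ++ [i]) = tl c L * swap i c := by
  unfold tl; simp

theorem tl_fix {c : Pt n} {L : List (Pt n)} {z : Pt n} (hc : z ≠ c) (hL : z ∉ L) :
    tl c L z = z := by
  induction L with
  | nil => rfl
  | cons i L ih =>
    rw [List.mem_cons, not_or] at hL
    rw [tl_cons, Perm.mul_apply, ih hL.2, swap_apply_of_ne_of_ne hL.1 hc]

theorem conj_tl (k : Perm (Pt n)) (c : Pt n) (L : List (Pt n)) :
    k * tl c L = tl (k c) (L.map k) * k := by
  induction L with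
  | nil => simp [tl_nil]
  | cons i L ih =>
    rw [tl_cons, List.map_cons, tl_cons, ← mul_assoc, mul_swap_eq_swap_mul, mul_assoc, ih,
      ← mul_assoc]

/-- the letters whose pair meets the list -/
def QQ (K : List (Pt n)) : Finset (Pt n) := (K.map Prod.fst).toFinset ×ˢ univ

theorem mem_QQ {K : List (Pt n)} {z : Pt n} : z ∈ QQ K ↔ ∃ y ∈ K, y.1 = z.1 := by
  simp [QQ]

theorem supp_subset (c : Pt n) (L : List (Pt n)) (g : Perm (Pt n)) :
    supp g ⊆ supp (tl c L * g) ∪ QQ (c :: L) := by
  intro z hz
  rw [mem_union]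
  by_contra hc
  rw [not_or] at hc
  obtain ⟨h1, h2⟩ := hc
  rw [mem_supp, not_not, tau_mul] at h1
  rw [mem_QQ] at h2
  push Not at h2
  have hf : ∀ y : Pt n, y.1 = z.1 → tl c L y = y := by
    intro y hy
    apply tl_fix
    · rintro rfl
      exact h2 y (List.mem_cons_self) hy
    · intro hy2
      exact h2 y (List.mem_cons_of_mem _ hy2) hy
  rw [mem_supp] at hz
  apply hz
  have h3 : (tl c L)⁻¹ z = z := by
    rw [Perm.inv_eq_iff_eq]; exact (hf z rfl).symm
  simp only [Perm.mul_apply] at h1
  rw [h3] at h1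
  have h4 := hf (bar z) rfl
  have h5 : tl c L (tau g z) = tl c L (bar z) := by rw [h1, h4]
  exact (tl c L).injective h5

theorem card_QQ_le (K : List (Pt n)) : (QQ K).card ≤ 2 * K.length := by
  unfold QQ
  rw [card_product]
  have := List.toFinset_card_le (K.map Prod.fst)
  rw [List.length_map] at this
  simp only [card_univ, Fintype.card_bool]
  omega

theorem nodup_of_card {α : Type*} [DecidableEq α] {l : List α}
    (h : l.length ≤ l.toFinset.card) : l.Nodup := by
  induction l with
  | nil => exact List.nodup_nil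
  | cons a l ih =>
    rw [List.toFinset_cons, List.length_cons] at h
    have h1 := List.toFinset_card_le l
    by_cases ha : a ∈ l.toFinset
    · rw [insert_eq_of_mem ha] at h
      omega
    · rw [card_insert_of_notMem ha] at h
      rw [List.nodup_cons]
      exact ⟨fun h2 => ha (List.mem_toFinset.2 h2), ih (by omega)⟩

theorem card_supp_le (c : Pt n) (L : List (Pt n)) (g : Perm (Pt n)) :
    (supp g).card ≤ (supp (tl c L * g)).card + 2 * (L.length + 1) := by
  have h1 := card_le_card (supp_subset c L g)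
  have h2 := card_union_le (supp (tl c L * g)) (QQ (c :: L))
  have h3 := card_QQ_le (c :: L)
  rw [List.length_cons] at h3
  omega

theorem extremal {c : Pt n} {L : List (Pt n)} {g : Perm (Pt n)}
    (h : (supp (tl c L * g)).card + 2 * (L.length + 1) ≤ (supp g).card) :
    ((c :: L).map Prod.fst).Nodup ∧ ∀ z ∈ c :: L, tau (tl c L * g) z = bar z := by
  have h1 := card_le_card (supp_subset c L g)
  have h2 := card_union_add_card_inter (supp (tl c L * g)) (QQ (c :: L))
  have h3 := card_QQ_le (c :: L)
  rw [List.length_cons] at h3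
  constructor
  · apply nodup_of_card
    have h4 : (QQ (c :: L)).card = ((c :: L).map Prod.fst).toFinset.card * 2 := by
      unfold QQ
      rw [card_product]
      simp
    rw [List.length_map, List.length_cons]
    omega
  · intro z hz
    by_contra hc
    have h5 : z ∈ supp (tl c L * g) ∩ QQ (c :: L) := by
      rw [mem_inter, mem_supp, mem_QQ]
      exact ⟨hc, z, hz, rfl⟩
    have h6 := card_pos.2 ⟨z, h5⟩
    omega

/-! ### moving trivial pairs -/

theorem swap_comm_of {π : Perm (Pt n)} {x y : Pt n} (h1 : π x = bar x) (h2 : π (bar x) = x)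
    (h3 : π y = bar y) (h4 : π (bar y) = y) (hxy : x.1 ≠ y.1) :
    π * (swap x y * swap (bar x) (bar y)) = (swap x y * swap (bar x) (bar y)) * π := by
  have hne1 : x ≠ y := fun e => hxy (by rw [e])
  have hne2 : x ≠ bar y := fun e => hxy (by rw [e]; rfl)
  have hne3 : bar x ≠ y := fun e => hxy (by rw [← e]; rfl)
  have hne4 : bar x ≠ bar y := fun e => hxy (by have := congrArg Prod.fst e; exact this)
  have hcomm : swap (bar x) (bar y) * swap x y = swap x y * swap (bar x) (bar y) := by
    have : Perm.Disjoint (swap (bar x) (bar y)) (swap x y) := by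
      apply Perm.disjoint_iff_disjoint_support.2
      rw [Perm.support_swap hne4, Perm.support_swap hne1]
      rw [Finset.disjoint_left]
      intro z hz
      simp only [mem_insert, mem_singleton] at hz ⊢
      rintro (e | e) <;> rcases hz with f | f
      · exact bar_ne x (by rw [← f, e])
      · exact hne2 (by rw [← f, e])
      · exact hne3 (by rw [← f, e])
      · exact bar_ne y (by rw [← f, e])
    exact this.commute.eq
  calc π * (swap x y * swap (bar x) (bar y)) = (π * swap x y) * swap (bar x) (bar y) := by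
        rw [mul_assoc]
    _ = swap (bar x) (bar y) * (π * swap (bar x) (bar y)) := by
        rw [mul_swap_eq_swap_mul π x y, h1, h3, mul_assoc]
    _ = swap (bar x) (bar y) * swap x y * π := by
        rw [mul_swap_eq_swap_mul π (bar x) (bar y), h2, h4, mul_assoc]
    _ = (swap x y * swap (bar x) (bar y)) * π := by rw [hcomm]

theorem exists_move1 {g : Perm (Pt n)} {x y : Pt n} (hx : tau g x = bar x)
    (hy : tau g y = bar y) : ∃ k ∈ HH n, k * tau g = tau g * k ∧ k x = y ∧
      ∀ z : Pt n, z.1 ≠ x.1 → z.1 ≠ y.1 → k z = z := by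
  have hx' := tau_bar_of hx
  have hy' := tau_bar_of hy
  by_cases hxy : x.1 = y.1
  · rcases eq_or_bar hxy with e | e
    · subst e
      exact ⟨1, (HH n).one_mem, by simp, rfl, fun z _ _ => rfl⟩
    · have hyb : y = bar x := by rw [e, bar_bar]
      subst hyb
      refine ⟨swap x (bar x), ?_, ?_, swap_apply_left _ _, ?_⟩
      · unfold HH
        rw [Subgroup.mem_centralizer_singleton_iff, mul_swap_eq_swap_mul, th_apply, th_apply,
          bar_bar, swap_comm]
      · rw [mul_swap_eq_swap_mul, hx, hx', swap_comm]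
      · intro z hz _
        rw [swap_apply_of_ne_of_ne]
        · rintro rfl; exact hz rfl
        · rintro rfl; exact hz rfl
  · refine ⟨swap x y * swap (bar x) (bar y), ?_, ?_, ?_, ?_⟩
    · unfold HH
      rw [Subgroup.mem_centralizer_singleton_iff]
      exact (swap_comm_of rfl (bar_bar x) rfl (bar_bar y) hxy).symm
    · exact (swap_comm_of hx hx' hy hy' hxy).symm
    · rw [Perm.mul_apply, swap_apply_of_ne_of_ne (bar_ne x).symm, swap_apply_left]
      intro e
      exact hxy (by rw [e]; rfl)
    · intro z h1 h2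
      have e1 : swap (bar x) (bar y) z = z := by
        apply swap_apply_of_ne_of_ne
        · rintro rfl; exact h1 rfl
        · rintro rfl; exact h2 rfl
      rw [Perm.mul_apply, e1]
      apply swap_apply_of_ne_of_ne
      · rintro rfl; exact h1 rfl
      · rintro rfl; exact h2 rfl

theorem exists_move {g : Perm (Pt n)} : ∀ (K K' : List (Pt n)), K.length = K'.length →
    (K.map Prod.fst).Nodup → (K'.map Prod.fst).Nodup →
    (∀ z ∈ K, tau g z = bar z) → (∀ z ∈ K', tau g z = bar z) →
    ∃ k ∈ HH n, k * tau g = tau g * k ∧ K.map k = K' := by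
  intro K
  induction K with
  | nil =>
    intro K' hl _ _ _ _
    have : K' = [] := List.length_eq_zero_iff.1 hl.symm
    subst this
    exact ⟨1, (HH n).one_mem, by simp, rfl⟩
  | cons x K ih =>
    intro K' hl hn hn' ht ht'
    rcases K' with _ | ⟨y, K'⟩
    · simp at hl
    · simp only [List.length_cons, add_left_inj] at hl
      rw [List.map_cons, List.nodup_cons] at hn hn'
      obtain ⟨k, hk, hk2, hk3⟩ := ih K' hl hn.2 hn'.2
        (fun z hz => ht z (List.mem_cons_of_mem _ hz))
        (fun z hz => ht' z (List.mem_cons_of_mem _ hz))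
      have e1 : tau g (k x) = bar (k x) := by
        have h1 : tau g (k x) = (tau g * k) x := rfl
        rw [h1, ← hk2, Perm.mul_apply, ht x (List.mem_cons_self), mem_HH.1 hk]
      obtain ⟨k', hk', hk2', hk3', hk4'⟩ := exists_move1 e1 (ht' y (List.mem_cons_self))
      refine ⟨k' * k, (HH n).mul_mem hk' hk, ?_, ?_⟩
      · rw [mul_assoc, hk2, ← mul_assoc, hk2', mul_assoc]
      · rw [List.map_cons]
        congr 1
        rw [← hk3]
        refine List.map_congr_left ?_
        intro z hz
        rw [Perm.mul_apply]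
        apply hk4'
        · rw [Ne, HH_fst_iff hk]
          intro e
          exact hn.1 (List.mem_map.2 ⟨z, hz, e⟩)
        · intro e
          apply hn'.1
          rw [← hk3, List.map_map]
          exact List.mem_map.2 ⟨z, hz, e⟩

/-- extremal products with a given double coset lie in one double coset -/
theorem DC_of_extremal {g₁ g₂ : Perm (Pt n)} {c₁ c₂ : Pt n} {L₁ L₂ : List (Pt n)}
    (hL : L₁.length = L₂.length) (hdc : DC (tl c₁ L₁ * g₁) (tl c₂ L₂ * g₂))
    (h₁ : (supp (tl c₁ L₁ * g₁)).card + 2 * (L₁.length + 1) ≤ (supp g₁).card)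
    (h₂ : (supp (tl c₂ L₂ * g₂)).card + 2 * (L₂.length + 1) ≤ (supp g₂).card) : DC g₁ g₂ := by
  obtain ⟨n1, t1⟩ := extremal h₁
  obtain ⟨n2, t2⟩ := extremal h₂
  obtain ⟨h, hh, h', hh', e⟩ := hdc
  have etau : tau (tl c₂ L₂ * g₂) = h * tau (tl c₁ L₁ * g₁) * h⁻¹ := by
    rw [e, tau_mul_right hh', tau_mul]
  obtain ⟨k₀, hk₀, hk₀2, hk₀3⟩ := exists_move (g := tl c₂ L₂ * g₂) ((c₁ :: L₁).map h) (c₂ :: L₂)
    (by simp [hL]) (by
      rw [List.map_map]
      refine List.Nodup.map_on ?_ (List.Nodup.of_map _ n1)
      intro x hx y hy exy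
      simp only [Function.comp_apply] at exy
      rw [HH_fst_iff hh] at exy
      exact List.inj_on_of_nodup_map n1 hx hy exy) n2 (by
      intro z hz
      rw [List.mem_map] at hz
      obtain ⟨y, hy, rfl⟩ := hz
      rw [etau]
      simp only [Perm.mul_apply, pinv]
      rw [t1 y hy, mem_HH.1 hh]) t2
  have hkh := (HH n).mul_mem hk₀ hh
  have e2 : (c₁ :: L₁).map (k₀ * h) = c₂ :: L₂ := by
    rw [← hk₀3, List.map_map]; rfl
  rw [List.map_cons] at e2
  have e3 : (k₀ * h) c₁ = c₂ := List.head_eq_of_cons_eq e2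
  have e4 : L₁.map (k₀ * h) = L₂ := List.tail_eq_of_cons_eq e2
  have e5 : tau (tl c₂ L₂ * g₂) = tau ((k₀ * h) * (tl c₁ L₁ * g₁)) := by
    rw [tau_mul (k₀ * h)]
    have : (k₀ * h) * tau (tl c₁ L₁ * g₁) * (k₀ * h)⁻¹ =
        k₀ * (h * tau (tl c₁ L₁ * g₁) * h⁻¹) * k₀⁻¹ := by
      simp only [mul_inv_rev, mul_assoc]
    rw [this, ← etau, hk₀2, mul_assoc, mul_inv_cancel, mul_one]
  have e6 := mem_of_tau_eq e5.symm
  refine ⟨k₀ * h, hkh, _, e6, ?_⟩
  have e7 := conj_tl (k₀ * h) c₁ L₁
  rw [e3, e4] at e7
  have e8 : ((k₀ * h) * (tl c₁ L₁ * g₁)) = tl c₂ L₂ * ((k₀ * h) * g₁) := by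
    rw [← mul_assoc, e7, mul_assoc]
  rw [e8]
  simp only [mul_assoc, mul_inv_rev, mul_inv_cancel_left, inv_mul_cancel_left]

/-- stripping a cycle of the matching -/
theorem exists_strip (k : Fin n) : ∀ (s : ℕ) (g : Perm (Pt n)), (supp g).card = s →
    (∀ z ∈ supp g, z.1 ≤ k) → (k, false) ∈ supp g →
    ∃ L : List (Pt n), L ≠ [] ∧ (∀ i ∈ L, i.1 < k) ∧
      (supp (tl (k, false) L * g)).card + 2 * (L.length + 1) ≤ (supp g).card := by
  intro s
  induction s using Nat.strong_induction_on with
  | _ s ih =>
  intro g hs hmax hk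
  set c : Pt n := (k, false) with hc
  set y := tau g c with hy
  have hyc : tau g y = c := tau_tau g c
  have hy1 : y ≠ bar c := mem_supp.1 hk
  have hy2 : y ≠ c := tau_ne g c
  have hysupp : y ∈ supp g := by
    rw [mem_supp, hyc]
    intro e
    exact hy1 (by rw [e, bar_bar])
  have hyk : y.1 ≠ c.1 := by
    intro e
    rcases eq_or_bar e with h1 | h1
    · exact hy2 h1
    · exact hy1 h1
  have hylt : y.1 < k := lt_of_le_of_ne (hmax y hysupp) hyk
  set i := bar y with hi
  have hik : i.1 < k := hylt
  have hic : i ≠ c := by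
    intro e
    rw [e] at hik
    exact absurd hik (lt_irrefl _)
  -- the new matching
  set g' := swap i c * g with hg'
  have htau : ∀ z, tau g' z = swap i c (tau g (swap i c z)) := by
    intro z
    rw [hg', tau_mul, swap_inv]
    rfl
  have hyi : y ≠ i := (bar_ne y).symm
  have t1 : tau g' y = i := by
    rw [htau, swap_apply_of_ne_of_ne hyi hy2, hyc, swap_apply_right]
  have htriv : tau g' y = bar y := t1
  have hsub : supp g' ⊆ supp g \ {y, i} := by
    intro z hz
    rw [mem_sdiff]
    have h0 : z ∉ ({y, i} : Finset (Pt n)) := by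
      simp only [mem_insert, mem_singleton, not_or]
      constructor
      · rintro rfl
        exact (mem_supp.1 hz) htriv
      · intro e
        rw [e] at hz
        exact (mem_supp.1 hz) (by rw [hi, bar_bar]; exact tau_bar_of htriv)
    refine ⟨?_, h0⟩
    simp only [mem_insert, mem_singleton, not_or] at h0
    rw [mem_supp]
    intro e
    have hzk : z.1 ≠ k := by
      intro e2
      exact (mem_supp.1 ((supp_fst (x := c) (y := z) e2.symm).1 hk)) e
    have hzc : z ≠ c := by
      intro e2; exact hzk (by rw [e2])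
    have hzc' : bar z ≠ c := by
      intro e2; apply hzk; rw [← bar_fst z, e2]
    have hzi : bar z ≠ i := by
      intro e2
      exact h0.1 (by rw [← bar_bar z, e2, hi, bar_bar])
    apply mem_supp.1 hz
    rw [htau, swap_apply_of_ne_of_ne h0.2 hzc, e, swap_apply_of_ne_of_ne hzi hzc']
  have hyi_sub : ({y, i} : Finset (Pt n)) ⊆ supp g := by
    intro z hz
    simp only [mem_insert, mem_singleton] at hz
    rcases hz with rfl | rfl
    · exact hysupp
    · rw [hi, bar_mem_supp]; exact hysupp
  have hcard2 : ({y, i} : Finset (Pt n)).card = 2 := card_pair hyi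
  by_cases hck : c ∈ supp g'
  · have hlt : (supp g').card + 2 ≤ (supp g).card := by
      have h1 := card_le_card hsub
      have h2 := card_sdiff_add_card_eq_card hyi_sub
      omega
    obtain ⟨L, hL1, hL2, hL3⟩ := ih (supp g').card (by omega) g' rfl
      (fun z hz => hmax z (mem_sdiff.1 (hsub hz)).1) hck
    refine ⟨L ++ [i], by simp, ?_, ?_⟩
    · intro j hj
      rw [List.mem_append, List.mem_singleton] at hj
      rcases hj with hj | rfl
      · exact hL2 j hj
      · exact hik
    · rw [tl_append, mul_assoc, ← hg', List.length_append, List.length_singleton]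
      omega
  · refine ⟨[i], by simp, ?_, ?_⟩
    · intro j hj
      rw [List.mem_singleton] at hj
      rw [hj]; exact hik
    · have e1 : tl c [i] * g = g' := by
        rw [tl_cons, tl_nil, mul_one]
      rw [e1, List.length_singleton]
      have hsub2 : supp g' ⊆ supp g \ {y, i, c, bar c} := by
        intro z hz
        have h1 := hsub hz
        rw [mem_sdiff] at h1 ⊢
        refine ⟨h1.1, ?_⟩
        have h2 := h1.2
        simp only [mem_insert, mem_singleton, not_or] at h2 ⊢
        refine ⟨h2.1, h2.2, ?_, ?_⟩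
        · rintro rfl; exact hck hz
        · rintro rfl; exact hck (bar_mem_supp.1 hz)
      have h4 : ({y, i, c, bar c} : Finset (Pt n)).card = 4 := by
        rw [card_insert_of_notMem, card_insert_of_notMem, card_pair (bar_ne c).symm]
        · simp only [mem_insert, mem_singleton, not_or]
          refine ⟨hic, ?_⟩
          intro e
          rw [hi] at e
          exact hy2 (by rw [← bar_bar y, e, bar_bar])
        · simp only [mem_insert, mem_singleton, not_or]
          exact ⟨hyi, hy2, hy1⟩
      have h5 : ({y, i, c, bar c} : Finset (Pt n)) ⊆ supp g := by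
        intro z hz
        simp only [mem_insert, mem_singleton] at hz
        rcases hz with rfl | rfl | rfl | rfl
        · exact hysupp
        · rw [hi, bar_mem_supp]; exact hysupp
        · exact hk
        · rw [bar_mem_supp]; exact hk
      have h6 := card_le_card hsub2
      have h7 := card_sdiff_add_card_eq_card h5
      omega

end Pool.Agent.R715.OddJM
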