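import Pool.Agent.R715.OddAlg

set_option autoImplicit false
set_option maxHeartbeats 400000

/-!
# The Hecke algebra is spanned by symmetric functions of odd Jucys-Murphy elements
-/

namespace Pool.Agent.R715.OddJM

open Equiv Finset

variable {n : ℕ}

/-! ### elementary symmetric polynomials of a subset of the variables -/

/-- the elementary symmetric polynomial of the variables in `s` -/
noncomputable def E (s : Finset (Fin n)) (r : ℕ) : MvPolynomial (Fin n) ℂ :=
  ∑ t ∈ s.powersetCard r, ∏ i ∈ t, MvPolynomial.X i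

theorem E_univ (r : ℕ) : E (univ : Finset (Fin n)) r = MvPolynomial.esymm (Fin n) ℂ r := rfl

theorem E_zero (s : Finset (Fin n)) : E s 0 = 1 := by
  unfold E
  simp

theorem E_insert {s : Finset (Fin n)} {x : Fin n} (hx : x ∉ s) (r : ℕ) :
    E (insert x s) (r + 1) = E s (r + 1) + MvPolynomial.X x * E s r := by
  unfold E
  rw [powersetCard_succ_insert hx, sum_union, sum_image, mul_sum]
  · congr 1
    refine sum_congr rfl ?_
    intro t ht
    rw [prod_insert]
    intro h
    exact hx ((mem_powersetCard.1 ht).1 h)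
  · intro t ht t' ht' h
    have h1 : x ∉ t := fun h => hx ((mem_powersetCard.1 ht).1 h)
    have h2 : x ∉ t' := fun h => hx ((mem_powersetCard.1 ht').1 h)
    rw [← erase_insert h1, ← erase_insert h2, h]
  · rw [Finset.disjoint_left]
    intro t ht ht'
    rw [mem_image] at ht'
    obtain ⟨t', _, rfl⟩ := ht'
    exact hx ((mem_powersetCard.1 ht).1 (mem_insert_self _ _))

theorem ev_E_comm {s : Finset (Fin n)} {g : RR n} (h : ∀ j ∈ s, g * JJ j = JJ j * g) (r : ℕ) :
    g * ev n (E s r) = ev n (E s r) * g := by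
  induction s using Finset.induction_on generalizing r with
  | empty =>
    rcases r with _ | r
    · rw [E_zero, map_one, mul_one, one_mul]
    · have : E (∅ : Finset (Fin n)) (r + 1) = 0 := by
        unfold E
        rw [powersetCard_eq_empty.2 (by simp), sum_empty]
      rw [this, map_zero, mul_zero, zero_mul]
  | insert x s hx ih =>
    rcases r with _ | r
    · rw [E_zero, map_one, mul_one, one_mul]
    · have ih' := ih (fun j hj => h j (mem_insert_of_mem hj))
      rw [E_insert hx, map_add, map_mul, ev_X, mul_add, add_mul, ih' (r + 1), ← mul_assoc,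
        h x (mem_insert_self _ _), mul_assoc, ih' r, mul_assoc]

theorem LInv.esymm {Y : RR n} (hY : LInv Y) (r : ℕ) :
    LInv (ev n (MvPolynomial.esymm (Fin n) ℂ r) * Y) := by
  apply LInv_of_gens
  rintro g (⟨k, rfl⟩ | ⟨k, k', hk, rfl⟩)
  · rcases r with _ | r
    · rw [← E_univ, E_zero, map_one, one_mul]
      exact hY _ (flip_mem k)
    · set f := o (swap ((k, false) : Pt n) (k, true)) with hf
      have hk : k ∉ (univ.erase k : Finset (Fin n)) := notMem_erase _ _
      have e : (univ : Finset (Fin n)) = insert k (univ.erase k) :=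
        (insert_erase (mem_univ k)).symm
      rw [← E_univ, e, E_insert hk, mul_comm (MvPolynomial.X k), map_add, map_mul, ev_X]
      have hc := ev_E_comm (g := f) (s := univ.erase k)
        (fun j hj => flip_comm (ne_of_mem_erase hj))
      have e1 : f * Y = Y := hY _ (flip_mem k)
      have e2 := hY.flip k
      rw [← hf] at e2
      calc f * ((ev n (E (univ.erase k) (r + 1)) + ev n (E (univ.erase k) r) * JJ k) * Y)
          = (f * ev n (E (univ.erase k) (r + 1))) * Y +
            (f * ev n (E (univ.erase k) r)) * (JJ k * Y) := by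
            simp only [add_mul, mul_add, mul_assoc]
        _ = ev n (E (univ.erase k) (r + 1)) * (f * Y) +
            ev n (E (univ.erase k) r) * (f * (JJ k * Y)) := by
            rw [hc, hc]; simp only [mul_assoc]
        _ = (ev n (E (univ.erase k) (r + 1)) + ev n (E (univ.erase k) r) * JJ k) * Y := by
            rw [e1, e2]; simp only [add_mul, mul_assoc]
  · have hkk : k ≠ k' := by
      intro e; rw [e] at hk; omega
    set f := o (psw k k') with hf
    set s : Finset (Fin n) := (univ.erase k).erase k' with hs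
    have hk1 : k' ∉ s := notMem_erase _ _
    have hk2 : k ∉ insert k' s := by
      rw [mem_insert, not_or]
      refine ⟨hkk, ?_⟩
      intro h
      exact notMem_erase k univ (mem_of_mem_erase h)
    have e : (univ : Finset (Fin n)) = insert k (insert k' s) := by
      rw [hs, insert_erase, insert_erase (mem_univ k)]
      exact mem_erase.2 ⟨hkk.symm, mem_univ _⟩
    have hc := ev_E_comm (g := f) (s := s) (fun j hj => by
      have h1 := mem_erase.1 hj
      have h2 := mem_erase.1 h1.2
      exact psw_comm hk h2.1 h1.1)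
    have e1 : f * Y = Y := hY _ (psw_mem hkk)
    obtain ⟨e2, e3⟩ := hY.psw_both hk
    rw [← hf] at e2 e3
    rcases r with _ | _ | r
    · rw [← E_univ, E_zero, map_one, one_mul]
      exact e1
    · have e4 : ev n (MvPolynomial.esymm (Fin n) ℂ (0 + 1)) * Y =
          ev n (E s (0 + 1)) * Y + (JJ k + JJ k') * Y := by
        rw [← E_univ, e, E_insert hk2, E_insert hk1, E_zero, E_zero, mul_one, mul_one, map_add,
          map_add, ev_X, ev_X]
        simp only [add_mul]
        abel
      rw [e4, mul_add, e2, ← mul_assoc, hc, mul_assoc, e1]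
    · have e4 : ev n (MvPolynomial.esymm (Fin n) ℂ (r + 1 + 1)) * Y =
          ev n (E s (r + 1 + 1)) * Y + ev n (E s (r + 1)) * ((JJ k + JJ k') * Y) +
            ev n (E s r) * (JJ k * JJ k' * Y) := by
        have e5 : MvPolynomial.esymm (Fin n) ℂ (r + 1 + 1) = E s (r + 1 + 1) +
            E s (r + 1) * (MvPolynomial.X k + MvPolynomial.X k') +
            E s r * (MvPolynomial.X k * MvPolynomial.X k') := by
          rw [← E_univ, e, E_insert hk2, E_insert hk1, E_insert hk1]
          ring
        rw [e5, map_add, map_add, map_mul, map_mul, map_mul, map_add, ev_X, ev_X]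
        simp only [add_mul, mul_assoc]
      rw [e4]
      calc f * (ev n (E s (r + 1 + 1)) * Y + ev n (E s (r + 1)) * ((JJ k + JJ k') * Y) +
            ev n (E s r) * (JJ k * JJ k' * Y))
          = (f * ev n (E s (r + 1 + 1))) * Y + (f * ev n (E s (r + 1))) * ((JJ k + JJ k') * Y) +
            (f * ev n (E s r)) * (JJ k * JJ k' * Y) := by
            simp only [mul_add, mul_assoc]
        _ = ev n (E s (r + 1 + 1)) * (f * Y) + ev n (E s (r + 1)) * (f * ((JJ k + JJ k') * Y)) +
            ev n (E s r) * (f * (JJ k * JJ k' * Y)) := by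
            rw [hc, hc, hc]
            simp only [mul_assoc]
        _ = _ := by rw [e1, e2, e3]

theorem LInv.add {x y : RR n} (hx : LInv x) (hy : LInv y) : LInv (x + y) := by
  intro h hh
  rw [mul_add, hx h hh, hy h hh]

theorem LInv.smul {x : RR n} (hx : LInv x) (c : ℂ) : LInv (c • x) := by
  intro h hh
  rw [mul_smul_comm, hx h hh]

theorem LInv.sum {α : Type*} {s : Finset α} {f : α → RR n} (h : ∀ i ∈ s, LInv (f i)) :
    LInv (∑ i ∈ s, f i) := by
  intro g hg
  rw [mul_sum]
  exact sum_congr rfl (fun i hi => h i hi g hg)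

theorem LInv.symm {F : MvPolynomial (Fin n) ℂ} (hF : F.IsSymmetric) {Y : RR n} (hY : LInv Y) :
    LInv (ev n F * Y) := by
  obtain ⟨p, hp⟩ := MvPolynomial.esymmAlgHom_surjective (σ := Fin n) (n := n) ℂ (by simp)
    ⟨F, hF⟩
  have hp' : F = ((MvPolynomial.esymmAlgHom (Fin n) ℂ n) p : MvPolynomial (Fin n) ℂ) := by
    rw [hp]
  rw [hp']
  clear hp hp'
  induction p using MvPolynomial.induction_on generalizing Y with
  | C a =>
    have : ((MvPolynomial.esymmAlgHom (Fin n) ℂ n) (MvPolynomial.C a) :
        MvPolynomial (Fin n) ℂ) = algebraMap ℂ _ a := by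
      have h1 : (MvPolynomial.C a : MvPolynomial (Fin n) ℂ) = algebraMap ℂ _ a := rfl
      rw [h1, AlgHom.commutes]
      rfl
    rw [this, AlgHom.commutes, ← Algebra.smul_def]
    exact hY.smul a
  | add p q h1 h2 =>
    rw [map_add]
    have : ((MvPolynomial.esymmAlgHom (Fin n) ℂ n p + MvPolynomial.esymmAlgHom (Fin n) ℂ n q :
        MvPolynomial.symmetricSubalgebra (Fin n) ℂ) : MvPolynomial (Fin n) ℂ) =
        (MvPolynomial.esymmAlgHom (Fin n) ℂ n p : MvPolynomial (Fin n) ℂ) +
        (MvPolynomial.esymmAlgHom (Fin n) ℂ n q : MvPolynomial (Fin n) ℂ) := rfl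
    rw [this, map_add, add_mul]
    exact (h1 hY).add (h2 hY)
  | mul_X p i h1 =>
    rw [map_mul]
    have h2 : ((MvPolynomial.esymmAlgHom (Fin n) ℂ n p *
        MvPolynomial.esymmAlgHom (Fin n) ℂ n (MvPolynomial.X i) :
        MvPolynomial.symmetricSubalgebra (Fin n) ℂ) : MvPolynomial (Fin n) ℂ) =
        (MvPolynomial.esymmAlgHom (Fin n) ℂ n p : MvPolynomial (Fin n) ℂ) *
        MvPolynomial.esymm (Fin n) ℂ (i + 1) := by
      rw [MulMemClass.coe_mul]
      congr 1
      unfold MvPolynomial.esymmAlgHom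
      rw [MvPolynomial.aeval_X]
    rw [h2, map_mul, mul_assoc]
    exact h1 (hY.esymm _)

/-! ### coefficients -/

theorem coeff_o_mul (g h : Perm (Pt n)) (x : RR n) :
    (o g * x).coeff h = x.coeff (g⁻¹ * h) := by
  unfold o
  rw [MonoidAlgebra.of_apply, MonoidAlgebra.coeff_single_mul_apply, one_mul]

theorem coeff_mul_o (g h : Perm (Pt n)) (x : RR n) :
    (x * o g).coeff h = x.coeff (h * g⁻¹) := by
  unfold o
  rw [MonoidAlgebra.of_apply, MonoidAlgebra.coeff_mul_single_apply, mul_one]

theorem coeff_JJ_mul (k : Fin n) (x : RR n) (g : Perm (Pt n)) :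
    (JJ k * x).coeff g = ∑ i ∈ below k, x.coeff (swap i (k, false) * g) := by
  unfold JJ star
  rw [sum_mul, MonoidAlgebra.coeff_sum, Finsupp.finset_sum_apply]
  refine sum_congr rfl ?_
  intro i _
  rw [coeff_o_mul, swap_inv]

theorem exists_of_coeff_ne {k : Fin n} {x : RR n} : ∀ (a : ℕ) (g : Perm (Pt n)),
    (JJ k ^ a * x).coeff g ≠ 0 →
      ∃ L : List (Pt n), L.length = a ∧ x.coeff (tl (k, false) L * g) ≠ 0 := by
  intro a
  induction a with
  | zero =>
    intro g h
    rw [pow_zero, one_mul] at h
    exact ⟨[], rfl, by rw [tl_nil, one_mul]; exact h⟩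
  | succ a ih =>
    intro g h
    rw [pow_succ', mul_assoc, coeff_JJ_mul] at h
    obtain ⟨i, _, hi⟩ := exists_ne_zero_of_sum_ne_zero h
    obtain ⟨L, hL1, hL2⟩ := ih _ hi
    refine ⟨L ++ [i], by simp [hL1], ?_⟩
    rw [tl_append, mul_assoc]
    exact hL2

/-- all coefficients are natural numbers -/
def NatC (x : RR n) : Prop := ∀ g, ∃ m : ℕ, x.coeff g = m

theorem nat_sum {α : Type*} {s : Finset α} {f : α → ℂ} (h : ∀ i ∈ s, ∃ m : ℕ, f i = m) :
    ∃ m : ℕ, ∑ i ∈ s, f i = m := by
  classical
  induction s using Finset.induction_on with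
  | empty => exact ⟨0, by simp⟩
  | insert a s ha ih =>
    obtain ⟨m, hm⟩ := ih (fun i hi => h i (mem_insert_of_mem hi))
    obtain ⟨m', hm'⟩ := h a (mem_insert_self _ _)
    exact ⟨m' + m, by rw [sum_insert ha, hm, hm']; push_cast; rfl⟩

theorem nat_sum_ne {α : Type*} {s : Finset α} {f : α → ℂ} (h : ∀ i ∈ s, ∃ m : ℕ, f i = m)
    {i : α} (hi : i ∈ s) (hi2 : f i ≠ 0) : ∑ i ∈ s, f i ≠ 0 := by
  classical
  rw [← add_sum_erase s f hi]
  obtain ⟨m, hm⟩ := nat_sum (s := s.erase i) (fun j hj => h j (mem_of_mem_erase hj))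
  obtain ⟨m', hm'⟩ := h i hi
  rw [hm, hm']
  rw [hm'] at hi2
  have : m' ≠ 0 := by
    rintro rfl
    simp at hi2
  have h3 : ((m' + m : ℕ) : ℂ) ≠ 0 := by
    rw [Nat.cast_ne_zero]
    omega
  push_cast at h3
  exact h3

theorem NatC.JJ_mul {x : RR n} (hx : NatC x) (k : Fin n) : NatC (JJ k * x) := by
  intro g
  rw [coeff_JJ_mul]
  exact nat_sum (fun i _ => hx _)

theorem NatC.pow_mul {x : RR n} (hx : NatC x) (k : Fin n) (a : ℕ) : NatC (JJ k ^ a * x) := by
  induction a with
  | zero => rw [pow_zero, one_mul]; exact hx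
  | succ a ih => rw [pow_succ', mul_assoc]; exact ih.JJ_mul k

theorem coeff_ne_of_list {k : Fin n} {x : RR n} (hx : NatC x) (L : List (Pt n)) :
    ∀ (g : Perm (Pt n)), (∀ i ∈ L, i.1 < k) → x.coeff (tl (k, false) L * g) ≠ 0 →
      (JJ k ^ L.length * x).coeff g ≠ 0 := by
  induction L using List.reverseRecOn with
  | nil =>
    intro g _ h
    rw [tl_nil, one_mul] at h
    rw [List.length_nil, pow_zero, one_mul]
    exact h
  | append_singleton L i ih =>
    intro g hL h
    rw [tl_append, mul_assoc] at h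
    have h1 := ih (swap i (k, false) * g)
      (fun j hj => hL j (List.mem_append_left _ hj)) h
    rw [List.length_append, List.length_singleton, pow_succ', mul_assoc, coeff_JJ_mul]
    refine nat_sum_ne (fun j _ => hx.pow_mul k _ _) (i := i) ?_ h1
    rw [mem_below]
    exact hL i (by simp)

/-! ### the Hecke algebra -/

/-- coefficients constant on double cosets -/
def Hecke (x : RR n) : Prop :=
  ∀ h ∈ HH n, ∀ h' ∈ HH n, ∀ g, x.coeff (h * g * h') = x.coeff g

theorem Hecke.dc {x : RR n} (hx : Hecke x) {g g' : Perm (Pt n)} (h : DC g g') :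
    x.coeff g' = x.coeff g := by
  obtain ⟨a, ha, b, hb, rfl⟩ := h
  exact hx a ha b hb g

open Classical in
/-- the sum `P_n` of the elements of the hyperoctahedral group -/
noncomputable def PP (n : ℕ) : RR n := ∑ h ∈ univ.filter (fun h => h ∈ HH n), o h

open Classical in
theorem coeff_PP (g : Perm (Pt n)) : (PP n).coeff g = if g ∈ HH n then 1 else 0 := by
  unfold PP o
  rw [MonoidAlgebra.coeff_sum, Finsupp.finset_sum_apply]
  simp only [MonoidAlgebra.of_apply, MonoidAlgebra.coeff_single, Finsupp.single_apply]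
  rw [sum_ite_eq']
  simp

theorem LInv_iff {x : RR n} : LInv x ↔ ∀ h ∈ HH n, ∀ g, x.coeff (h * g) = x.coeff g := by
  constructor
  · intro hx h hh g
    have h1 := hx h⁻¹ ((HH n).inv_mem hh)
    have h2 := coeff_o_mul h⁻¹ g x
    rw [h1, inv_inv] at h2
    exact h2.symm
  · intro hx h hh
    apply MonoidAlgebra.coeff_injective
    ext g
    rw [coeff_o_mul, hx _ ((HH n).inv_mem hh)]

theorem hecke_of {x : RR n} (hl : LInv x) (hr : ∀ h ∈ HH n, x * o h = x) : Hecke x := by
  intro h hh h' hh' g
  rw [mul_assoc, LInv_iff.1 hl h hh]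
  have h1 := hr h'⁻¹ ((HH n).inv_mem hh')
  have h2 := coeff_mul_o h'⁻¹ g x
  rw [h1, inv_inv] at h2
  exact h2.symm

theorem Hecke.left {x : RR n} (hx : Hecke x) : LInv x := by
  rw [LInv_iff]
  intro h hh g
  have := hx h hh 1 (HH n).one_mem g
  rwa [mul_one] at this

theorem Hecke.right {x : RR n} (hx : Hecke x) {h : Perm (Pt n)} (hh : h ∈ HH n) :
    x * o h = x := by
  apply MonoidAlgebra.coeff_injective
  ext g
  rw [coeff_mul_o]
  have := hx 1 (HH n).one_mem h⁻¹ ((HH n).inv_mem hh) g
  rwa [one_mul] at this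

theorem Hecke_PP : Hecke (PP n) := by
  classical
  intro h hh h' hh' g
  rw [coeff_PP, coeff_PP]
  have : h * g * h' ∈ HH n ↔ g ∈ HH n := by
    rw [Subgroup.mul_mem_cancel_right _ hh', Subgroup.mul_mem_cancel_left _ hh]
  simp only [this]

theorem Hecke.ev_mul {F : MvPolynomial (Fin n) ℂ} (hF : F.IsSymmetric) {x : RR n}
    (hx : Hecke x) : Hecke (ev n F * x) := by
  apply hecke_of (hx.left.symm hF)
  intro h hh
  rw [mul_assoc, hx.right hh]

theorem Hecke.add_smul {x y : RR n} (hx : Hecke x) (hy : Hecke y) (c : ℂ) :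
    Hecke (x + c • y) := by
  intro h hh h' hh' g
  simp only [MonoidAlgebra.coeff_add, MonoidAlgebra.coeff_smul, Finsupp.add_apply,
    Finsupp.smul_apply]
  rw [hx h hh h' hh' g, hy h hh h' hh' g]

/-- the span -/
def VV (x : RR n) : Prop := ∃ F : MvPolynomial (Fin n) ℂ, F.IsSymmetric ∧ x = ev n F * PP n

theorem VV.add_smul {x y : RR n} (hx : VV x) (hy : VV y) (c : ℂ) : VV (x + c • y) := by
  obtain ⟨F, hF, rfl⟩ := hx
  obtain ⟨G, hG, rfl⟩ := hy
  refine ⟨F + c • G, hF.add (hG.smul c), ?_⟩
  rw [map_add, map_smul, add_mul, smul_mul_assoc]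

theorem VV.mul {x : RR n} (hx : VV x) {F : MvPolynomial (Fin n) ℂ} (hF : F.IsSymmetric) :
    VV (ev n F * x) := by
  obtain ⟨G, hG, rfl⟩ := hx
  exact ⟨F * G, hF.mul hG, by rw [map_mul, mul_assoc]⟩

theorem VV_PP : VV (PP n) := ⟨1, MvPolynomial.IsSymmetric.one, by rw [map_one, one_mul]⟩

open Classical in
/-- the sum over a double coset -/
noncomputable def DD (σ : Perm (Pt n)) : RR n := ∑ g ∈ univ.filter (fun g => DC σ g), o g

open Classical in
theorem coeff_DD (σ g : Perm (Pt n)) : (DD σ).coeff g = if DC σ g then 1 else 0 := by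
  unfold DD o
  rw [MonoidAlgebra.coeff_sum, Finsupp.finset_sum_apply]
  simp only [MonoidAlgebra.of_apply, MonoidAlgebra.coeff_single, Finsupp.single_apply]
  rw [sum_ite_eq']
  simp

theorem Hecke_DD (σ : Perm (Pt n)) : Hecke (DD σ) := by
  classical
  intro h hh h' hh' g
  rw [coeff_DD, coeff_DD]
  have h1 : DC g (h * g * h') := ⟨h, hh, h', hh', rfl⟩
  have : DC σ (h * g * h') ↔ DC σ g :=
    ⟨fun h2 => h2.trans h1.symm, fun h2 => h2.trans h1⟩
  simp only [this]

theorem NatC_DD (σ : Perm (Pt n)) : NatC (DD σ) := by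
  classical
  intro g
  rw [coeff_DD]
  split_ifs
  · exact ⟨1, by simp⟩
  · exact ⟨0, by simp⟩

theorem ev_psum (a : ℕ) : ev n (MvPolynomial.psum (Fin n) ℂ a) = ∑ k, JJ k ^ a := by
  unfold MvPolynomial.psum
  rw [map_sum]
  refine sum_congr rfl ?_
  intro k _
  rw [map_pow, ev_X]

theorem mem_HH_of_supp {g : Perm (Pt n)} (h : (supp g).card = 0) : g ∈ HH n := by
  rw [card_eq_zero] at h
  have h1 : tau 1 = tau g := by
    ext1 z
    have h2 : z ∉ supp g := by rw [h]; simp
    rw [mem_supp, not_not] at h2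
    rw [h2]
    unfold tau
    simp
  have h3 := mem_of_tau_eq h1
  simpa using h3

/-- the main step: a symmetric function multiple of a smaller double coset sum with top part on
one double coset -/
theorem exists_step {σ : Perm (Pt n)} (hσ : (supp σ).card ≠ 0) :
    ∃ (F : MvPolynomial (Fin n) ℂ) (σ' : Perm (Pt n)), F.IsSymmetric ∧
      (supp σ').card < (supp σ).card ∧ (ev n F * DD σ').coeff σ ≠ 0 ∧
      ∀ g, (ev n F * DD σ').coeff g ≠ 0 → (supp g).card ≤ (supp σ).card ∧
        ((supp g).card = (supp σ).card → DC σ g) := by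
  classical
  -- the last nontrivial pair
  have hne : (supp σ).Nonempty := card_pos.1 (Nat.pos_of_ne_zero hσ)
  obtain ⟨z, hz, hmax⟩ := exists_max_image (supp σ) (fun z => z.1) hne
  set k := z.1 with hk
  have hkk : ((k, false) : Pt n) ∈ supp σ := (supp_fst (x := z) (y := (k, false)) rfl).1 hz
  obtain ⟨L, hL1, hL2, hL3⟩ := exists_strip k _ σ rfl hmax hkk
  set a := L.length with ha
  have ha1 : 0 < a := List.length_pos_iff.2 hL1
  set σ' := tl (k, false) L * σ with hσ'
  refine ⟨MvPolynomial.psum (Fin n) ℂ a, σ', MvPolynomial.psum_isSymmetric _ _ _, by omega,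
    ?_, ?_⟩
  · rw [ev_psum, sum_mul, MonoidAlgebra.coeff_sum, Finsupp.finset_sum_apply]
    refine nat_sum_ne (fun j _ => (NatC_DD σ').pow_mul j a σ) (mem_univ k) ?_
    apply coeff_ne_of_list (NatC_DD σ') L σ hL2
    rw [coeff_DD, if_pos (DC.refl _)]
    exact one_ne_zero
  · intro g hg
    rw [ev_psum, sum_mul, MonoidAlgebra.coeff_sum, Finsupp.finset_sum_apply] at hg
    obtain ⟨k', _, hk'⟩ := exists_ne_zero_of_sum_ne_zero hg
    obtain ⟨L', hL'1, hL'2⟩ := exists_of_coeff_ne a g hk'
    rw [coeff_DD] at hL'2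
    have hdc : DC σ' (tl (k', false) L' * g) := by
      by_contra hc
      rw [if_neg hc] at hL'2
      exact hL'2 rfl
    have hc1 := supp_DC hdc
    have hc2 := card_supp_le (k', false) L' g
    rw [hc1, hL'1] at hc2
    refine ⟨by omega, ?_⟩
    intro heq
    refine DC_of_extremal (c₁ := (k, false)) (c₂ := (k', false)) (L₁ := L) (L₂ := L')
      (by rw [hL'1]) hdc hL3 ?_
    rw [hc1, hL'1]
    omega

theorem VV_of_Hecke : ∀ (N M : ℕ) (x : RR n), Hecke x →
    (∀ g, x.coeff g ≠ 0 → (supp g).card ≤ N) →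
    (univ.filter (fun g => x.coeff g ≠ 0 ∧ (supp g).card = N)).card = M → VV x := by
  classical
  intro N
  induction N using Nat.strong_induction_on with
  | _ N ihN =>
  intro M
  induction M using Nat.strong_induction_on with
  | _ M ihM =>
  intro x hx hN hM
  by_cases hN0 : N = 0
  · subst hN0
    have e : x = PP n + (x.coeff 1 - 1) • PP n := by
      apply MonoidAlgebra.coeff_injective
      ext g
      simp only [MonoidAlgebra.coeff_add, MonoidAlgebra.coeff_smul, Finsupp.add_apply,
        Finsupp.smul_apply, coeff_PP, smul_eq_mul]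
      by_cases hg : g ∈ HH n
      · rw [if_pos hg]
        have := hx g hg 1 (HH n).one_mem 1
        rw [mul_one, mul_one] at this
        rw [this]
        ring
      · rw [if_neg hg]
        have : x.coeff g = 0 := by
          by_contra hc
          exact hg (mem_HH_of_supp (Nat.le_zero.1 (hN g hc)))
        rw [this]
        ring
    rw [e]
    exact VV_PP.add_smul VV_PP _
  · by_cases hM0 : M = 0
    · subst hM0
      rw [card_eq_zero, filter_eq_empty_iff] at hM
      refine ihN (N - 1) (by omega) _ x hx ?_ rfl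
      intro g hg
      have h1 := hN g hg
      have h2 := hM (mem_univ g)
      push Not at h2
      have := h2 hg
      omega
    · have hpos : 0 < (univ.filter (fun g => x.coeff g ≠ 0 ∧ (supp g).card = N)).card := by
        omega
      obtain ⟨σ, hσ⟩ := card_pos.1 hpos
      have hσ2 := (mem_filter.1 hσ).2
      obtain ⟨F, σ', hF, hlt, hne, hg⟩ := exists_step (σ := σ) (by rw [hσ2.2]; exact hN0)
      have hD : VV (DD σ') := by
        refine ihN (supp σ').card (by omega) _ (DD σ') (Hecke_DD σ') ?_ rfl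
        intro g hg
        rw [coeff_DD] at hg
        have hdc : DC σ' g := by
          by_contra hc
          rw [if_neg hc] at hg
          exact hg rfl
        rw [supp_DC hdc]
      set z := ev n F * DD σ' with hz
      have hzV : VV z := hD.mul hF
      have hzH : Hecke z := (Hecke_DD σ').ev_mul hF
      set c := x.coeff σ / z.coeff σ with hc
      have hx' : Hecke (x + (-c) • z) := hx.add_smul hzH _
      have hcoe : ∀ g, (x + (-c) • z).coeff g = x.coeff g - c * z.coeff g := by
        intro g
        simp only [MonoidAlgebra.coeff_add, MonoidAlgebra.coeff_smul, Finsupp.add_apply,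
          Finsupp.smul_apply, smul_eq_mul]
        ring
      have hV : VV (x + (-c) • z) := by
        refine ihM _ ?_ (x + (-c) • z) hx' ?_ rfl
        · rw [← hM]
          apply card_lt_card
          rw [ssubset_iff_of_subset]
          · refine ⟨σ, hσ, ?_⟩
            rw [mem_filter, hcoe, hc, div_mul_cancel₀ _ hne, sub_self]
            simp
          · intro g hg'
            rw [mem_filter] at hg' ⊢
            refine ⟨mem_univ _, ?_, hg'.2.2⟩
            have h1 := hg'.2.1
            rw [hcoe] at h1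
            by_cases h2 : z.coeff g = 0
            · rw [h2, mul_zero, sub_zero] at h1
              exact h1
            · exfalso
              have h3 := (hg g h2).2 (by rw [hg'.2.2, hσ2.2])
              apply h1
              rw [hx.dc h3, hzH.dc h3, hc, div_mul_cancel₀ _ hne, sub_self]
        · intro g hg'
          rw [hcoe] at hg'
          by_cases h2 : z.coeff g = 0
          · rw [h2, mul_zero, sub_zero] at hg'
            exact hN g hg'
          · rw [← hσ2.2]
            exact (hg g h2).1
      have e : x = (x + (-c) • z) + c • z := by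
        rw [add_assoc, ← _root_.add_smul, neg_add_cancel, zero_smul, add_zero]
      rw [e]
      exact hV.add_smul hzV c

/-- **Main theorem** for the letters `Fin n × Bool`. -/
theorem main (x : RR n) : VV x ↔ Hecke x := by
  constructor
  · rintro ⟨F, hF, rfl⟩
    exact Hecke_PP.ev_mul hF
  · intro hx
    refine VV_of_Hecke (Fintype.card (Pt n)) _ x hx ?_ rfl
    intro g _
    exact card_le_univ _

end Pool.Agent.R715.OddJM
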