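import Mathlib

set_option autoImplicit false

/-!
# Lengths of permutations of `Fin n`
-/

namespace Pool.Agent.R715.HeckeA

open Equiv Finset

variable {n : ℕ}

theorem papp {α : Type*} (σ : Perm α) (x : α) : σ (σ⁻¹ x) = x := σ.apply_symm_apply x

theorem pinv {α : Type*} (σ : Perm α) (x : α) : σ⁻¹ (σ x) = x := σ.symm_apply_apply x

/-- The Coxeter length of a permutation: the number of its inversions. -/
def len (σ : Perm (Fin n)) : ℕ :=
  (univ.filter (fun p : Fin n × Fin n => p.1 < p.2 ∧ σ p.2 < σ p.1)).card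

/-- The simple transposition `s_i = (i, i+1)`, `1 ≤ i ≤ n - 1`, of the letters `1, …, n`
(represented by the elements `0, …, n - 1` of `Fin n`); the identity for other `i`. -/
def adj (n i : ℕ) : Perm (Fin n) :=
  if h : 1 ≤ i ∧ i < n then swap ⟨i - 1, by omega⟩ ⟨i, h.2⟩ else 1

/-- lower letter -/
def lo {i : ℕ} (h : 1 ≤ i ∧ i < n) : Fin n := ⟨i - 1, by omega⟩
/-- upper letter -/
def up {i : ℕ} (h : 1 ≤ i ∧ i < n) : Fin n := ⟨i, h.2⟩

theorem adj_eq {i : ℕ} (h : 1 ≤ i ∧ i < n) : adj n i = swap (lo h) (up h) := by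
  unfold adj lo up
  rw [dif_pos h]

theorem lo_lt_up {i : ℕ} (h : 1 ≤ i ∧ i < n) : lo h < up h := by
  rw [Fin.lt_def]; simp only [lo, up]; omega

theorem adj_sq (i : ℕ) : adj n i * adj n i = 1 := by
  unfold adj
  split_ifs
  · exact swap_mul_self _ _
  · exact one_mul 1

theorem adj_inv (i : ℕ) : (adj n i)⁻¹ = adj n i := by
  rw [inv_eq_iff_mul_eq_one]; exact adj_sq i

theorem adj_mul_adj_mul (i : ℕ) (σ : Perm (Fin n)) : adj n i * (adj n i * σ) = σ := by
  rw [← mul_assoc, adj_sq, one_mul]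

theorem mul_adj_mul_adj (i : ℕ) (σ : Perm (Fin n)) : σ * adj n i * adj n i = σ := by
  rw [mul_assoc, adj_sq, mul_one]

/-- order of values under an adjacent transposition -/
theorem swap_lt_iff {i : ℕ} (h : 1 ≤ i ∧ i < n) {x y : Fin n} (hxy : x ≠ y)
    (hne : ¬ (x = lo h ∧ y = up h)) (hne' : ¬ (x = up h ∧ y = lo h)) :
    adj n i x < adj n i y ↔ x < y := by
  rw [adj_eq h]
  have e1 : ∀ z : Fin n, swap (lo h) (up h) z = if z = lo h then up h else if z = up h then lo h else z :=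
    fun z => swap_apply_def _ _ _
  rw [e1, e1]
  simp only [Fin.ext_iff, Fin.lt_def, lo, up] at *
  split_ifs <;> simp only [] <;> omega

theorem adj_lo {i : ℕ} (h : 1 ≤ i ∧ i < n) : adj n i (lo h) = up h := by
  rw [adj_eq h]; exact swap_apply_left _ _

theorem adj_up {i : ℕ} (h : 1 ≤ i ∧ i < n) : adj n i (up h) = lo h := by
  rw [adj_eq h]; exact swap_apply_right _ _

theorem len_adj_mul_of_lt {i : ℕ} (h : 1 ≤ i ∧ i < n) {σ : Perm (Fin n)}
    (hl : σ⁻¹ (lo h) < σ⁻¹ (up h)) : len (adj n i * σ) = len σ + 1 := by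
  have e : (univ.filter (fun p : Fin n × Fin n => p.1 < p.2 ∧ (adj n i * σ) p.2 < (adj n i * σ) p.1))
      = insert (σ⁻¹ (lo h), σ⁻¹ (up h))
        (univ.filter (fun p : Fin n × Fin n => p.1 < p.2 ∧ σ p.2 < σ p.1)) := by
    ext ⟨x, y⟩
    simp only [mem_filter, mem_univ, true_and, mem_insert, Prod.mk.injEq, Perm.mul_apply]
    by_cases h1 : x = σ⁻¹ (lo h) ∧ y = σ⁻¹ (up h)
    · obtain ⟨rfl, rfl⟩ := h1
      simp only [papp, adj_lo, adj_up, and_self, true_or, iff_true]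
      exact ⟨hl, lo_lt_up h⟩
    · simp only [h1, false_or]
      apply and_congr_right
      intro hxy
      have hxy' : σ y ≠ σ x := fun e => absurd (σ.injective e) (ne_of_gt hxy)
      apply swap_lt_iff h hxy'
      · rintro ⟨e1, e2⟩
        have e1' : y = σ⁻¹ (lo h) := by rw [← e1, pinv]
        have e2' : x = σ⁻¹ (up h) := by rw [← e2, pinv]
        rw [e1', e2'] at hxy
        exact absurd hl (not_lt.2 hxy.le)
      · rintro ⟨e1, e2⟩
        exact h1 ⟨by rw [← e2, pinv], by rw [← e1, pinv]⟩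
  unfold len
  rw [e, card_insert_of_notMem]
  simp only [mem_filter, mem_univ, true_and, papp, not_and, not_lt]
  intro _
  exact (lo_lt_up h).le

theorem len_adj_mul_of_gt {i : ℕ} (h : 1 ≤ i ∧ i < n) {σ : Perm (Fin n)}
    (hl : σ⁻¹ (up h) < σ⁻¹ (lo h)) : len σ = len (adj n i * σ) + 1 := by
  have := len_adj_mul_of_lt h (σ := adj n i * σ) (by
    rw [mul_inv_rev, adj_inv, Perm.mul_apply, Perm.mul_apply, adj_lo, adj_up]
    exact hl)
  rwa [adj_mul_adj_mul] at this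

theorem len_lt_adj_mul_iff {i : ℕ} (h : 1 ≤ i ∧ i < n) {σ : Perm (Fin n)} :
    len σ < len (adj n i * σ) ↔ σ⁻¹ (lo h) < σ⁻¹ (up h) := by
  constructor
  · intro hl
    rcases lt_trichotomy (σ⁻¹ (lo h)) (σ⁻¹ (up h)) with h1 | h1 | h1
    · exact h1
    · exact absurd (σ⁻¹.injective h1) (ne_of_lt (lo_lt_up h))
    · have := len_adj_mul_of_gt h h1
      omega
  · intro h1
    rw [len_adj_mul_of_lt h h1]
    omega

theorem adj_mul_len_lt_iff {i : ℕ} (h : 1 ≤ i ∧ i < n) {σ : Perm (Fin n)} :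
    len (adj n i * σ) < len σ ↔ σ⁻¹ (up h) < σ⁻¹ (lo h) := by
  constructor
  · intro hl
    rcases lt_trichotomy (σ⁻¹ (lo h)) (σ⁻¹ (up h)) with h1 | h1 | h1
    · have := len_adj_mul_of_lt h h1
      omega
    · exact absurd (σ⁻¹.injective h1) (ne_of_lt (lo_lt_up h))
    · exact h1
  · intro h1
    have := len_adj_mul_of_gt h h1
    omega

theorem len_adj_mul_cases {i : ℕ} (h : 1 ≤ i ∧ i < n) (σ : Perm (Fin n)) :
    len (adj n i * σ) = len σ + 1 ∨ len σ = len (adj n i * σ) + 1 := by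
  rcases lt_trichotomy (σ⁻¹ (lo h)) (σ⁻¹ (up h)) with h1 | h1 | h1
  · exact Or.inl (len_adj_mul_of_lt h h1)
  · exact absurd (σ⁻¹.injective h1) (ne_of_lt (lo_lt_up h))
  · exact Or.inr (len_adj_mul_of_gt h h1)

theorem len_one : len (1 : Perm (Fin n)) = 0 := by
  unfold len
  rw [card_eq_zero, filter_eq_empty_iff]
  rintro ⟨x, y⟩ _ ⟨h1, h2⟩
  simp only [Perm.coe_one, id_eq] at h2
  exact absurd h1 (not_lt.2 h2.le)

theorem len_inv (σ : Perm (Fin n)) : len σ⁻¹ = len σ := by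
  unfold len
  apply card_bij' (fun p _ => (σ⁻¹ p.2, σ⁻¹ p.1)) (fun p _ => (σ p.2, σ p.1))
  · rintro ⟨x, y⟩ h
    simp only [mem_filter, mem_univ, true_and, papp] at h ⊢
    exact ⟨h.2, h.1⟩
  · rintro ⟨x, y⟩ h
    simp only [mem_filter, mem_univ, true_and, pinv] at h ⊢
    exact ⟨h.2, h.1⟩
  · rintro ⟨x, y⟩ _
    simp
  · rintro ⟨x, y⟩ _
    simp

theorem len_mul_adj (i : ℕ) (σ : Perm (Fin n)) : len (σ * adj n i) = len (adj n i * σ⁻¹) := by
  rw [← len_inv (σ * adj n i), mul_inv_rev, adj_inv]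

theorem len_mul_adj_cases {i : ℕ} (h : 1 ≤ i ∧ i < n) (σ : Perm (Fin n)) :
    len (σ * adj n i) = len σ + 1 ∨ len σ = len (σ * adj n i) + 1 := by
  rw [len_mul_adj, ← len_inv σ]
  exact len_adj_mul_cases h σ⁻¹

theorem len_lt_mul_adj_iff {i : ℕ} (h : 1 ≤ i ∧ i < n) {σ : Perm (Fin n)} :
    len σ < len (σ * adj n i) ↔ σ (lo h) < σ (up h) := by
  rw [len_mul_adj, ← len_inv σ, len_lt_adj_mul_iff h, inv_inv]

theorem mul_adj_len_lt_iff {i : ℕ} (h : 1 ≤ i ∧ i < n) {σ : Perm (Fin n)} :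
    len (σ * adj n i) < len σ ↔ σ (up h) < σ (lo h) := by
  rw [len_mul_adj, ← len_inv σ, adj_mul_len_lt_iff h, inv_inv]

/-- a permutation different from `1` has a left descent -/
theorem exists_descent {σ : Perm (Fin n)} (hσ : σ ≠ 1) :
    ∃ i, ∃ h : 1 ≤ i ∧ i < n, σ⁻¹ (up h) < σ⁻¹ (lo h) := by
  by_contra hc
  push Not at hc
  apply hσ
  have hmono : ∀ k : ℕ, ∀ hk : k + 1 < n, σ⁻¹ ⟨k, by omega⟩ < σ⁻¹ ⟨k + 1, hk⟩ := by
    intro k hk
    have h1 := hc (k + 1) ⟨by omega, hk⟩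
    refine lt_of_le_of_ne h1 ?_
    intro e
    have := σ⁻¹.injective e
    simp [lo, up, Fin.ext_iff] at this
  have hs : StrictMono (σ⁻¹ : Perm (Fin n)) := by
    rcases n with _ | n
    · intro x; exact x.elim0
    · rw [Fin.strictMono_iff_lt_succ]
      intro i
      exact hmono i.val (by omega)
  have h2 : (hs.orderIsoOfSurjective _ (σ⁻¹).surjective) = OrderIso.refl (Fin n) :=
    Subsingleton.elim _ _
  have h3 : σ⁻¹ = 1 := by
    ext x
    have := congrArg (fun f : Fin n ≃o Fin n => f x) h2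
    simpa using congrArg Fin.val this
  rwa [inv_eq_one] at h3

/-- the exchange lemma in the form needed for the construction of the Hecke algebra -/
theorem exchange {i j : ℕ} (hi : 1 ≤ i ∧ i < n) (hj : 1 ≤ j ∧ j < n) {σ : Perm (Fin n)}
    (h1 : len σ < len (adj n i * σ)) (h2 : len σ < len (σ * adj n j))
    (h3 : len (adj n i * (σ * adj n j)) < len (σ * adj n j)) :
    adj n i * σ = σ * adj n j := by
  rw [len_lt_adj_mul_iff hi] at h1
  rw [len_lt_mul_adj_iff hj] at h2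
  rw [adj_mul_len_lt_iff hi, mul_inv_rev, adj_inv, Perm.mul_apply, Perm.mul_apply] at h3
  have h4 : ¬ (adj n j (σ⁻¹ (lo hi)) < adj n j (σ⁻¹ (up hi)) ↔ σ⁻¹ (lo hi) < σ⁻¹ (up hi)) := by
    intro h
    exact absurd (h.2 h1) (not_lt.2 h3.le)
  have h5 : σ⁻¹ (lo hi) = lo hj ∧ σ⁻¹ (up hi) = up hj := by
    by_contra hc
    apply h4
    apply swap_lt_iff hj (ne_of_lt h1) hc
    rintro ⟨e1, e2⟩
    rw [e1, e2] at h1
    exact absurd h1 (not_lt.2 (lo_lt_up hj).le)
  have e1 : σ (lo hj) = lo hi := by rw [← h5.1, papp]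
  have e2 : σ (up hj) = up hi := by rw [← h5.2, papp]
  rw [adj_eq hi, adj_eq hj, ← e1, ← e2]
  exact (mul_swap_eq_swap_mul σ (lo hj) (up hj)).symm

end Pool.Agent.R715.HeckeA
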