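import Pool.Agent.R715.TypeMeasure

set_option autoImplicit false

/-!
# The example: the integers with finitary permutations and the shift by `n`
-/

namespace Pool.Agent.R715.Equi

open Set Filter

/-- the sets which eventually contain or eventually avoid both `+∞` and `-∞` -/
def evSets : Set (Set ℤ) :=
  {A | ((∀ᶠ x in atTop, x ∈ A) ∨ (∀ᶠ x in atTop, x ∉ A)) ∧
    ((∀ᶠ x in atBot, x ∈ A) ∨ (∀ᶠ x in atBot, x ∉ A))}

/-- the translation by `1` -/
def tr : Equiv.Perm ℤ := Equiv.addRight 1

/-- the group generated by `x ↦ x + n` and the transpositions -/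
def grp (n : ℕ) : Subgroup (Equiv.Perm ℤ) :=
  Subgroup.closure ({tr ^ n} ∪ {σ | σ.IsSwap})

theorem evSets_compl {A : Set ℤ} (hA : A ∈ evSets) : Aᶜ ∈ evSets := by
  obtain ⟨h1, h2⟩ := hA
  refine ⟨?_, ?_⟩
  · rcases h1 with h | h
    · right; filter_upwards [h] with x hx; simpa using hx
    · left; filter_upwards [h] with x hx; simpa using hx
  · rcases h2 with h | h
    · right; filter_upwards [h] with x hx; simpa using hx
    · left; filter_upwards [h] with x hx; simpa using hx

theorem evSets_union {A B : Set ℤ} (hA : A ∈ evSets) (hB : B ∈ evSets) : A ∪ B ∈ evSets := by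
  have key : ∀ l : Filter ℤ, ((∀ᶠ x in l, x ∈ A) ∨ (∀ᶠ x in l, x ∉ A)) →
      ((∀ᶠ x in l, x ∈ B) ∨ (∀ᶠ x in l, x ∉ B)) →
      ((∀ᶠ x in l, x ∈ A ∪ B) ∨ (∀ᶠ x in l, x ∉ A ∪ B)) := by
    intro l hA hB
    rcases hA with h | h
    · left; filter_upwards [h] with x hx; exact Or.inl hx
    · rcases hB with h' | h'
      · left; filter_upwards [h'] with x hx; exact Or.inr hx
      · right; filter_upwards [h, h'] with x hx hx'; simp [hx, hx']
  exact ⟨key _ hA.1 hB.1, key _ hA.2 hB.2⟩

theorem evSets_inter {A B : Set ℤ} (hA : A ∈ evSets) (hB : B ∈ evSets) : A ∩ B ∈ evSets := by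
  have := evSets_compl (evSets_union (evSets_compl hA) (evSets_compl hB))
  rwa [compl_union, compl_compl, compl_compl] at this

/-- permutations preserving both ends -/
def PresEnds (σ : Equiv.Perm ℤ) : Prop :=
  Tendsto σ atTop atTop ∧ Tendsto σ atBot atBot ∧ Tendsto σ.symm atTop atTop ∧
    Tendsto σ.symm atBot atBot

theorem presEnds_tr : PresEnds tr := by
  refine ⟨?_, ?_, ?_, ?_⟩
  · exact tendsto_atTop_add_const_right _ 1 tendsto_id
  · exact tendsto_atBot_add_const_right _ 1 tendsto_id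
  · exact tendsto_atTop_add_const_right _ (-1) tendsto_id
  · exact tendsto_atBot_add_const_right _ (-1) tendsto_id

theorem presEnds_one : PresEnds 1 := ⟨tendsto_id, tendsto_id, tendsto_id, tendsto_id⟩

theorem PresEnds.mul {σ τ : Equiv.Perm ℤ} (h : PresEnds σ) (h' : PresEnds τ) :
    PresEnds (σ * τ) :=
  ⟨h.1.comp h'.1, h.2.1.comp h'.2.1, h'.2.2.1.comp h.2.2.1, h'.2.2.2.comp h.2.2.2⟩

theorem PresEnds.inv {σ : Equiv.Perm ℤ} (h : PresEnds σ) : PresEnds σ⁻¹ :=
  ⟨h.2.2.1, h.2.2.2, h.1, h.2.1⟩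

theorem PresEnds.pow {σ : Equiv.Perm ℤ} (h : PresEnds σ) (k : ℕ) : PresEnds (σ ^ k) := by
  induction k with
  | zero => exact presEnds_one
  | succ k ih => rw [pow_succ]; exact ih.mul h

theorem presEnds_swap (a b : ℤ) : PresEnds (Equiv.swap a b) := by
  have h1 : Tendsto (Equiv.swap a b) atTop atTop := by
    refine tendsto_id.congr' ?_
    filter_upwards [eventually_gt_atTop a, eventually_gt_atTop b] with x hx hx'
    rw [Equiv.swap_apply_of_ne_of_ne (ne_of_gt hx) (ne_of_gt hx')]
    rfl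
  have h2 : Tendsto (Equiv.swap a b) atBot atBot := by
    refine tendsto_id.congr' ?_
    filter_upwards [eventually_lt_atBot a, eventually_lt_atBot b] with x hx hx'
    rw [Equiv.swap_apply_of_ne_of_ne (ne_of_lt hx) (ne_of_lt hx')]
    rfl
  exact ⟨h1, h2, h1, h2⟩

theorem presEnds_of_mem {n : ℕ} {σ : Equiv.Perm ℤ} (h : σ ∈ grp n) : PresEnds σ := by
  induction h using Subgroup.closure_induction with
  | mem x hx =>
    rcases hx with hx | hx
    · rw [mem_singleton_iff] at hx
      rw [hx]; exact presEnds_tr.pow n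
    · obtain ⟨a, b, -, rfl⟩ := hx
      exact presEnds_swap a b
  | one => exact presEnds_one
  | mul x y _ _ hx hy => exact hx.mul hy
  | inv x _ hx => exact hx.inv

theorem image_eq_preimage' (σ : Equiv.Perm ℤ) (A : Set ℤ) : σ '' A = σ.symm ⁻¹' A :=
  σ.image_eq_preimage_symm A

theorem PresEnds.image {σ : Equiv.Perm ℤ} (h : PresEnds σ) {A : Set ℤ} (hA : A ∈ evSets) :
    σ '' A ∈ evSets := by
  rw [image_eq_preimage']
  exact ⟨hA.1.imp (fun e => h.2.2.1.eventually e) (fun e => h.2.2.1.eventually e),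
    hA.2.imp (fun e => h.2.2.2.eventually e) (fun e => h.2.2.2.eventually e)⟩

/-- the invariant subalgebra -/
def alg (n : ℕ) : InvSubalgebra (grp n) ℤ where
  sets := evSets
  empty_mem := ⟨Or.inr (by simp), Or.inr (by simp)⟩
  univ_mem := ⟨Or.inl (by simp), Or.inl (by simp)⟩
  union_mem := fun A hA B hB => evSets_union hA hB
  inter_mem := fun A hA B hB => evSets_inter hA hB
  compl_mem := fun A hA => evSets_compl hA
  image_mem := fun g A hA => (presEnds_of_mem g.2).image hA

open Classical in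
/-- indicator -/
noncomputable def ind (A : Set ℤ) (x : ℤ) : ℤ := if x ∈ A then 1 else 0

open Classical in
/-- reference -/
noncomputable def rf (A : Set ℤ) (x : ℤ) : ℤ :=
  if 0 ≤ x then (if ∀ᶠ y in atTop, y ∈ A then 1 else 0)
  else (if ∀ᶠ y in atBot, y ∈ A then 1 else 0)

/-- the index -/
noncomputable def idx (A : Set ℤ) : ℤ := ∑ᶠ x, (ind A x - rf A x)

theorem finite_of_ends {f : ℤ → ℤ} (h1 : ∀ᶠ x in atTop, f x = 0) (h2 : ∀ᶠ x in atBot, f x = 0) :
    (Function.support f).Finite := by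
  obtain ⟨a, ha⟩ := eventually_atTop.1 h1
  obtain ⟨b, hb⟩ := eventually_atBot.1 h2
  refine (finite_Ioo b a).subset ?_
  intro x hx
  refine ⟨?_, ?_⟩
  · by_contra hc
    exact hx (hb x (not_lt.1 hc))
  · by_contra hc
    exact hx (ha x (not_lt.1 hc))

theorem ind_eq_rf_top {A : Set ℤ} (hA : A ∈ evSets) : ∀ᶠ x in atTop, ind A x - rf A x = 0 := by
  rcases hA.1 with h | h
  · filter_upwards [h, eventually_ge_atTop 0] with x hx hx0
    simp [ind, rf, hx, hx0, h]
  · have h' : ¬ ∀ᶠ y in atTop, y ∈ A := by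
      intro h''
      obtain ⟨y, hy⟩ := (h.and h'').exists
      exact hy.1 hy.2
    filter_upwards [h, eventually_ge_atTop 0] with x hx hx0
    simp only [ind, rf, hx, hx0, h', if_true, if_false, sub_self]

theorem ind_eq_rf_bot {A : Set ℤ} (hA : A ∈ evSets) : ∀ᶠ x in atBot, ind A x - rf A x = 0 := by
  rcases hA.2 with h | h
  · filter_upwards [h, eventually_lt_atBot 0] with x hx hx0
    simp [ind, rf, hx, not_le.2 hx0, h]
  · have h' : ¬ ∀ᶠ y in atBot, y ∈ A := by
      intro h''
      obtain ⟨y, hy⟩ := (h.and h'').exists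
      exact hy.1 hy.2
    filter_upwards [h, eventually_lt_atBot 0] with x hx hx0
    simp only [ind, rf, hx, not_le.2 hx0, h', if_false, sub_self]

theorem finite_supp_idx {A : Set ℤ} (hA : A ∈ evSets) :
    (Function.support fun x => ind A x - rf A x).Finite :=
  finite_of_ends (ind_eq_rf_top hA) (ind_eq_rf_bot hA)

open Classical in
theorem ite_union {A B : Set ℤ} (hd : Disjoint A B) (l : Filter ℤ) [l.NeBot]
    (hA : (∀ᶠ x in l, x ∈ A) ∨ (∀ᶠ x in l, x ∉ A))
    (hB : (∀ᶠ x in l, x ∈ B) ∨ (∀ᶠ x in l, x ∉ B)) :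
    (if ∀ᶠ y in l, y ∈ A ∪ B then (1 : ℤ) else 0) =
      (if ∀ᶠ y in l, y ∈ A then 1 else 0) + (if ∀ᶠ y in l, y ∈ B then 1 else 0) := by
  by_cases h : ∀ᶠ y in l, y ∈ A
  · have h1 : ∀ᶠ y in l, y ∈ A ∪ B := h.mono (fun y hy => Or.inl hy)
    have h2 : ¬ ∀ᶠ y in l, y ∈ B := by
      intro h'
      obtain ⟨y, hy⟩ := (h.and h').exists
      exact Set.disjoint_left.1 hd hy.1 hy.2
    rw [if_pos h1, if_pos h, if_neg h2, add_zero]
  · by_cases h' : ∀ᶠ y in l, y ∈ B
    · have h1 : ∀ᶠ y in l, y ∈ A ∪ B := h'.mono (fun y hy => Or.inr hy)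
      rw [if_pos h1, if_neg h, if_pos h', zero_add]
    · have hA' := hA.resolve_left h
      have hB' := hB.resolve_left h'
      have h1 : ¬ ∀ᶠ y in l, y ∈ A ∪ B := by
        intro h''
        obtain ⟨y, hy⟩ := ((hA'.and hB').and h'').exists
        rcases hy.2 with h3 | h3
        · exact hy.1.1 h3
        · exact hy.1.2 h3
      rw [if_neg h1, if_neg h, if_neg h', zero_add]

theorem idx_union {A B : Set ℤ} (hA : A ∈ evSets) (hB : B ∈ evSets) (hd : Disjoint A B) :
    idx (A ∪ B) = idx A + idx B := by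
  unfold idx
  rw [← finsum_add_distrib (finite_supp_idx hA) (finite_supp_idx hB)]
  apply finsum_congr
  intro x
  have e1 : ind (A ∪ B) x = ind A x + ind B x := by
    unfold ind
    by_cases h : x ∈ A
    · have h' : x ∉ B := Set.disjoint_left.1 hd h
      simp [h, h']
    · by_cases h' : x ∈ B
      · simp [h, h']
      · simp [h, h']
  have e2 : rf (A ∪ B) x = rf A x + rf B x := by
    unfold rf
    by_cases h : 0 ≤ x
    · simp only [h, if_true]
      exact ite_union hd atTop hA.1 hB.1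
    · simp only [h, if_false]
      exact ite_union hd atBot hA.2 hB.2
  rw [e1, e2]
  ring

theorem ind_image (σ : Equiv.Perm ℤ) (A : Set ℤ) (x : ℤ) : ind (σ '' A) (σ x) = ind A x := by
  have h : σ x ∈ σ '' A ↔ x ∈ A := σ.injective.mem_set_image
  unfold ind
  by_cases hx : x ∈ A
  · rw [if_pos hx, if_pos (h.2 hx)]
  · rw [if_neg hx, if_neg (fun h' => hx (h.1 h'))]

theorem rf_image {σ : Equiv.Perm ℤ} (h : PresEnds σ) (A : Set ℤ) (x : ℤ) :
    rf (σ '' A) x = rf A x := by
  have h1 : (∀ᶠ y in atTop, y ∈ σ '' A) ↔ ∀ᶠ y in atTop, y ∈ A := by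
    constructor
    · intro h'
      filter_upwards [h.1.eventually h'] with x hx
      simpa using hx
    · intro h'
      rw [image_eq_preimage']
      exact h.2.2.1.eventually h'
  have h2 : (∀ᶠ y in atBot, y ∈ σ '' A) ↔ ∀ᶠ y in atBot, y ∈ A := by
    constructor
    · intro h'
      filter_upwards [h.2.1.eventually h'] with x hx
      simpa using hx
    · intro h'
      rw [image_eq_preimage']
      exact h.2.2.2.eventually h'
  classical
  unfold rf
  by_cases h0 : 0 ≤ x
  · rw [if_pos h0, if_pos h0]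
    exact if_congr h1 rfl rfl
  · rw [if_neg h0, if_neg h0]
    exact if_congr h2 rfl rfl

theorem idx_image {σ : Equiv.Perm ℤ} (h : PresEnds σ) {A : Set ℤ} (hA : A ∈ evSets)
    (hf : (Function.support fun x => rf A x - rf A (σ x)).Finite) :
    idx (σ '' A) = idx A + ∑ᶠ x, (rf A x - rf A (σ x)) := by
  unfold idx
  rw [← finsum_add_distrib (finite_supp_idx hA) hf, ← finsum_comp_equiv σ]
  apply finsum_congr
  intro x
  rw [ind_image, rf_image h]
  ring

theorem idx_swap {A : Set ℤ} (hA : A ∈ evSets) (a b : ℤ) :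
    idx (Equiv.swap a b '' A) = idx A := by
  have hs : (Function.support fun x => rf A x - rf A (Equiv.swap a b x)) ⊆ {a, b} := by
    intro x hx
    by_contra hc
    simp only [mem_insert_iff, mem_singleton_iff, not_or] at hc
    apply hx
    simp [Equiv.swap_apply_of_ne_of_ne hc.1 hc.2]
  rw [idx_image (presEnds_swap a b) hA ((toFinite {a, b}).subset hs)]
  rw [finsum_eq_sum_of_support_subset (s := {a, b}) _ (by simpa using hs)]
  by_cases hab : a = b
  · subst hab; simp
  · rw [Finset.sum_pair hab, Equiv.swap_apply_left, Equiv.swap_apply_right]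
    ring

theorem idx_tr {A : Set ℤ} (hA : A ∈ evSets) :
    idx (tr '' A) = idx A + (rf A (-1) - rf A 0) := by
  have hs : (Function.support fun x => rf A x - rf A (tr x)) ⊆ {-1} := by
    intro x hx
    by_contra hc
    rw [mem_singleton_iff] at hc
    apply hx
    have e : tr x = x + 1 := rfl
    unfold rf
    by_cases h : 0 ≤ x
    · have h' : 0 ≤ tr x := by rw [e]; omega
      simp only [h, h', if_true, sub_self]
    · have h' : ¬ 0 ≤ tr x := by rw [e]; omega
      simp only [h, h', if_false, sub_self]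
  rw [idx_image presEnds_tr hA ((toFinite {(-1 : ℤ)}).subset hs)]
  rw [finsum_eq_sum_of_support_subset (s := {(-1 : ℤ)}) _ (by simpa using hs)]
  rw [Finset.sum_singleton]
  rfl

theorem idx_tr_pow {A : Set ℤ} (hA : A ∈ evSets) (k : ℕ) :
    idx ((tr ^ k : Equiv.Perm ℤ) '' A) = idx A + k * (rf A (-1) - rf A 0) := by
  induction k with
  | zero => simp
  | succ k ih =>
    have e : ((tr ^ (k + 1) : Equiv.Perm ℤ) '' A) = tr '' ((tr ^ k : Equiv.Perm ℤ) '' A) := by
      rw [pow_succ']
      exact image_comp tr (tr ^ k : Equiv.Perm ℤ) A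
    rw [e, idx_tr ((presEnds_tr.pow k).image hA), ih, rf_image (presEnds_tr.pow k),
      rf_image (presEnds_tr.pow k)]
    push_cast
    ring

/-- the index modulo `n` -/
noncomputable def idxn (n : ℕ) (A : Set ℤ) : ZMod n := (idx A : ZMod n)

theorem idxn_image {n : ℕ} {σ : Equiv.Perm ℤ} (h : σ ∈ grp n) :
    ∀ A ∈ evSets, idxn n (σ '' A) = idxn n A := by
  induction h using Subgroup.closure_induction with
  | mem x hx =>
    intro A hA
    rcases hx with hx | hx
    · rw [mem_singleton_iff] at hx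
      subst hx
      unfold idxn
      rw [idx_tr_pow hA]
      push_cast
      simp
    · obtain ⟨a, b, -, rfl⟩ := hx
      unfold idxn
      rw [idx_swap hA]
  | one =>
    intro A hA
    simp
  | mul x y hx' hy' hx hy =>
    intro A hA
    have e : ((x * y : Equiv.Perm ℤ) '' A) = x '' (y '' A) := image_comp x y A
    rw [e, hx _ ((presEnds_of_mem hy').image hA), hy _ hA]
  | inv x hx' hx =>
    intro A hA
    have h1 := hx _ ((presEnds_of_mem hx').inv.image hA)
    rw [← h1]
    congr 1
    ext y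
    simp

theorem isMeas (n : ℕ) : IsMeas (alg n) (idxn n) where
  add := by
    intro A hA B hB hd
    unfold idxn
    rw [idx_union hA hB hd]
    push_cast
    rfl
  inv := by
    intro g A hA
    exact idxn_image g.2 A hA

theorem ici_mem (a : ℤ) : Ici a ∈ evSets := by
  refine ⟨Or.inl (eventually_ge_atTop a), Or.inr ?_⟩
  filter_upwards [eventually_lt_atBot a] with x hx
  simpa using hx

theorem singleton_mem (a : ℤ) : ({a} : Set ℤ) ∈ evSets := by
  refine ⟨Or.inr ?_, Or.inr ?_⟩
  · filter_upwards [eventually_gt_atTop a] with x hx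
    simpa using ne_of_gt hx
  · filter_upwards [eventually_lt_atBot a] with x hx
    simpa using ne_of_lt hx

theorem rf_ici (a x : ℤ) : rf (Ici a) x = if 0 ≤ x then 1 else 0 := by
  unfold rf
  have h1 : ∀ᶠ y in atTop, y ∈ Ici a := eventually_ge_atTop a
  have h2 : ¬ ∀ᶠ y in atBot, y ∈ Ici a := by
    intro h
    obtain ⟨y, hy⟩ := (h.and (eventually_lt_atBot a)).exists
    exact absurd hy.1 (not_le.2 hy.2)
  simp only [h1, h2, if_true, if_false]

theorem idx_ici_zero : idx (Ici 0) = 0 := by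
  unfold idx
  rw [← finsum_zero (α := ℤ) (M := ℤ)]
  apply finsum_congr
  intro x
  rw [rf_ici]
  unfold ind
  simp

theorem idx_ici_one : idx (Ici 1) = -1 := by
  unfold idx
  rw [finsum_eq_single _ 0]
  · rw [rf_ici]; simp [ind]
  · intro x hx
    rw [rf_ici]
    unfold ind
    by_cases h : 0 ≤ x
    · have : x ∈ Ici (1 : ℤ) := by
        rw [mem_Ici]; omega
      simp [h, this]
    · have : x ∉ Ici (1 : ℤ) := by
        rw [mem_Ici]; omega
      simp [h, this]

variable (n : ℕ)

/-- the type of the half line -/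
def tIci (a : ℤ) : Types (alg n) := ty (𝒜 := alg n) (ici_mem a)

/-- the type of a point -/
def tPt (a : ℤ) : Types (alg n) := ty (𝒜 := alg n) (singleton_mem a)

theorem tPt_eq (a b : ℤ) : tPt n a = tPt n b := by
  by_cases hab : a = b
  · rw [hab]
  · refine ty_image (𝒜 := alg n) (singleton_mem a) (singleton_mem b)
      ⟨Equiv.swap a b, Subgroup.subset_closure (Or.inr ⟨a, b, hab, rfl⟩)⟩ ?_
    simp [Subgroup.smul_def]

theorem tIci_succ (a : ℤ) : tIci n a = tIci n (a + 1) + tPt n 0 := by
  rw [tPt_eq n 0 a]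
  have hd : Disjoint (Ici (a + 1)) ({a} : Set ℤ) := by
    rw [Set.disjoint_right]
    intro x hx
    rw [mem_singleton_iff] at hx
    subst hx
    simp
  unfold tIci tPt
  rw [← ty_union (𝒜 := alg n) (ici_mem (a + 1)) (singleton_mem a) hd]
  have e : Ici a = Ici (a + 1) ∪ {a} := by
    ext x
    simp only [mem_Ici, mem_union, mem_singleton_iff]
    omega
  unfold ty
  congr 1
  apply Subtype.ext
  exact congrArg lev e

theorem tIci_add (a : ℤ) (k : ℕ) : tIci n a = tIci n (a + k) + k • tPt n 0 := by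
  induction k with
  | zero => simp
  | succ k ih =>
    rw [ih, tIci_succ n (a + k), succ_nsmul, add_assoc, add_comm (tPt n 0)]
    congr 2
    push_cast
    ring

theorem tr_pow_apply (k : ℕ) (x : ℤ) : (tr ^ k : Equiv.Perm ℤ) x = x + k := by
  induction k with
  | zero => simp
  | succ k ih =>
    rw [pow_succ', Equiv.Perm.mul_apply, ih]
    change x + k + 1 = x + (k + 1 : ℕ)
    push_cast
    ring

theorem tIci_shift (a : ℤ) : tIci n a = tIci n (a + n) := by
  refine ty_image (𝒜 := alg n) (ici_mem a) (ici_mem (a + n))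
    ⟨tr ^ n, Subgroup.subset_closure (Or.inl rfl)⟩ ?_
  ext x
  simp only [Subgroup.smul_def, Equiv.Perm.smul_def, mem_image, mem_Ici]
  constructor
  · rintro ⟨y, hy, rfl⟩
    rw [tr_pow_apply]
    omega
  · intro hx
    refine ⟨x - n, by omega, ?_⟩
    rw [tr_pow_apply]
    ring

/-- adding `n` points does not change the type of a half line -/
theorem tIci_absorb (a : ℤ) : tIci n a + n • tPt n 0 = tIci n a := by
  conv_rhs => rw [tIci_add n a n]
  rw [← tIci_shift]

theorem main_eq (hn : 1 ≤ n) (k : ℕ) : (n * k) • tIci n 0 = (n * k) • tIci n 1 := by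
  have h : n • tIci n 0 = n • tIci n 1 := by
    have h0 := tIci_succ n 0
    rw [zero_add] at h0
    obtain ⟨m, rfl⟩ : ∃ m, n = m + 1 := ⟨n - 1, by omega⟩
    rw [h0, nsmul_add]
    conv_rhs => rw [succ_nsmul]
    conv_lhs => rw [succ_nsmul, add_assoc]
    rw [tIci_absorb]
  rw [mul_comm, mul_nsmul', mul_nsmul', h]

theorem main_ne {m : ℕ} (h : m • tIci n 0 = m • tIci n 1) : n ∣ m := by
  have h1 := congrArg (isMeas n).hom h
  rw [map_nsmul, map_nsmul] at h1
  have e0 : (isMeas n).hom (tIci n 0) = 0 := by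
    change ext (idxn n) (lev (Ici 0)) = 0
    rw [(isMeas n).ext_lev]
    unfold idxn
    rw [idx_ici_zero]
    simp
  have e1 : (isMeas n).hom (tIci n 1) = -1 := by
    change ext (idxn n) (lev (Ici 1)) = -1
    rw [(isMeas n).ext_lev]
    unfold idxn
    rw [idx_ici_one]
    simp
  rw [e0, e1, smul_zero, smul_neg, nsmul_one, eq_comm, neg_eq_zero] at h1
  exact (ZMod.natCast_eq_zero_iff m n).1 h1

theorem not_all : (alg n).sets ≠ univ := by
  intro h
  have h1 : {x : ℤ | Even x} ∈ (alg n).sets := by rw [h]; trivial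
  rcases h1.1 with h2 | h2
  · obtain ⟨a, ha⟩ := eventually_atTop.1 h2
    have h3 := ha a le_rfl
    have h4 := ha (a + 1) (by omega)
    simp only [mem_ofPred_eq] at h3 h4
    rcases h3 with ⟨b, hb⟩
    rcases h4 with ⟨c, hc⟩
    omega
  · obtain ⟨a, ha⟩ := eventually_atTop.1 h2
    have h3 := ha a le_rfl
    have h4 := ha (a + 1) (by omega)
    simp only [mem_ofPred_eq, Int.not_even_iff_odd] at h3 h4
    rcases h3 with ⟨b, hb⟩
    rcases h4 with ⟨c, hc⟩
    omega

end Pool.Agent.R715.Equi
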