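import Pool.Agent.R715.TypeSemigroup

set_option autoImplicit false

/-!
# Invariant finitely additive functions give homomorphisms on the type semigroup
-/

namespace Pool.Agent.R715.Equi

open Set

universe u v w

variable {G : Type u} {X : Type v} [Group G] [MulAction G X] {𝒜 : InvSubalgebra G X}
  {M : Type w} [AddCommGroup M]

/-- a `G`-invariant finitely additive function -/
structure IsMeas (𝒜 : InvSubalgebra G X) (μ : Set X → M) : Prop where
  add : ∀ A ∈ 𝒜.sets, ∀ B ∈ 𝒜.sets, Disjoint A B → μ (A ∪ B) = μ A + μ B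
  inv : ∀ (g : G), ∀ A ∈ 𝒜.sets, μ ((fun x => g • x) '' A) = μ A

/-- slices -/
def slice (A : Set (X × ℕ)) (m : ℕ) : Set X := {x | (x, m) ∈ A}

/-- the extension to `𝒜*` -/
noncomputable def ext (μ : Set X → M) (A : Set (X × ℕ)) : M := ∑ᶠ m, μ (slice A m)

variable {μ : Set X → M}

theorem IsMeas.empty (h : IsMeas 𝒜 μ) : μ ∅ = 0 := by
  have := h.add ∅ 𝒜.empty_mem ∅ 𝒜.empty_mem (by simp)
  simpa using this

theorem slice_mem {A : Set (X × ℕ)} (hA : A ∈ Star 𝒜) (m : ℕ) : slice A m ∈ 𝒜.sets :=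
  ((mem_star_iff A).1 hA).2 m

theorem IsMeas.finite_supp (h : IsMeas 𝒜 μ) {A : Set (X × ℕ)} (hA : A ∈ Star 𝒜) :
    (Function.support fun m => μ (slice A m)).Finite := by
  obtain ⟨n, hn⟩ := ((mem_star_iff A).1 hA).1
  refine (finite_Iio n).subset ?_
  intro m hm
  by_contra hc
  apply hm
  have : slice A m = ∅ := by
    ext x
    simp only [mem_empty_iff_false, iff_false]
    intro hx
    exact hc (hn _ hx)
  simp only [this, h.empty]

theorem IsMeas.ext_union (h : IsMeas 𝒜 μ) {A B : Set (X × ℕ)} (hA : A ∈ Star 𝒜)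
    (hB : B ∈ Star 𝒜) (hd : Disjoint A B) : ext μ (A ∪ B) = ext μ A + ext μ B := by
  unfold ext
  rw [← finsum_add_distrib (h.finite_supp hA) (h.finite_supp hB)]
  apply finsum_congr
  intro m
  apply h.add _ (slice_mem hA m) _ (slice_mem hB m)
  rw [Set.disjoint_left] at *
  intro x hx
  exact hd hx

theorem IsMeas.ext_empty (h : IsMeas 𝒜 μ) : ext μ (∅ : Set (X × ℕ)) = 0 := by
  unfold ext
  rw [← finsum_zero (α := ℕ) (M := M)]
  apply finsum_congr
  intro m
  exact h.empty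

theorem IsMeas.ext_act (h : IsMeas 𝒜 μ) {A : Set (X × ℕ)} (hA : A ∈ Star 𝒜)
    (g : G × Equiv.Perm ℕ) : ext μ (act g '' A) = ext μ A := by
  unfold ext
  rw [← finsum_comp_equiv g.2]
  apply finsum_congr
  intro m
  have : slice (act g '' A) (g.2 m) = (fun x => g.1 • x) '' slice A m := by
    ext x
    constructor
    · rintro ⟨⟨y, k⟩, hy, e⟩
      simp only [act, Prod.mk.injEq, EmbeddingLike.apply_eq_iff_eq] at e
      refine ⟨y, ?_, e.1⟩
      rw [← e.2]; exact hy
    · rintro ⟨y, hy, rfl⟩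
      exact ⟨(y, m), hy, rfl⟩
  rw [this]
  exact h.inv _ _ (slice_mem hA m)

theorem IsMeas.ext_iUnion (h : IsMeas 𝒜 μ) {ι : Type} (s : Finset ι) (P : ι → Set (X × ℕ))
    (hP : ∀ i, P i ∈ Star 𝒜) (hd : ∀ i j, i ≠ j → Disjoint (P i) (P j)) :
    (⋃ i ∈ s, P i) ∈ Star 𝒜 ∧ ext μ (⋃ i ∈ s, P i) = ∑ i ∈ s, ext μ (P i) := by
  classical
  induction s using Finset.induction_on with
  | empty =>
    simp only [Finset.notMem_empty, iUnion_of_empty, iUnion_empty, Finset.sum_empty]
    exact ⟨empty_mem_star, h.ext_empty⟩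
  | insert a s ha ih =>
    rw [Finset.set_biUnion_insert, Finset.sum_insert ha, ← ih.2]
    refine ⟨union_mem_star (hP a) ih.1, h.ext_union (hP a) ih.1 ?_⟩
    rw [disjoint_iUnion₂_right]
    intro i hi
    exact hd a i (fun e => ha (e ▸ hi))

theorem IsMeas.ext_equidec (h : IsMeas 𝒜 μ) {A B : Set (X × ℕ)} (hAB : Equidec 𝒜 A B) :
    ext μ A = ext μ B := by
  obtain ⟨ι, hι, P, g, h1, h2, h3, h4, h5⟩ := hAB
  classical
  have := Fintype.ofFinite ι
  have e1 := (h.ext_iUnion Finset.univ P h1 h2).2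
  have e2 := (h.ext_iUnion Finset.univ (fun i => act (g i) '' P i)
    (fun i => act_mem_star _ (h1 i)) h4).2
  simp only [Finset.mem_univ, iUnion_true] at e1 e2
  rw [h3] at e1
  rw [h5] at e2
  rw [e1, e2]
  exact Finset.sum_congr rfl (fun i _ => (h.ext_act (h1 i) (g i)).symm)

/-- the homomorphism on types -/
noncomputable def IsMeas.hom (h : IsMeas 𝒜 μ) : Types 𝒜 →+ M where
  toFun := Quotient.lift (fun A : Star 𝒜 => ext μ A.1) (fun _ _ e => h.ext_equidec e)
  map_zero' := h.ext_empty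
  map_add' := by
    intro α β
    induction α using Quotient.ind
    induction β using Quotient.ind
    rename_i A B
    change ext μ (sumSet A B).1 = ext μ A.1 + ext μ B.1
    have e : ext μ (shift (bound A.1) B.1) = ext μ B.1 :=
      (h.ext_equidec (equidec_shift B.2 _)).symm
    rw [← e]
    exact h.ext_union A.2 (shift_mem_star B.2 _) (disjoint_shift (lt_bound A.2) _)

theorem IsMeas.hom_mk (h : IsMeas 𝒜 μ) (A : Star 𝒜) : h.hom (Types.mk A) = ext μ A.1 := rfl

/-- the set `A × {0}` -/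
def lev (A : Set X) : Set (X × ℕ) := {p | p.2 = 0 ∧ p.1 ∈ A}

theorem lev_mem {A : Set X} (hA : A ∈ 𝒜.sets) : lev A ∈ Star 𝒜 := by
  refine ⟨1, fun _ => A, fun _ _ => hA, ?_⟩
  ext p
  simp [lev]

theorem IsMeas.ext_lev (h : IsMeas 𝒜 μ) (A : Set X) : ext μ (lev A) = μ A := by
  unfold ext
  rw [finsum_eq_single _ 0]
  · congr 1
    ext x
    simp [slice, lev]
  · intro m hm
    have : slice (lev A) m = ∅ := by
      ext x
      simp [slice, lev, hm]
    rw [this, h.empty]

/-- the type of `A × {0}` -/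
def ty {A : Set X} (hA : A ∈ 𝒜.sets) : Types 𝒜 := Types.mk ⟨lev A, lev_mem hA⟩

theorem ty_union {A B : Set X} (hA : A ∈ 𝒜.sets) (hB : B ∈ 𝒜.sets) (hd : Disjoint A B) :
    ty (𝒜.union_mem A hA B hB) = ty hA + ty hB := by
  unfold ty
  rw [← Types.mk_union]
  · congr 1
    apply Subtype.ext
    ext p
    simp only [lev, mem_ofPred_eq, mem_union]
    tauto
  · rw [Set.disjoint_left] at *
    rintro p hp hq
    exact hd hp.2 hq.2

theorem ty_image {A B : Set X} (hA : A ∈ 𝒜.sets) (hB : B ∈ 𝒜.sets) (g : G)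
    (h : (fun x => g • x) '' A = B) : ty hA = ty hB := by
  unfold ty
  rw [Types.mk_eq]
  refine ⟨Unit, inferInstance, fun _ => lev A, fun _ => (g, 1), fun _ => lev_mem hA, ?_,
    iUnion_const _, ?_, ?_⟩
  · intro i j h; exact absurd (Subsingleton.elim i j) h
  · intro i j h; exact absurd (Subsingleton.elim i j) h
  · rw [iUnion_const]
    subst h
    ext p
    constructor
    · rintro ⟨q, hq, rfl⟩
      refine ⟨?_, q.1, hq.2, rfl⟩
      simpa [act] using hq.1
    · rintro ⟨h0, y, hy, e⟩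
      refine ⟨(y, 0), ⟨rfl, hy⟩, ?_⟩
      exact Prod.ext e (by simpa [act] using h0.symm)

end Pool.Agent.R715.Equi
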