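import Mathlib

set_option autoImplicit false

/-!
# Type semigroups of group actions with pieces in an invariant subalgebra
-/

namespace Pool.Agent.R715.Equi

open Set

universe u v

/-- A `G`-invariant subalgebra of `P(X)`: a family of subsets of `X` containing `∅` and `X`, closed
under finite unions, finite intersections and complements, and under the action of `G`. -/
structure InvSubalgebra (G : Type u) (X : Type v) [Group G] [MulAction G X] where
  /-- the members of the family -/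
  sets : Set (Set X)
  empty_mem : ∅ ∈ sets
  univ_mem : univ ∈ sets
  union_mem : ∀ A ∈ sets, ∀ B ∈ sets, A ∪ B ∈ sets
  inter_mem : ∀ A ∈ sets, ∀ B ∈ sets, A ∩ B ∈ sets
  compl_mem : ∀ A ∈ sets, Aᶜ ∈ sets
  image_mem : ∀ (g : G), ∀ A ∈ sets, (fun x => g • x) '' A ∈ sets

variable {G : Type u} {X : Type v} [Group G] [MulAction G X]

/-- The family `𝒜*` of the sets `⋃_{m < n} A_m × {m}` with `n ∈ ℕ` and all `A_m ∈ 𝒜`. -/
def Star (𝒜 : InvSubalgebra G X) : Set (Set (X × ℕ)) :=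
  {A | ∃ (n : ℕ) (f : ℕ → Set X), (∀ m < n, f m ∈ 𝒜.sets) ∧ A = {p | p.2 < n ∧ p.1 ∈ f p.2}}

/-- The action of `G* = G × Sym(ℕ)` on `X* = X × ℕ`. -/
def act (h : G × Equiv.Perm ℕ) (p : X × ℕ) : X × ℕ := (h.1 • p.1, h.2 p.2)

/-- `A ∼ B`: there are a finite partition of `A` into pieces from `𝒜*` and elements of `G*` which
map the pieces onto the pieces of a partition of `B`. -/
def Equidec (𝒜 : InvSubalgebra G X) (A B : Set (X × ℕ)) : Prop :=
  ∃ (ι : Type) (_ : Finite ι) (P : ι → Set (X × ℕ)) (h : ι → G × Equiv.Perm ℕ),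
    (∀ i, P i ∈ Star 𝒜) ∧ (∀ i j, i ≠ j → Disjoint (P i) (P j)) ∧ (⋃ i, P i) = A ∧
    (∀ i j, i ≠ j → Disjoint (act (h i) '' P i) (act (h j) '' P j)) ∧
    (⋃ i, act (h i) '' P i) = B

variable {𝒜 : InvSubalgebra G X}

theorem act_injective (h : G × Equiv.Perm ℕ) : Function.Injective (act h : X × ℕ → X × ℕ) := by
  rintro ⟨x, m⟩ ⟨y, n⟩ e
  simp only [act, Prod.mk.injEq, EmbeddingLike.apply_eq_iff_eq] at e
  rw [MulAction.injective h.1 e.1, e.2]

theorem act_mul (h h' : G × Equiv.Perm ℕ) (p : X × ℕ) : act (h * h') p = act h (act h' p) := by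
  simp [act, mul_smul]

theorem act_one (p : X × ℕ) : act (1 : G × Equiv.Perm ℕ) p = p := by
  simp [act]

theorem act_inv_act (h : G × Equiv.Perm ℕ) (p : X × ℕ) : act h⁻¹ (act h p) = p := by
  rw [← act_mul, inv_mul_cancel, act_one]

theorem act_act_inv (h : G × Equiv.Perm ℕ) (p : X × ℕ) : act h (act h⁻¹ p) = p := by
  rw [← act_mul, mul_inv_cancel, act_one]

theorem image_act_inv (h : G × Equiv.Perm ℕ) (A : Set (X × ℕ)) :
    act h⁻¹ '' (act h '' A) = A := by
  rw [← image_comp]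
  have : (act h⁻¹ ∘ act h : X × ℕ → X × ℕ) = id := by
    funext p; exact act_inv_act h p
  rw [this, image_id]

theorem image_act_mul (h h' : G × Equiv.Perm ℕ) (A : Set (X × ℕ)) :
    act (h * h') '' A = act h '' (act h' '' A) := by
  rw [← image_comp]
  congr 1
  funext p; exact act_mul h h' p

/-- membership in `𝒜*` in terms of slices -/
theorem mem_star_iff (A : Set (X × ℕ)) :
    A ∈ Star 𝒜 ↔ (∃ n, ∀ p ∈ A, p.2 < n) ∧ ∀ m, {x | (x, m) ∈ A} ∈ 𝒜.sets := by
  constructor
  · rintro ⟨n, f, hf, rfl⟩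
    refine ⟨⟨n, fun p hp => hp.1⟩, fun m => ?_⟩
    by_cases hm : m < n
    · have : {x | (x, m) ∈ {p : X × ℕ | p.2 < n ∧ p.1 ∈ f p.2}} = f m := by
        ext x; simp [hm]
      rw [this]; exact hf m hm
    · have : {x | (x, m) ∈ {p : X × ℕ | p.2 < n ∧ p.1 ∈ f p.2}} = ∅ := by
        ext x; simp [hm]
      rw [this]; exact 𝒜.empty_mem
  · rintro ⟨⟨n, hn⟩, h⟩
    refine ⟨n, fun m => {x | (x, m) ∈ A}, fun m _ => h m, ?_⟩
    ext ⟨x, m⟩
    constructor
    · intro hx; exact ⟨hn _ hx, hx⟩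
    · rintro ⟨_, hx⟩; exact hx

theorem empty_mem_star : (∅ : Set (X × ℕ)) ∈ Star 𝒜 := by
  rw [mem_star_iff]
  refine ⟨⟨0, by simp⟩, fun m => ?_⟩
  simpa using 𝒜.empty_mem

theorem union_mem_star {A B : Set (X × ℕ)} (hA : A ∈ Star 𝒜) (hB : B ∈ Star 𝒜) :
    A ∪ B ∈ Star 𝒜 := by
  rw [mem_star_iff] at *
  obtain ⟨⟨n, hn⟩, h1⟩ := hA
  obtain ⟨⟨n', hn'⟩, h2⟩ := hB
  refine ⟨⟨max n n', ?_⟩, fun m => 𝒜.union_mem _ (h1 m) _ (h2 m)⟩
  rintro p (hp | hp)
  · exact lt_max_of_lt_left (hn p hp)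
  · exact lt_max_of_lt_right (hn' p hp)

theorem inter_mem_star {A B : Set (X × ℕ)} (hA : A ∈ Star 𝒜) (hB : B ∈ Star 𝒜) :
    A ∩ B ∈ Star 𝒜 := by
  rw [mem_star_iff] at *
  obtain ⟨⟨n, hn⟩, h1⟩ := hA
  obtain ⟨-, h2⟩ := hB
  exact ⟨⟨n, fun p hp => hn p hp.1⟩, fun m => 𝒜.inter_mem _ (h1 m) _ (h2 m)⟩

/-- moving levels by a permutation (of finitely many levels) and elements of `G` -/
theorem act_mem_star (h : G × Equiv.Perm ℕ) {A : Set (X × ℕ)} (hA : A ∈ Star 𝒜) :
    act h '' A ∈ Star 𝒜 := by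
  rw [mem_star_iff] at *
  obtain ⟨⟨n, hn⟩, h1⟩ := hA
  refine ⟨?_, fun m => ?_⟩
  · obtain ⟨N, hN⟩ : ∃ N, ∀ m < n, h.2 m < N := by
      refine ⟨(Finset.range n).sup (fun m => h.2 m) + 1, fun m hm => ?_⟩
      exact Nat.lt_succ_of_le (Finset.le_sup (f := fun m => h.2 m) (Finset.mem_range.2 hm))
    refine ⟨N, ?_⟩
    rintro _ ⟨p, hp, rfl⟩
    exact hN _ (hn p hp)
  · have : {x | (x, m) ∈ act h '' A} = (fun x => h.1 • x) '' {x | (x, h.2.symm m) ∈ A} := by
      ext x
      constructor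
      · rintro ⟨⟨y, k⟩, hy, e⟩
        simp only [act, Prod.mk.injEq] at e
        refine ⟨y, ?_, e.1⟩
        simp only [mem_ofPred_eq, ← e.2, Equiv.symm_apply_apply]
        exact hy
      · rintro ⟨y, hy, rfl⟩
        exact ⟨(y, h.2.symm m), hy, by simp [act]⟩
    rw [this]
    exact 𝒜.image_mem _ _ (h1 _)

theorem Equidec.refl {A : Set (X × ℕ)} (hA : A ∈ Star 𝒜) : Equidec 𝒜 A A := by
  refine ⟨Unit, inferInstance, fun _ => A, fun _ => 1, fun _ => hA, ?_, ?_, ?_, ?_⟩
  · intro i j h; exact absurd (Subsingleton.elim i j) h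
  · exact iUnion_const A
  · intro i j h; exact absurd (Subsingleton.elim i j) h
  · have : (act (1 : G × Equiv.Perm ℕ) : X × ℕ → X × ℕ) = id := by
      funext p; exact act_one p
    simp only [this, image_id]
    exact iUnion_const A

theorem Equidec.symm {A B : Set (X × ℕ)} (h : Equidec 𝒜 A B) : Equidec 𝒜 B A := by
  obtain ⟨ι, hι, P, h, h1, h2, h3, h4, h5⟩ := h
  refine ⟨ι, hι, fun i => act (h i) '' P i, fun i => (h i)⁻¹, fun i => act_mem_star _ (h1 i),
    h4, h5, ?_, ?_⟩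
  · intro i j hij
    simp only [image_act_inv]
    exact h2 i j hij
  · simp only [image_act_inv]
    exact h3

theorem Equidec.trans {A B C : Set (X × ℕ)} (h : Equidec 𝒜 A B) (h' : Equidec 𝒜 B C) :
    Equidec 𝒜 A C := by
  obtain ⟨ι, hι, P, g, h1, h2, h3, h4, h5⟩ := h
  obtain ⟨κ, hκ, Q, k, k1, k2, k3, k4, k5⟩ := h'
  -- pieces in B
  set R : ι × κ → Set (X × ℕ) := fun p => act (g p.1) '' P p.1 ∩ Q p.2 with hR
  have hRU : ∀ i, (⋃ j, R (i, j)) = act (g i) '' P i := by
    intro i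
    simp only [hR, ← inter_iUnion, k3, ← h5]
    exact inter_eq_left.2 (subset_iUnion (fun i => act (g i) '' P i) i)
  have hRU' : ∀ j, (⋃ i, R (i, j)) = Q j := by
    intro j
    simp only [hR, ← iUnion_inter, h5, ← k3]
    exact inter_eq_right.2 (subset_iUnion Q j)
  have hRd : ∀ p q : ι × κ, p ≠ q → Disjoint (R p) (R q) := by
    rintro ⟨i, j⟩ ⟨i', j'⟩ hpq
    by_cases hi : i = i'
    · subst hi
      have hj : j ≠ j' := fun e => hpq (by rw [e])
      exact (k2 j j' hj).mono inter_subset_right inter_subset_right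
    · exact (h4 i i' hi).mono inter_subset_left inter_subset_left
  refine ⟨ι × κ, inferInstance, fun p => act (g p.1)⁻¹ '' R p, fun p => k p.2 * g p.1,
    ?_, ?_, ?_, ?_, ?_⟩
  · rintro ⟨i, j⟩
    exact act_mem_star _ (inter_mem_star (act_mem_star _ (h1 i)) (k1 j))
  · rintro ⟨i, j⟩ ⟨i', j'⟩ hpq
    by_cases hi : i = i'
    · subst hi
      exact (disjoint_image_iff (act_injective _)).2 (hRd _ _ hpq)
    · refine (h2 i i' hi).mono ?_ ?_
      · rw [← image_act_inv (g i) (P i)]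
        exact image_mono inter_subset_left
      · rw [← image_act_inv (g i') (P i')]
        exact image_mono inter_subset_left
  · rw [iUnion_prod' (fun p => act (g p.1)⁻¹ '' R p)]
    simp only [← image_iUnion, hRU, image_act_inv]
    exact h3
  · intro p q hpq
    have e : ∀ p : ι × κ, act (k p.2 * g p.1) '' (act (g p.1)⁻¹ '' R p) = act (k p.2) '' R p := by
      intro p
      rw [← image_act_mul, mul_assoc, mul_inv_cancel, mul_one]
    rw [e, e]
    obtain ⟨i, j⟩ := p
    obtain ⟨i', j'⟩ := q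
    by_cases hj : j = j'
    · subst hj
      exact (disjoint_image_iff (act_injective _)).2 (hRd _ _ hpq)
    · exact (k4 j j' hj).mono (image_mono inter_subset_right) (image_mono inter_subset_right)
  · have e : ∀ p : ι × κ, act (k p.2 * g p.1) '' (act (g p.1)⁻¹ '' R p) = act (k p.2) '' R p := by
      intro p
      rw [← image_act_mul, mul_assoc, mul_inv_cancel, mul_one]
    simp only [e]
    rw [← k5]
    ext x
    simp only [mem_iUnion, Prod.exists]
    constructor
    · rintro ⟨i, j, hx⟩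
      exact ⟨j, image_mono inter_subset_right hx⟩
    · rintro ⟨j, hx⟩
      rw [← hRU' j, image_iUnion] at hx
      obtain ⟨i, hi⟩ := mem_iUnion.1 hx
      exact ⟨i, j, hi⟩

theorem Equidec.left_mem {A B : Set (X × ℕ)} (h : Equidec 𝒜 A B) : A ∈ Star 𝒜 := by
  obtain ⟨ι, hι, P, g, h1, h2, h3, h4, h5⟩ := h
  rw [← h3]
  classical
  have := Fintype.ofFinite ι
  have key : ∀ s : Finset ι, (⋃ i ∈ s, P i) ∈ Star 𝒜 := by
    intro s
    induction s using Finset.induction_on with
    | empty => simpa using empty_mem_star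
    | insert a s ha ih =>
      rw [Finset.set_biUnion_insert]
      exact union_mem_star (h1 a) ih
  simpa using key Finset.univ

/-- disjoint unions -/
theorem Equidec.union {A B A' B' : Set (X × ℕ)} (h : Equidec 𝒜 A A') (h' : Equidec 𝒜 B B')
    (hd : Disjoint A B) (hd' : Disjoint A' B') : Equidec 𝒜 (A ∪ B) (A' ∪ B') := by
  obtain ⟨ι, hι, P, g, h1, h2, h3, h4, h5⟩ := h
  obtain ⟨κ, hκ, Q, k, k1, k2, k3, k4, k5⟩ := h'
  have hPA : ∀ i, P i ⊆ A := fun i => h3 ▸ subset_iUnion P i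
  have hQB : ∀ i, Q i ⊆ B := fun i => k3 ▸ subset_iUnion Q i
  have hPA' : ∀ i, act (g i) '' P i ⊆ A' := fun i => h5 ▸ subset_iUnion (fun i => act (g i) '' P i) i
  have hQB' : ∀ i, act (k i) '' Q i ⊆ B' := fun i => k5 ▸ subset_iUnion (fun i => act (k i) '' Q i) i
  refine ⟨ι ⊕ κ, inferInstance, Sum.elim P Q, Sum.elim g k, ?_, ?_, ?_, ?_, ?_⟩
  · rintro (i | i)
    · exact h1 i
    · exact k1 i
  · rintro (i | i) (j | j) hij
    · exact h2 i j (fun e => hij (by rw [e]))
    · exact hd.mono (hPA i) (hQB j)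
    · exact hd.symm.mono (hQB i) (hPA j)
    · exact k2 i j (fun e => hij (by rw [e]))
  · rw [iUnion_sum]
    simp only [Sum.elim_inl, Sum.elim_inr, h3, k3]
  · rintro (i | i) (j | j) hij
    · exact h4 i j (fun e => hij (by rw [e]))
    · exact hd'.mono (hPA' i) (hQB' j)
    · exact hd'.symm.mono (hQB' i) (hPA' j)
    · exact k4 i j (fun e => hij (by rw [e]))
  · rw [iUnion_sum]
    simp only [Sum.elim_inl, Sum.elim_inr, h5, k5]

/-- a finite partial injection of `ℕ` extends to a permutation -/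
theorem exists_perm (f : ℕ → ℕ) (n : ℕ) (hf : ∀ i < n, ∀ j < n, f i = f j → i = j) :
    ∃ σ : Equiv.Perm ℕ, ∀ i < n, σ i = f i := by
  induction n with
  | zero => exact ⟨1, fun i hi => absurd hi (Nat.not_lt_zero _)⟩
  | succ n ih =>
    obtain ⟨σ, hσ⟩ := ih (fun i hi j hj => hf i (by omega) j (by omega))
    refine ⟨Equiv.swap (f n) (σ n) * σ, fun i hi => ?_⟩
    rw [Equiv.Perm.mul_apply]
    by_cases hin : i = n
    · subst hin
      exact Equiv.swap_apply_right _ _
    · have hi' : i < n := by omega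
      rw [hσ i hi']
      apply Equiv.swap_apply_of_ne_of_ne
      · intro e
        exact hin (hf i hi n (by omega) e)
      · rw [← hσ i hi']
        exact fun e => hin (σ.injective e)

/-- moving the levels of a set by an injective map -/
theorem equidec_levels {A : Set (X × ℕ)} (hA : A ∈ Star 𝒜) (f : ℕ → ℕ) (n : ℕ)
    (hn : ∀ p ∈ A, p.2 < n) (hf : ∀ i < n, ∀ j < n, f i = f j → i = j) :
    Equidec 𝒜 A ((fun p => (p.1, f p.2)) '' A) := by
  obtain ⟨σ, hσ⟩ := exists_perm f n hf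
  refine ⟨Unit, inferInstance, fun _ => A, fun _ => (1, σ), fun _ => hA, ?_, iUnion_const A, ?_, ?_⟩
  · intro i j h; exact absurd (Subsingleton.elim i j) h
  · intro i j h; exact absurd (Subsingleton.elim i j) h
  · simp only [iUnion_const]
    apply image_congr
    intro p hp
    simp only [act, one_smul, hσ _ (hn p hp)]

/-- shift all levels upward by `m` -/
def shift (m : ℕ) (A : Set (X × ℕ)) : Set (X × ℕ) := (fun p => (p.1, p.2 + m)) '' A

theorem equidec_shift {A : Set (X × ℕ)} (hA : A ∈ Star 𝒜) (m : ℕ) :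
    Equidec 𝒜 A (shift m A) := by
  obtain ⟨n, hn⟩ := ((mem_star_iff A).1 hA).1
  exact equidec_levels hA (fun i => i + m) n hn (fun i _ j _ h => by simpa using h)

theorem shift_mem_star {A : Set (X × ℕ)} (hA : A ∈ Star 𝒜) (m : ℕ) : shift m A ∈ Star 𝒜 :=
  (equidec_shift hA m).symm.left_mem

theorem disjoint_shift {A : Set (X × ℕ)} {m : ℕ} (hm : ∀ p ∈ A, p.2 < m) (B : Set (X × ℕ)) :
    Disjoint A (shift m B) := by
  rw [Set.disjoint_left]
  rintro p hp ⟨q, _, rfl⟩
  have := hm _ hp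
  simp at this

variable (𝒜) in
/-- The equivalence relation `∼` on `𝒜*`. -/
def equiSetoid : Setoid (Star 𝒜) where
  r A B := Equidec 𝒜 A.1 B.1
  iseqv := ⟨fun A => Equidec.refl A.2, fun h => h.symm, fun h h' => h.trans h'⟩

variable (𝒜) in
/-- The set `𝒮(𝒜)` of types. -/
def Types : Type v := Quotient (equiSetoid 𝒜)

/-- The type of a member of `𝒜*`. -/
def Types.mk (A : Star 𝒜) : Types 𝒜 := Quotient.mk (equiSetoid 𝒜) A

theorem Types.mk_eq {A B : Star 𝒜} : Types.mk A = Types.mk B ↔ Equidec 𝒜 A.1 B.1 :=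
  ⟨fun h => Quotient.exact h, fun h => Quotient.sound h⟩

/-- the least `m` such that all levels of `A` are smaller than `m` -/
noncomputable def bound (A : Set (X × ℕ)) : ℕ := sInf {n | ∀ p ∈ A, p.2 < n}

theorem lt_bound {A : Set (X × ℕ)} (hA : A ∈ Star 𝒜) : ∀ p ∈ A, p.2 < bound A := by
  have h : {n | ∀ p ∈ A, p.2 < n}.Nonempty := ((mem_star_iff A).1 hA).1
  exact Nat.sInf_mem h

/-- The set `A ∪ B'` where `B'` is `B` shifted upward so that its levels are disjoint from those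
of `A`. -/
noncomputable def sumSet (A B : Star 𝒜) : Star 𝒜 :=
  ⟨A.1 ∪ shift (bound A.1) B.1, union_mem_star A.2 (shift_mem_star B.2 _)⟩

theorem equidec_sum {A B A' B' : Set (X × ℕ)} (hA : Equidec 𝒜 A A') (hB : Equidec 𝒜 B B')
    {m m' : ℕ} (hm : ∀ p ∈ A, p.2 < m) (hm' : ∀ p ∈ A', p.2 < m') :
    Equidec 𝒜 (A ∪ shift m B) (A' ∪ shift m' B') :=
  hA.union (((equidec_shift hB.left_mem m).symm.trans hB).trans
    (equidec_shift hB.symm.left_mem m')) (disjoint_shift hm _) (disjoint_shift hm' _)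

/-- The sum of types: `[A] + [B] = [A ∪ B']`. -/
noncomputable def Types.add : Types 𝒜 → Types 𝒜 → Types 𝒜 :=
  Quotient.map₂ sumSet (by
    intro A A' hA B B' hB
    exact equidec_sum hA hB (lt_bound A.2) (lt_bound A'.2))

noncomputable instance : Add (Types 𝒜) := ⟨Types.add⟩

instance : Zero (Types 𝒜) := ⟨Types.mk ⟨∅, empty_mem_star⟩⟩

theorem Types.mk_add_mk (A B : Star 𝒜) : Types.mk A + Types.mk B = Types.mk (sumSet A B) := rfl

/-- The sum may be computed with any shift and more generally with any disjoint representatives. -/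
theorem Types.mk_union {A B : Star 𝒜} (hd : Disjoint A.1 B.1) :
    Types.mk ⟨A.1 ∪ B.1, union_mem_star A.2 B.2⟩ = Types.mk A + Types.mk B := by
  rw [Types.mk_add_mk, Types.mk_eq]
  exact (Equidec.refl A.2).union (equidec_shift B.2 _) hd (disjoint_shift (lt_bound A.2) _)

theorem Types.add_comm' (α β : Types 𝒜) : α + β = β + α := by
  induction α using Quotient.ind
  induction β using Quotient.ind
  rename_i A B
  change Types.mk A + Types.mk B = Types.mk B + Types.mk A
  have hd := disjoint_shift (lt_bound A.2) B.1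
  have e1 : Types.mk B = Types.mk ⟨shift (bound A.1) B.1, shift_mem_star B.2 _⟩ :=
    Types.mk_eq.2 (equidec_shift B.2 _)
  rw [e1, ← Types.mk_union (A := A) (B := ⟨shift (bound A.1) B.1, shift_mem_star B.2 _⟩) hd,
    ← Types.mk_union (B := A) (A := ⟨shift (bound A.1) B.1, shift_mem_star B.2 _⟩) hd.symm]
  congr 1
  exact Subtype.ext (union_comm _ _)

theorem Types.add_assoc' (α β γ : Types 𝒜) : α + β + γ = α + (β + γ) := by
  induction α using Quotient.ind
  induction β using Quotient.ind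
  induction γ using Quotient.ind
  rename_i A B C
  change Types.mk A + Types.mk B + Types.mk C = Types.mk A + (Types.mk B + Types.mk C)
  obtain ⟨B', hB', hAB⟩ : ∃ B' : Star 𝒜, Types.mk B = Types.mk B' ∧ Disjoint A.1 B'.1 :=
    ⟨⟨shift (bound A.1) B.1, shift_mem_star B.2 _⟩, Types.mk_eq.2 (equidec_shift B.2 _),
      disjoint_shift (lt_bound A.2) B.1⟩
  have hU : A.1 ∪ B'.1 ∈ Star 𝒜 := union_mem_star A.2 B'.2
  obtain ⟨C', hC', hABC⟩ : ∃ C' : Star 𝒜, Types.mk C = Types.mk C' ∧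
      Disjoint (A.1 ∪ B'.1) C'.1 :=
    ⟨⟨shift (bound (A.1 ∪ B'.1)) C.1, shift_mem_star C.2 _⟩, Types.mk_eq.2 (equidec_shift C.2 _),
      disjoint_shift (lt_bound hU) C.1⟩
  rw [disjoint_union_left] at hABC
  rw [hB', hC', ← Types.mk_union hAB,
    ← Types.mk_union (A := ⟨A.1 ∪ B'.1, hU⟩) (B := C') (disjoint_union_left.2 hABC),
    ← Types.mk_union hABC.2,
    ← Types.mk_union (A := A) (B := ⟨B'.1 ∪ C'.1, union_mem_star B'.2 C'.2⟩)
      (disjoint_union_right.2 ⟨hAB, hABC.1⟩)]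
  congr 1
  exact Subtype.ext (union_assoc _ _ _)

theorem Types.zero_add' (α : Types 𝒜) : 0 + α = α := by
  induction α using Quotient.ind
  rename_i A
  change Types.mk ⟨∅, empty_mem_star⟩ + Types.mk A = Types.mk A
  rw [← Types.mk_union (by simp)]
  congr 1
  exact Subtype.ext (empty_union _)

/-- The type semigroup `𝒮(𝒜)`, a commutative monoid with neutral element `[∅]`. -/
noncomputable instance : AddCommMonoid (Types 𝒜) where
  add_assoc := Types.add_assoc'
  zero_add := Types.zero_add'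
  add_zero α := by rw [Types.add_comm', Types.zero_add']
  add_comm := Types.add_comm'
  nsmul := nsmulRec

end Pool.Agent.R715.Equi
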